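import Pool.Agent.Helper74.SN.Step

/-! SN-6: transfinite induction. -/

set_option autoImplicit false

namespace Pool.Agent.SN

open Set Filter Topology

theorem approx_all {X : Type*} [NormedAddCommGroup X] [NormedSpace ℝ X] [CompleteSpace X]
    {W : Type*} {g : Seminorm ℝ X} (PS : ProjSys X W g) (ν : Seminorm ℝ X)
    (hν : IsEquivNorm ν) (hs : IsSmoothNorm ν) (hg : IsEquivNorm g)
    (hc : ∀ S : Set W, S.Countable → Approx (PS.P S) g) (S : Set W) : Approx (PS.P S) g := by
  have key : ∀ (κ : Cardinal) (S : Set W), Cardinal.mk S = κ → Approx (PS.P S) g := by
    intro κ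
    induction κ using WellFoundedLT.induction with
    | ind κ ih =>
      intro S hS
      by_cases hcount : S.Countable
      · exact hc S hcount
      · have hinf : Cardinal.aleph0 < κ := by
          rw [← hS]
          rw [← not_le]
          intro h
          exact hcount (Cardinal.le_aleph0_iff_set_countable.1 h)
        let I := κ.ord.ToType
        have hI : Cardinal.mk I = Cardinal.mk S := by
          rw [hS]
          exact Cardinal.mk_ord_toType κ
        obtain ⟨e⟩ := Cardinal.eq.1 hI
        let s : I → W := fun i => (e i : W)
        have hrange : range s = S := by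
          ext w
          constructor
          · rintro ⟨i, rfl⟩
            exact (e i).2
          · intro hw
            exact ⟨e.symm ⟨w, hw⟩, by simp [s]⟩
        have hIio : ∀ a : I, Cardinal.mk (Iio a) < κ := fun a =>
          Cardinal.mk_Iio_toType_ord_lt a
        have hIic : ∀ a : I, Cardinal.mk (Iic a) < κ := by
          intro a
          have h1 : Iic a = insert a (Iio a) := by
            ext x
            rw [mem_Iic, mem_insert_iff, mem_Iio, le_iff_eq_or_lt]
          rw [h1]
          refine lt_of_le_of_lt Cardinal.mk_insert_le ?_
          exact Cardinal.add_lt_of_lt hinf.le (hIio a) (lt_trans Cardinal.one_lt_aleph0 hinf)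
        have h := inductive_step PS s ν hν hs hg (hc ∅ countable_empty)
          (fun a => ih _ (lt_of_le_of_lt Cardinal.mk_image_le (hIio a)) _ rfl)
          (fun a => ih _ (lt_of_le_of_lt Cardinal.mk_image_le (hIic a)) _ rfl)
        rwa [hrange] at h
  exact key _ S rfl

end Pool.Agent.SN
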