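import Pool.Agent.Helper74.SN.Defs

/-! SN-5a: blocks between initial segments. -/

set_option autoImplicit false

namespace Pool.Agent.SN

open Set Filter Topology

section Step

variable {X : Type*} [NormedAddCommGroup X] [NormedSpace ℝ X] {W : Type*} {g : Seminorm ℝ X}
  (PS : ProjSys X W g) {I : Type*} [LinearOrder I] [WellFoundedLT I] (s : I → W)

omit [WellFoundedLT I] in
theorem blocks_aux (x : X) (L M : Set I) (hM : IsLowerSet M) (hLM : L ⊆ M)
    (h : ∀ c ∈ M, PS.P (s '' (L ∪ Iic c)) x = PS.P (s '' L) x) :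
    PS.P (s '' M) x = PS.P (s '' L) x := by
  have key : ∀ ε > 0, ‖PS.P (s '' L) x - PS.P (s '' M) x‖ ≤ ε := by
    intro ε hε
    have h1 : ∃ t ⊆ s '' M, t.Finite ∧
        ∀ T : Set W, t ⊆ T → T ⊆ s '' M → ‖PS.P T x - PS.P (s '' M) x‖ ≤ ε := by
      obtain ⟨F, hF, hFM, hFT⟩ := PS.approx (s '' M) x ε hε
      exact ⟨F, hFM, hF, hFT⟩
    rw [Set.exists_subset_image_finite_and] at h1
    obtain ⟨F0, hF0M, hF0, hT⟩ := h1
    rcases F0.eq_empty_or_nonempty with rfl | hne
    · exact hT (s '' L) (by simp) (image_mono hLM)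
    · obtain ⟨c, hc, hmax⟩ := exists_max_image F0 id hF0 hne
      have := hT (s '' (L ∪ Iic c)) (image_mono (fun d hd => Or.inr (hmax d hd)))
        (image_mono (union_subset hLM (fun d hd => hM hd (hF0M hc))))
      rw [h c (hF0M hc)] at this
      exact this
  have h0 : ‖PS.P (s '' L) x - PS.P (s '' M) x‖ ≤ 0 :=
    le_of_forall_pos_le_add (fun ε hε => by simpa using key ε hε)
  have h1 := norm_le_zero_iff.mp h0
  exact (sub_eq_zero.mp h1).symm

/-- if all blocks between two initial segments vanish at `x`, the projections agree -/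
theorem proj_eq_of_blocks (x : X) (L L' : Set I) (hL : IsLowerSet L) (hL' : IsLowerSet L')
    (hLL : L ⊆ L')
    (hQ : ∀ b ∈ L', b ∉ L → PS.P (s '' Iic b) x = PS.P (s '' Iio b) x) :
    PS.P (s '' L') x = PS.P (s '' L) x := by
  have claim : ∀ b, b ∈ L' → PS.P (s '' (L ∪ Iic b)) x = PS.P (s '' L) x := by
    intro b
    induction b using WellFoundedLT.induction with
    | _ b ih =>
      intro hb
      by_cases hbL : b ∈ L
      · have : L ∪ Iic b = L := union_eq_self_of_subset_right (fun d hd => hL hd hbL)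
        rw [this]
      · have hLb : L ⊆ Iio b := by
          intro d hd
          by_contra hdb
          exact hbL (hL (not_lt.mp hdb) hd)
        have : L ∪ Iic b = Iic b :=
          union_eq_self_of_subset_left (hLb.trans Iio_subset_Iic_self)
        rw [this, hQ b hb hbL]
        exact blocks_aux PS s x L (Iio b) (isLowerSet_Iio b) hLb
          (fun c hc => ih c hc (hL' (le_of_lt hc) hb))
  exact blocks_aux PS s x L L' hL' hLL claim

end Step

end Pool.Agent.SN
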