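import Pool.Agent.Helper74.SN.Defs

/-!
# The closing-off operator

`Cl D sp r k S` is the closure of a set `S` of vectors, functionals and elements of an algebra
under rational linear combinations, products (in the algebra) and the four maps `D`, `sp`, `r`,
`k`.
-/

set_option autoImplicit false

namespace Pool.Agent.SN

open Set Filter Topology

/-- The three-sorted carrier: vectors, functionals, elements of an algebra. -/
abbrev Car (X : Type*) [NormedAddCommGroup X] [NormedSpace ℝ X] (𝔸 : Type*) : Type _ :=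
  X ⊕ (StrongDual ℝ X ⊕ 𝔸)

/-- The inductively defined closure. -/
inductive Cl {X : Type*} [NormedAddCommGroup X] [NormedSpace ℝ X] {𝔸 : Type*} [CommRing 𝔸]
    [Algebra ℝ 𝔸] (D sp : X → StrongDual ℝ X) (r : StrongDual ℝ X → 𝔸) (k : 𝔸 → X)
    (S : Set (Car X 𝔸)) : Car X 𝔸 → Prop
  | base (w : Car X 𝔸) : w ∈ S → Cl D sp r k S w
  | zero1 : Cl D sp r k S (Sum.inl 0)
  | add1 (a b : X) : Cl D sp r k S (Sum.inl a) → Cl D sp r k S (Sum.inl b) →
      Cl D sp r k S (Sum.inl (a + b))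
  | smul1 (q : ℚ) (a : X) : Cl D sp r k S (Sum.inl a) → Cl D sp r k S (Sum.inl ((q : ℝ) • a))
  | zero2 : Cl D sp r k S (Sum.inr (Sum.inl 0))
  | add2 (a b : StrongDual ℝ X) : Cl D sp r k S (Sum.inr (Sum.inl a)) →
      Cl D sp r k S (Sum.inr (Sum.inl b)) → Cl D sp r k S (Sum.inr (Sum.inl (a + b)))
  | smul2 (q : ℚ) (a : StrongDual ℝ X) : Cl D sp r k S (Sum.inr (Sum.inl a)) →
      Cl D sp r k S (Sum.inr (Sum.inl ((q : ℝ) • a)))
  | one3 : Cl D sp r k S (Sum.inr (Sum.inr 1))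
  | zero3 : Cl D sp r k S (Sum.inr (Sum.inr 0))
  | add3 (a b : 𝔸) : Cl D sp r k S (Sum.inr (Sum.inr a)) →
      Cl D sp r k S (Sum.inr (Sum.inr b)) → Cl D sp r k S (Sum.inr (Sum.inr (a + b)))
  | mul3 (a b : 𝔸) : Cl D sp r k S (Sum.inr (Sum.inr a)) →
      Cl D sp r k S (Sum.inr (Sum.inr b)) → Cl D sp r k S (Sum.inr (Sum.inr (a * b)))
  | smul3 (q : ℚ) (a : 𝔸) : Cl D sp r k S (Sum.inr (Sum.inr a)) →
      Cl D sp r k S (Sum.inr (Sum.inr ((q : ℝ) • a)))
  | mapD (a : X) : Cl D sp r k S (Sum.inl a) → Cl D sp r k S (Sum.inr (Sum.inl (D a)))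
  | mapSp (a : X) : Cl D sp r k S (Sum.inl a) → Cl D sp r k S (Sum.inr (Sum.inl (sp a)))
  | mapR (b : StrongDual ℝ X) : Cl D sp r k S (Sum.inr (Sum.inl b)) →
      Cl D sp r k S (Sum.inr (Sum.inr (r b)))
  | mapK (d : 𝔸) : Cl D sp r k S (Sum.inr (Sum.inr d)) → Cl D sp r k S (Sum.inl (k d))

end Pool.Agent.SN
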