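import Pool.Agent.Helper74.SN.Cl

/-! SN-8: the closure operator. -/

set_option autoImplicit false

namespace Pool.Agent.SN

open Set Filter Topology

section ClProps

variable {X : Type*} [NormedAddCommGroup X] [NormedSpace ℝ X] {𝔸 : Type*} [CommRing 𝔸]
    [Algebra ℝ 𝔸] (D sp : X → StrongDual ℝ X) (r : StrongDual ℝ X → 𝔸) (k : 𝔸 → X)

theorem Cl_mono (S T : Set (Car X 𝔸)) (h : S ⊆ T) (w : Car X 𝔸) (hw : Cl D sp r k S w) :
    Cl D sp r k T w := by
  induction hw with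
  | base w hw => exact Cl.base w (h hw)
  | zero1 => exact Cl.zero1
  | add1 a b _ _ iha ihb => exact Cl.add1 a b iha ihb
  | smul1 q a _ ih => exact Cl.smul1 q a ih
  | zero2 => exact Cl.zero2
  | add2 a b _ _ iha ihb => exact Cl.add2 a b iha ihb
  | smul2 q a _ ih => exact Cl.smul2 q a ih
  | one3 => exact Cl.one3
  | zero3 => exact Cl.zero3
  | add3 a b _ _ iha ihb => exact Cl.add3 a b iha ihb
  | mul3 a b _ _ iha ihb => exact Cl.mul3 a b iha ihb
  | smul3 q a _ ih => exact Cl.smul3 q a ih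
  | mapD a _ ih => exact Cl.mapD a ih
  | mapSp a _ ih => exact Cl.mapSp a ih
  | mapR b _ ih => exact Cl.mapR b ih
  | mapK d _ ih => exact Cl.mapK d ih

theorem Cl_finitary_two (S : Set (Car X 𝔸)) (u v w : Car X 𝔸)
    (hu : ∃ F : Set (Car X 𝔸), F.Finite ∧ F ⊆ S ∧ Cl D sp r k F u)
    (hv : ∃ F : Set (Car X 𝔸), F.Finite ∧ F ⊆ S ∧ Cl D sp r k F v)
    (h : ∀ F : Set (Car X 𝔸), Cl D sp r k F u → Cl D sp r k F v → Cl D sp r k F w) :
    ∃ F : Set (Car X 𝔸), F.Finite ∧ F ⊆ S ∧ Cl D sp r k F w := by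
  obtain ⟨F, hF, hFS, hFu⟩ := hu
  obtain ⟨G, hG, hGS, hGv⟩ := hv
  exact ⟨F ∪ G, hF.union hG, union_subset hFS hGS,
    h _ (Cl_mono D sp r k F _ subset_union_left u hFu)
      (Cl_mono D sp r k G _ subset_union_right v hGv)⟩

theorem Cl_finitary_one (S : Set (Car X 𝔸)) (u w : Car X 𝔸)
    (hu : ∃ F : Set (Car X 𝔸), F.Finite ∧ F ⊆ S ∧ Cl D sp r k F u)
    (h : ∀ F : Set (Car X 𝔸), Cl D sp r k F u → Cl D sp r k F w) :
    ∃ F : Set (Car X 𝔸), F.Finite ∧ F ⊆ S ∧ Cl D sp r k F w := by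
  obtain ⟨F, hF, hFS, hFu⟩ := hu
  exact ⟨F, hF, hFS, h _ hFu⟩

theorem Cl_finitary (S : Set (Car X 𝔸)) (w : Car X 𝔸) (hw : Cl D sp r k S w) :
    ∃ F : Set (Car X 𝔸), F.Finite ∧ F ⊆ S ∧ Cl D sp r k F w := by
  induction hw with
  | base w hw =>
    exact ⟨{w}, finite_singleton w, singleton_subset_iff.2 hw, Cl.base w (mem_singleton w)⟩
  | zero1 => exact ⟨∅, finite_empty, empty_subset _, Cl.zero1⟩
  | add1 a b _ _ iha ihb =>
    exact Cl_finitary_two D sp r k S _ _ _ iha ihb fun F hu hv => Cl.add1 a b hu hv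
  | smul1 q a _ ih => exact Cl_finitary_one D sp r k S _ _ ih fun F hu => Cl.smul1 q a hu
  | zero2 => exact ⟨∅, finite_empty, empty_subset _, Cl.zero2⟩
  | add2 a b _ _ iha ihb =>
    exact Cl_finitary_two D sp r k S _ _ _ iha ihb fun F hu hv => Cl.add2 a b hu hv
  | smul2 q a _ ih => exact Cl_finitary_one D sp r k S _ _ ih fun F hu => Cl.smul2 q a hu
  | one3 => exact ⟨∅, finite_empty, empty_subset _, Cl.one3⟩
  | zero3 => exact ⟨∅, finite_empty, empty_subset _, Cl.zero3⟩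
  | add3 a b _ _ iha ihb =>
    exact Cl_finitary_two D sp r k S _ _ _ iha ihb fun F hu hv => Cl.add3 a b hu hv
  | mul3 a b _ _ iha ihb =>
    exact Cl_finitary_two D sp r k S _ _ _ iha ihb fun F hu hv => Cl.mul3 a b hu hv
  | smul3 q a _ ih => exact Cl_finitary_one D sp r k S _ _ ih fun F hu => Cl.smul3 q a hu
  | mapD a _ ih => exact Cl_finitary_one D sp r k S _ _ ih fun F hu => Cl.mapD a hu
  | mapSp a _ ih => exact Cl_finitary_one D sp r k S _ _ ih fun F hu => Cl.mapSp a hu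
  | mapR b _ ih => exact Cl_finitary_one D sp r k S _ _ ih fun F hu => Cl.mapR b hu
  | mapK d _ ih => exact Cl_finitary_one D sp r k S _ _ ih fun F hu => Cl.mapK d hu

/-- Addition on the carrier (zero vector when the sorts differ). -/
def carAdd : Car X 𝔸 → Car X 𝔸 → Car X 𝔸
  | Sum.inl a, Sum.inl b => Sum.inl (a + b)
  | Sum.inr (Sum.inl a), Sum.inr (Sum.inl b) => Sum.inr (Sum.inl (a + b))
  | Sum.inr (Sum.inr a), Sum.inr (Sum.inr b) => Sum.inr (Sum.inr (a + b))
  | _, _ => Sum.inl 0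

/-- Multiplication on the third sort. -/
def carMul : Car X 𝔸 → Car X 𝔸 → Car X 𝔸
  | Sum.inr (Sum.inr a), Sum.inr (Sum.inr b) => Sum.inr (Sum.inr (a * b))
  | _, _ => Sum.inl 0

/-- Rational scalar multiplication. -/
def carSmul (q : ℚ) : Car X 𝔸 → Car X 𝔸
  | Sum.inl a => Sum.inl ((q : ℝ) • a)
  | Sum.inr (Sum.inl a) => Sum.inr (Sum.inl ((q : ℝ) • a))
  | Sum.inr (Sum.inr a) => Sum.inr (Sum.inr ((q : ℝ) • a))

/-- The maps `D`, `r`, `k` on the carrier. -/
def carD : Car X 𝔸 → Car X 𝔸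
  | Sum.inl a => Sum.inr (Sum.inl (D a))
  | Sum.inr (Sum.inl b) => Sum.inr (Sum.inr (r b))
  | Sum.inr (Sum.inr d) => Sum.inl (k d)

/-- The map `sp` on the carrier. -/
def carSp : Car X 𝔸 → Car X 𝔸
  | Sum.inl a => Sum.inr (Sum.inl (sp a))
  | w => w

/-- One step of the closure. -/
def carStep (A : Set (Car X 𝔸)) : Set (Car X 𝔸) :=
  A ∪ ({Sum.inl 0, Sum.inr (Sum.inl 0), Sum.inr (Sum.inr 1), Sum.inr (Sum.inr 0)} ∪
    (image2 carAdd A A ∪ (image2 carMul A A ∪ ((⋃ q : ℚ, carSmul q '' A) ∪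
      (carD D r k '' A ∪ carSp sp '' A)))))

theorem carStep_countable (A : Set (Car X 𝔸)) (hA : A.Countable) :
    (carStep D sp r k A).Countable := by
  unfold carStep
  refine hA.union (Countable.union ?_ (Countable.union ?_ (Countable.union ?_
    (Countable.union ?_ (Countable.union ?_ ?_)))))
  · exact (Set.toFinite _).countable
  · exact hA.image2 hA _
  · exact hA.image2 hA _
  · exact countable_iUnion fun q => hA.image _
  · exact hA.image _
  · exact hA.image _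

/-- The levels of the closure. -/
def carLevel (S : Set (Car X 𝔸)) : ℕ → Set (Car X 𝔸)
  | 0 => S
  | n + 1 => carStep D sp r k (carLevel S n)

theorem carLevel_countable (S : Set (Car X 𝔸)) (hS : S.Countable) (n : ℕ) :
    (carLevel D sp r k S n).Countable := by
  induction n with
  | zero => exact hS
  | succ n ih => exact carStep_countable D sp r k _ ih

theorem carLevel_mono (S : Set (Car X 𝔸)) : Monotone (carLevel D sp r k S) := by
  refine monotone_nat_of_le_succ fun n => ?_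
  exact subset_union_left

theorem Cl_subset_level (S : Set (Car X 𝔸)) (w : Car X 𝔸) (hw : Cl D sp r k S w) :
    ∃ n, w ∈ carLevel D sp r k S n := by
  have two : ∀ (f : Car X 𝔸 → Car X 𝔸 → Car X 𝔸) (u v : Car X 𝔸),
      (∀ A : Set (Car X 𝔸), image2 f A A ⊆ carStep D sp r k A) →
      (∃ n, u ∈ carLevel D sp r k S n) → (∃ n, v ∈ carLevel D sp r k S n) →
      ∃ n, f u v ∈ carLevel D sp r k S n := by
    rintro f u v hf ⟨n, hn⟩ ⟨m, hm⟩
    refine ⟨max n m + 1, hf _ ?_⟩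
    exact mem_image2_of_mem (carLevel_mono D sp r k S (le_max_left n m) hn)
      (carLevel_mono D sp r k S (le_max_right n m) hm)
  have one : ∀ (f : Car X 𝔸 → Car X 𝔸) (u : Car X 𝔸),
      (∀ A : Set (Car X 𝔸), f '' A ⊆ carStep D sp r k A) →
      (∃ n, u ∈ carLevel D sp r k S n) → ∃ n, f u ∈ carLevel D sp r k S n := by
    rintro f u hf ⟨n, hn⟩
    exact ⟨n + 1, hf _ (mem_image_of_mem f hn)⟩
  have hadd : ∀ A : Set (Car X 𝔸), image2 carAdd A A ⊆ carStep D sp r k A := fun A w hw =>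
    Or.inr (Or.inr (Or.inl hw))
  have hmul : ∀ A : Set (Car X 𝔸), image2 carMul A A ⊆ carStep D sp r k A := fun A w hw =>
    Or.inr (Or.inr (Or.inr (Or.inl hw)))
  have hsmul : ∀ (q : ℚ) (A : Set (Car X 𝔸)), carSmul q '' A ⊆ carStep D sp r k A :=
    fun q A w hw => Or.inr (Or.inr (Or.inr (Or.inr (Or.inl (mem_iUnion.2 ⟨q, hw⟩)))))
  have hD : ∀ A : Set (Car X 𝔸), carD D r k '' A ⊆ carStep D sp r k A := fun A w hw =>
    Or.inr (Or.inr (Or.inr (Or.inr (Or.inr (Or.inl hw)))))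
  have hSp : ∀ A : Set (Car X 𝔸), carSp sp '' A ⊆ carStep D sp r k A := fun A w hw =>
    Or.inr (Or.inr (Or.inr (Or.inr (Or.inr (Or.inr hw)))))
  induction hw with
  | base w hw => exact ⟨0, hw⟩
  | zero1 => exact ⟨1, Or.inr (Or.inl (by simp))⟩
  | add1 a b _ _ iha ihb => exact two carAdd _ _ hadd iha ihb
  | smul1 q a _ ih => exact one (carSmul q) _ (hsmul q) ih
  | zero2 => exact ⟨1, Or.inr (Or.inl (by simp))⟩
  | add2 a b _ _ iha ihb => exact two carAdd _ _ hadd iha ihb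
  | smul2 q a _ ih => exact one (carSmul q) _ (hsmul q) ih
  | one3 => exact ⟨1, Or.inr (Or.inl (by simp))⟩
  | zero3 => exact ⟨1, Or.inr (Or.inl (by simp))⟩
  | add3 a b _ _ iha ihb => exact two carAdd _ _ hadd iha ihb
  | mul3 a b _ _ iha ihb => exact two carMul _ _ hmul iha ihb
  | smul3 q a _ ih => exact one (carSmul q) _ (hsmul q) ih
  | mapD a _ ih => exact one (carD D r k) _ hD ih
  | mapSp a _ ih => exact one (carSp sp) _ hSp ih
  | mapR b _ ih => exact one (carD D r k) _ hD ih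
  | mapK d _ ih => exact one (carD D r k) _ hD ih

theorem Cl_countable (S : Set (Car X 𝔸)) (hS : S.Countable) :
    {w : Car X 𝔸 | Cl D sp r k S w}.Countable := by
  refine (countable_iUnion fun n => carLevel_countable D sp r k S hS n).mono ?_
  intro w hw
  exact mem_iUnion.2 (Cl_subset_level D sp r k S w hw)

end ClProps

end Pool.Agent.SN
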