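import Pool.Agent.Helper74.SN.Defs

/-! Composition of a scalar function vanishing near the origin with a norm-like function. -/

set_option autoImplicit false

namespace Pool.Agent.SN

open Set Filter Topology

theorem contDiff_phi_comp {X : Type*} [NormedAddCommGroup X] [NormedSpace ℝ X] (φ : ℝ → ℝ)
    (hφ : ContDiff ℝ CInf φ) (δ : ℝ) (hδ : 0 < δ) (h0 : ∀ t ≤ δ, φ t = 0) (N : X → ℝ)
    (hN : Continuous N) (hs : ∀ x, N x ≠ 0 → ContDiffAt ℝ CInf N x) :
    ContDiff ℝ CInf (fun x => φ (N x)) := by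
  rw [contDiff_iff_contDiffAt]
  intro x
  by_cases hx : N x = 0
  · have h1 : ∀ᶠ y in 𝓝 x, N y < δ := by
      have := hN.tendsto x
      rw [hx] at this
      exact this.eventually (gt_mem_nhds hδ)
    have h2 : (fun y => φ (N y)) =ᶠ[𝓝 x] fun _ => (0 : ℝ) :=
      h1.mono fun y hy => h0 _ hy.le
    exact contDiffAt_const.congr_of_eventuallyEq h2
  · exact hφ.contDiffAt.comp x (hs x hx)

theorem convexOn_phi_comp {X : Type*} [NormedAddCommGroup X] [NormedSpace ℝ X] (φ : ℝ → ℝ)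
    (hφ : ConvexOn ℝ univ φ) (hm : Monotone φ) (N : X → ℝ) (hN : ConvexOn ℝ univ N) :
    ConvexOn ℝ univ (fun x => φ (N x)) := by
  refine ⟨convex_univ, fun x _ y _ a b ha hb hab => ?_⟩
  calc φ (N (a • x + b • y)) ≤ φ (a • N x + b • N y) :=
        hm (hN.2 (mem_univ x) (mem_univ y) ha hb hab)
    _ ≤ a • φ (N x) + b • φ (N y) := hφ.2 (mem_univ _) (mem_univ _) ha hb hab

/-- an equivalent norm is Lipschitz, hence continuous -/
theorem IsEquivNorm.continuous {X : Type*} [NormedAddCommGroup X] [NormedSpace ℝ X]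
    {p : Seminorm ℝ X} (hp : IsEquivNorm p) : Continuous (fun x => p x) := by
  obtain ⟨c, hc, C, hC⟩ := hp
  have h : LipschitzWith (Real.toNNReal |C|) (fun x => p x) := by
    apply LipschitzWith.of_dist_le_mul
    intro x y
    rw [Real.dist_eq, dist_eq_norm, Real.coe_toNNReal _ (abs_nonneg C)]
    have h1 : |p x - p y| ≤ p (x - y) := abs_sub_map_le_sub p x y
    calc |p x - p y| ≤ p (x - y) := h1
      _ ≤ C * ‖x - y‖ := (hC _).2
      _ ≤ |C| * ‖x - y‖ := by gcongr; exact le_abs_self C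
  exact h.continuous

theorem IsEquivNorm.ne_zero {X : Type*} [NormedAddCommGroup X] [NormedSpace ℝ X]
    {p : Seminorm ℝ X} (hp : IsEquivNorm p) {x : X} (hx : x ≠ 0) : p x ≠ 0 := by
  obtain ⟨c, hc, C, hC⟩ := hp
  have h1 := (hC x).1
  have h2 : 0 < ‖x‖ := norm_pos_iff.mpr hx
  have : 0 < p x := lt_of_lt_of_le (by positivity) h1
  exact this.ne'

theorem IsSmoothNorm.contDiffAt {X : Type*} [NormedAddCommGroup X] [NormedSpace ℝ X]
    {p : Seminorm ℝ X} (hp : IsSmoothNorm p) {x : X} (hx : x ≠ 0) :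
    ContDiffAt ℝ CInf (fun x => p x) x :=
  ContDiffOn.contDiffAt hp (isOpen_ne.mem_nhds hx)

end Pool.Agent.SN
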