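import Pool.Agent.Helper74.SN.Defs

/-! Cuts of a well-ordered family of projections: definitions. -/

set_option autoImplicit false

namespace Pool.Agent.SN

open Set Filter Topology

/-- the two cuts at `a` -/
def cut {I : Type*} [Preorder I] (a : I) (b : Bool) : Set I := cond b (Iic a) (Iio a)

section

variable {X : Type*} [NormedAddCommGroup X] [NormedSpace ℝ X] {W : Type*} {g : Seminorm ℝ X}
  (PS : ProjSys X W g) {I : Type*} [Preorder I] (s : I → W)

/-- the value of the cut `L` at `x` -/
noncomputable def cutv (ν : Seminorm ℝ X) (ε : ℝ) (x : X) (L : Set I) : ℝ :=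
  g (PS.P (s '' L) x) + ε * ν (PS.P (range s) x - PS.P (s '' L) x)

/-- the size of the block `a` at `x` -/
noncomputable def blk (ν : Seminorm ℝ X) (x : X) (a : I) : ℝ :=
  ν (PS.P (s '' Iic a) x - PS.P (s '' Iio a) x)

end

theorem isLowerSet_cut {I : Type*} [Preorder I] (a : I) (b : Bool) : IsLowerSet (cut a b) := by
  cases b
  · exact isLowerSet_Iio a
  · exact isLowerSet_Iic a

theorem Iio_subset_cut {I : Type*} [Preorder I] (a : I) (b : Bool) : Iio a ⊆ cut a b := by
  cases b
  · exact subset_rfl
  · exact Iio_subset_Iic_self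

theorem cut_subset_Iic {I : Type*} [Preorder I] (a : I) (b : Bool) : cut a b ⊆ Iic a := by
  cases b
  · exact Iio_subset_Iic_self
  · exact subset_rfl

end Pool.Agent.SN
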