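import Pool.Agent.Helper74.SN.Cuts
import Pool.Agent.Helper74.SN.Comp

/-! SN-5d: only finitely many indices matter. -/

set_option autoImplicit false

namespace Pool.Agent.SN

open Set Filter Topology

section Step

variable {X : Type*} [NormedAddCommGroup X] [NormedSpace ℝ X] {W : Type*} {g : Seminorm ℝ X}
  (PS : ProjSys X W g) {I : Type*} [LinearOrder I] [WellFoundedLT I] (s : I → W)

theorem cutfin_blk_nonneg (ν : Seminorm ℝ X) (x : X) (a : I) : 0 ≤ blk PS s ν x a :=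
  apply_nonneg ν _

/-- strict inequality at cuts with non-zero block -/
theorem cutfin_i (ν : Seminorm ℝ X) (x : X)
    (ε κ : ℝ) (hε : 0 < ε) (v : I × ℕ × Bool → ℝ)
    (hlow : ∀ a j b, cutv PS s ν ε x (cut a b) + ε * (1 + (1 / 2 : ℝ) ^ j) * blk PS s ν x a
      - κ * (1 / 4 : ℝ) ^ j ≤ v (a, j, b))
    (hle : ∀ i, v i ≤ 1) (a : I) (b : Bool) (hb : 0 < blk PS s ν x a) :
    cutv PS s ν ε x (cut a b) + ε * blk PS s ν x a < 1 := by
  set B := blk PS s ν x a with hB
  have h1 : Tendsto (fun j : ℕ => κ * (1 / 2 : ℝ) ^ j) atTop (𝓝 (κ * 0)) :=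
    (tendsto_pow_atTop_nhds_zero_of_lt_one (by norm_num) (by norm_num)).const_mul κ
  rw [mul_zero] at h1
  have h2 : ∀ᶠ j : ℕ in atTop, κ * (1 / 2 : ℝ) ^ j < ε * B :=
    h1.eventually (gt_mem_nhds (mul_pos hε hb))
  obtain ⟨j, hj⟩ := h2.exists
  have h3 := (hlow a j b).trans (hle _)
  have h4 : (1 / 4 : ℝ) ^ j = (1 / 2 : ℝ) ^ j * (1 / 2 : ℝ) ^ j := by
    rw [← mul_pow]
    norm_num
  have h5 : 0 < (1 / 2 : ℝ) ^ j := by positivity
  rw [h4] at h3
  nlinarith [mul_lt_mul_of_pos_right hj h5]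

/-- every cut has value less than one -/
theorem cutfin_ii (ν : Seminorm ℝ X) (hν : IsEquivNorm ν) (hg : IsEquivNorm g) (x : X)
    (ε κ : ℝ) (hε : 0 < ε) (v : I × ℕ × Bool → ℝ)
    (hlow : ∀ a j b, cutv PS s ν ε x (cut a b) + ε * (1 + (1 / 2 : ℝ) ^ j) * blk PS s ν x a
      - κ * (1 / 4 : ℝ) ^ j ≤ v (a, j, b))
    (hle : ∀ i, v i ≤ 1) (hgx : g (PS.P (range s) x) < 1) (L : Set I) (hL : IsLowerSet L) :
    cutv PS s ν ε x L < 1 := by
  by_cases hne : PS.P ∅ x = PS.P (range s) x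
  · have h1 : PS.P (s '' L) x = PS.P (range s) x := by
      rw [← PS.mul_left (s '' L) (range s) (image_subset_range s L) x, ← hne,
        PS.mul_right ∅ (s '' L) (empty_subset _) x]
    unfold cutv
    rw [h1, sub_self, map_zero, mul_zero, add_zero]
    exact hgx
  · obtain ⟨a, b, hab, hcut⟩ := exists_cut_ge PS s ν hν hg x ε hε hne L hL
    have hpos : 0 < blk PS s ν x a :=
      lt_of_le_of_ne (cutfin_blk_nonneg PS s ν x a) (Ne.symm (hν.ne_zero (sub_ne_zero.mpr hab)))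
    have h2 := cutfin_i PS s ν x ε κ hε v hlow hle a b hpos
    have h3 : 0 < ε * blk PS s ν x a := mul_pos hε hpos
    linarith

/-- only finitely many indices matter at a point of the unit set -/
theorem cuts_finite (ν : Seminorm ℝ X) (hν : IsEquivNorm ν) (hg : IsEquivNorm g) (x : X)
    (ε κ : ℝ) (hε : 0 < ε) (v : I × ℕ × Bool → ℝ) (η : ℕ → ℝ)
    (hlow : ∀ a j b, cutv PS s ν ε x (cut a b) + ε * (1 + (1 / 2 : ℝ) ^ j) * blk PS s ν x a
      - κ * (1 / 4 : ℝ) ^ j ≤ v (a, j, b))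
    (hupp : ∀ a j b, v (a, j, b) + η j ≤
      cutv PS s ν ε x (cut a b) + ε * (1 + (1 / 2 : ℝ) ^ j) * blk PS s ν x a)
    (hle : ∀ i, v i ≤ 1) (hgx : g (PS.P (range s) x) < 1) :
    ∃ F : Finset (I × ℕ × Bool), ∃ γ > (0 : ℝ), ∀ i, i ∉ F → v i + η i.2.1 ≤ 1 - γ := by
  classical
  have h_ii : ∀ L : Set I, IsLowerSet L → cutv PS s ν ε x L < 1 := fun L hL =>
    cutfin_ii PS s ν hν hg x ε κ hε v hlow hle hgx L hL
  have h_iii : ∀ a b, cutv PS s ν ε x (cut a b) + ε * blk PS s ν x a < 1 := by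
    intro a b
    rcases (cutfin_blk_nonneg PS s ν x a).eq_or_lt with h0 | h0
    · rw [← h0, mul_zero, add_zero]
      exact h_ii _ (isLowerSet_cut a b)
    · exact cutfin_i PS s ν x ε κ hε v hlow hle a b h0
  by_contra hcon
  push Not at hcon
  set B : ℕ → Set (I × ℕ × Bool) := fun k => {i | 1 - 1 / ((k : ℝ) + 1) < v i + η i.2.1} with hB
  have hBinf : ∀ k, (B k).Infinite := by
    intro k hfin
    obtain ⟨i, hi, hi2⟩ := hcon hfin.toFinset (1 / ((k : ℝ) + 1)) (by positivity)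
    exact hi (hfin.mem_toFinset.mpr hi2)
  have hBanti : ∀ k l, k ≤ l → B l ⊆ B k := by
    intro k l hkl i hi
    have h1 : 1 - 1 / ((l : ℝ) + 1) < v i + η i.2.1 := hi
    have h2 : 1 / ((l : ℝ) + 1) ≤ 1 / ((k : ℝ) + 1) := by
      apply one_div_le_one_div_of_le (by positivity)
      have : (k : ℝ) ≤ l := Nat.cast_le.mpr hkl
      linarith
    show 1 - 1 / ((k : ℝ) + 1) < v i + η i.2.1
    linarith
  obtain ⟨i₀, _⟩ := (hBinf 0).nonempty
  set Fl : Filter (I × ℕ × Bool) := ⨅ k : ℕ, cofinite ⊓ 𝓟 (B k) with hFl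
  have : Nonempty (I × ℕ × Bool) := ⟨i₀⟩
  have hne : NeBot Fl := by
    apply iInf_neBot_of_directed
    · intro k l
      refine ⟨max k l, ?_, ?_⟩
      · exact inf_le_inf_left _ (principal_mono.mpr (hBanti _ _ (le_max_left k l)))
      · exact inf_le_inf_left _ (principal_mono.mpr (hBanti _ _ (le_max_right k l)))
    · intro k
      exact cofinite_inf_principal_neBot_iff.mpr (hBinf k)
  set U : Ultrafilter (I × ℕ × Bool) := Ultrafilter.of Fl with hUdef
  have hU : (U : Filter (I × ℕ × Bool)) ≤ Fl := Ultrafilter.of_le Fl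
  have hUcof : (U : Filter (I × ℕ × Bool)) ≤ cofinite :=
    hU.trans ((iInf_le _ 0).trans inf_le_left)
  have hUB : ∀ k : ℕ, ∀ᶠ i in (U : Filter (I × ℕ × Bool)), 1 - 1 / ((k : ℝ) + 1) < v i + η i.2.1 := by
    intro k
    have h1 : Fl ≤ 𝓟 (B k) :=
      (iInf_le (fun k : ℕ => cofinite ⊓ 𝓟 (B k)) k).trans inf_le_right
    exact (hU.trans h1) (mem_principal_self (B k))
  set L : Set I := {c | ∀ᶠ i in (U : Filter (I × ℕ × Bool)), c < i.1} with hLdef
  have hL : IsLowerSet L := by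
    intro c c' hcc hc
    exact Filter.Eventually.mono hc fun i hi => lt_of_le_of_lt hcc hi
  have hem : (∀ᶠ i in (U : Filter (I × ℕ × Bool)), i.1 ∈ L) ∨
      (∀ᶠ i in (U : Filter (I × ℕ × Bool)), ¬ i.1 ∈ L) := by
    have := U.mem_or_compl_mem {i | i.1 ∈ L}
    exact this
  rcases hem with hA | hA
  · -- Case A
    have hev : ∀ δ : ℝ, 0 < δ → ∀ᶠ i in (U : Filter (I × ℕ × Bool)), ∀ T : Set I,
        Iio i.1 ⊆ T → T ⊆ Iic i.1 → ‖PS.P (s '' T) x - PS.P (s '' L) x‖ ≤ δ := by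
      intro δ hδ
      obtain ⟨F, hFfin, hFL, hF⟩ := PS.approx (s '' L) x δ hδ
      have h1 : ∀ w ∈ F, ∀ᶠ i in (U : Filter (I × ℕ × Bool)), w ∈ s '' Iio i.1 := by
        intro w hw
        obtain ⟨c, hc, rfl⟩ := hFL hw
        exact Filter.Eventually.mono hc fun i hi => mem_image_of_mem s hi
      have h2 : ∀ᶠ i in (U : Filter (I × ℕ × Bool)), ∀ w ∈ F, w ∈ s '' Iio i.1 :=
        (eventually_all_finite hFfin).mpr h1
      filter_upwards [h2, hA] with i hi hiL T hT1 hT2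
      apply hF
      · exact fun w hw => image_mono hT1 (hi w hw)
      · exact image_mono (hT2.trans fun c hc => hL hc hiL)
    have htend : ∀ T : I × ℕ × Bool → Set I, (∀ i, Iio i.1 ⊆ T i) → (∀ i, T i ⊆ Iic i.1) →
        Tendsto (fun i => PS.P (s '' T i) x) U (𝓝 (PS.P (s '' L) x)) := by
      intro T hT1 hT2
      rw [Metric.tendsto_nhds]
      intro δ hδ
      filter_upwards [hev (δ / 2) (half_pos hδ)] with i hi
      rw [dist_eq_norm]
      exact lt_of_le_of_lt (hi (T i) (hT1 i) (hT2 i)) (half_lt_self hδ)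
    have ht1 := htend (fun i => cut i.1 i.2.2) (fun i => Iio_subset_cut _ _)
      (fun i => cut_subset_Iic _ _)
    have ht2 := htend (fun i => Iic i.1) (fun i => Iio_subset_Iic_self) (fun i => subset_rfl)
    have ht3 := htend (fun i => Iio i.1) (fun i => subset_rfl) (fun i => Iio_subset_Iic_self)
    have hcut : Tendsto (fun i : I × ℕ × Bool => cutv PS s ν ε x (cut i.1 i.2.2)) U
        (𝓝 (cutv PS s ν ε x L)) := by
      unfold cutv
      refine ((hg.continuous.tendsto _).comp ht1).add (Tendsto.const_mul ε ?_)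
      exact (hν.continuous.tendsto _).comp (tendsto_const_nhds.sub ht1)
    have hblk : Tendsto (fun i : I × ℕ × Bool => blk PS s ν x i.1) U (𝓝 0) := by
      have h3 := (hν.continuous.tendsto _).comp (ht2.sub ht3)
      rw [sub_self, map_zero] at h3
      exact h3
    have hsum : Tendsto (fun i : I × ℕ × Bool => cutv PS s ν ε x (cut i.1 i.2.2) +
        2 * ε * blk PS s ν x i.1) U (𝓝 (cutv PS s ν ε x L)) := by
      have := hcut.add (hblk.const_mul (2 * ε))
      rwa [mul_zero, add_zero] at this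
    have hk : ∀ k : ℕ, 1 - 1 / ((k : ℝ) + 1) ≤ cutv PS s ν ε x L := by
      intro k
      refine ge_of_tendsto hsum ?_
      filter_upwards [hUB k] with i hi
      have h3 := hupp i.1 i.2.1 i.2.2
      have h4 : (1 / 2 : ℝ) ^ i.2.1 ≤ 1 := pow_le_one₀ (by norm_num) (by norm_num)
      have h5 := cutfin_blk_nonneg PS s ν x i.1
      have h6 : ε * (1 + (1 / 2 : ℝ) ^ i.2.1) * blk PS s ν x i.1 ≤ 2 * ε * blk PS s ν x i.1 := by
        apply mul_le_mul_of_nonneg_right _ h5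
        nlinarith
      have h7 : (i.1, i.2.1, i.2.2) = i := rfl
      rw [h7] at h3
      linarith
    have hlim : Tendsto (fun k : ℕ => 1 - 1 / ((k : ℝ) + 1)) atTop (𝓝 (1 - 0)) :=
      tendsto_const_nhds.sub tendsto_one_div_add_atTop_nhds_zero_nat
    rw [sub_zero] at hlim
    have h8 : 1 ≤ cutv PS s ν ε x L := le_of_tendsto' hlim hk
    exact absurd (h_ii L hL) (not_lt.mpr h8)
  · -- Case B
    have hneL : (Lᶜ : Set I).Nonempty := by
      obtain ⟨i, hi⟩ := hA.exists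
      exact ⟨i.1, hi⟩
    set m : I := (wellFounded_lt (α := I)).min Lᶜ hneL with hm
    have hmL : m ∉ L := (wellFounded_lt (α := I)).min_mem Lᶜ hneL
    have hmin : ∀ c ∉ L, m ≤ c := fun c hc =>
      not_lt.mp ((wellFounded_lt (α := I)).not_lt_min Lᶜ hc)
    have h1 : ∀ᶠ i in (U : Filter (I × ℕ × Bool)), ¬ m < i.1 :=
      Ultrafilter.eventually_not.mpr hmL
    have h2 : ∀ᶠ i in (U : Filter (I × ℕ × Bool)), i.1 = m := by
      filter_upwards [h1, hA] with i hi1 hi2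
      exact le_antisymm (not_lt.mp hi1) (hmin _ hi2)
    have h3 : ∀ n : ℕ, ∀ᶠ i in (U : Filter (I × ℕ × Bool)), n < i.2.1 := by
      intro n
      have hfin : ({m} ×ˢ (Iic n ×ˢ (univ : Set Bool)) : Set (I × ℕ × Bool)).Finite :=
        (finite_singleton m).prod ((finite_Iic n).prod finite_univ)
      have h4 : ∀ᶠ i in (U : Filter (I × ℕ × Bool)), i ∉ ({m} ×ˢ (Iic n ×ˢ (univ : Set Bool)) :
          Set (I × ℕ × Bool)) := hUcof hfin.eventually_cofinite_notMem
      filter_upwards [h2, h4] with i hi1 hi2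
      by_contra hc
      apply hi2
      exact ⟨hi1, not_lt.mp hc, mem_univ _⟩
    have h4 : ∃ b : Bool, ∀ᶠ i in (U : Filter (I × ℕ × Bool)), i.2.2 = b := by
      rcases U.mem_or_compl_mem {i | i.2.2 = true} with h | h
      · exact ⟨true, h⟩
      · refine ⟨false, ?_⟩
        filter_upwards [h] with i hi
        have : ¬ i.2.2 = true := hi
        simpa using this
    obtain ⟨b, hb⟩ := h4
    set δ : ℝ := 1 - (cutv PS s ν ε x (cut m b) + ε * blk PS s ν x m) with hδ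
    have hδ0 : 0 < δ := by
      have := h_iii m b
      rw [hδ]
      linarith
    obtain ⟨k, hk⟩ := exists_nat_one_div_lt (half_pos hδ0)
    have h5 : Tendsto (fun n : ℕ => ε * blk PS s ν x m * (1 / 2 : ℝ) ^ n) atTop
        (𝓝 (ε * blk PS s ν x m * 0)) :=
      (tendsto_pow_atTop_nhds_zero_of_lt_one (by norm_num) (by norm_num)).const_mul _
    rw [mul_zero] at h5
    obtain ⟨n, hn⟩ := (h5.eventually (gt_mem_nhds (half_pos hδ0))).exists
    obtain ⟨i, hi1, hi2, hi3, hi4⟩ := (h2.and ((h3 n).and (hb.and (hUB k)))).exists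
    have h6 := hupp i.1 i.2.1 i.2.2
    have h7 : (i.1, i.2.1, i.2.2) = i := rfl
    rw [h7, hi1, hi3] at h6
    have h8 : (1 / 2 : ℝ) ^ i.2.1 ≤ (1 / 2 : ℝ) ^ n :=
      pow_le_pow_of_le_one (by norm_num) (by norm_num) hi2.le
    have h9 : 0 ≤ ε * blk PS s ν x m := mul_nonneg hε.le (cutfin_blk_nonneg PS s ν x m)
    have h10 := mul_le_mul_of_nonneg_left h8 h9
    have h11 : ε * (1 + (1 / 2 : ℝ) ^ i.2.1) * blk PS s ν x m =
        ε * blk PS s ν x m + ε * blk PS s ν x m * (1 / 2 : ℝ) ^ i.2.1 := by ring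
    rw [h11] at h6
    linarith

end Step

end Pool.Agent.SN
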