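import Pool.Agent.Helper74.SN.Defs

/-! SN-10b: support functionals. -/

set_option autoImplicit false

namespace Pool.Agent.SN

open Set Filter Topology

theorem exists_support {X : Type*} [NormedAddCommGroup X] [NormedSpace ℝ X]
    (g : Seminorm ℝ X) (hg : IsEquivNorm g) (a : X) :
    ∃ b : StrongDual ℝ X, b a = g a ∧ ∀ x, |b x| ≤ g x := by
  by_cases ha : a = 0
  · exact ⟨0, by simp [ha], fun x => by simp⟩
  · set f : X →ₗ.[ℝ] ℝ := LinearPMap.mkSpanSingleton a (g a) ha with hf
    have hfc : ∀ (c : ℝ) (h : c • a ∈ f.domain), f ⟨c • a, h⟩ = c * g a := by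
      intro c h
      exact LinearPMap.mkSpanSingleton'_apply a (g a) _ c h
    have hdom : ∀ x : f.domain, f x ≤ g x := by
      rintro ⟨x, hx⟩
      have hx' : x ∈ Submodule.span ℝ {a} := hx
      rw [Submodule.mem_span_singleton] at hx'
      obtain ⟨c, rfl⟩ := hx'
      rw [hfc]
      have h1 : g (c • a) = |c| * g a := by rw [map_smul_eq_mul, Real.norm_eq_abs]
      change c * g a ≤ g (c • a)
      rw [h1]
      exact mul_le_mul_of_nonneg_right (le_abs_self c) (apply_nonneg g a)
    obtain ⟨l, hl1, hl2⟩ := exists_extension_of_le_sublinear f (fun x => g x)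
      (fun c hc x => by rw [map_smul_eq_mul, Real.norm_of_nonneg hc.le])
      (fun x y => map_add_le_add g x y) hdom
    have habs : ∀ x, |l x| ≤ g x := by
      intro x
      rw [abs_le]
      constructor
      · have := hl2 (-x)
        rw [map_neg, map_neg_eq_map] at this
        linarith
      · exact hl2 x
    obtain ⟨c, hc, C, hC⟩ := hg
    refine ⟨l.mkContinuous C (fun x => by
      rw [Real.norm_eq_abs]; exact (habs x).trans (hC x).2), ?_, ?_⟩
    · have hmem : (1 : ℝ) • a ∈ f.domain := by
        change (1 : ℝ) • a ∈ Submodule.span ℝ {a}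
        rw [one_smul]; exact Submodule.mem_span_singleton_self a
      have h1 := hl1 ⟨(1 : ℝ) • a, hmem⟩
      rw [hfc] at h1
      change l ((1 : ℝ) • a) = 1 * g a at h1
      rw [one_smul, one_mul] at h1
      exact h1
    · intro x; exact habs x

end Pool.Agent.SN
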