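import Pool.Agent.Helper74.SN.Blocks
import Pool.Agent.Helper74.SN.Support
import Pool.Agent.Helper74.SN.Cut

/-! SN-5b: cuts. -/

set_option autoImplicit false

namespace Pool.Agent.SN

open Set Filter Topology

section Step

variable {X : Type*} [NormedAddCommGroup X] [NormedSpace ℝ X] {W : Type*} {g : Seminorm ℝ X}
  (PS : ProjSys X W g) {I : Type*} [LinearOrder I] [WellFoundedLT I] (s : I → W)

/-- if all blocks outside the initial segment vanish, the projection is the full one -/
theorem cuts_top (x : X) (L : Set I) (hL : IsLowerSet L)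
    (hQ : ∀ b, b ∉ L → PS.P (s '' Iic b) x = PS.P (s '' Iio b) x) :
    PS.P (range s) x = PS.P (s '' L) x := by
  rw [← image_univ]
  exact proj_eq_of_blocks PS s x L univ hL isLowerSet_univ (subset_univ _) (fun b _ hb => hQ b hb)

/-- the value at the top is beaten by some cut -/
theorem exists_cut_gt (ν : Seminorm ℝ X) (hν : IsEquivNorm ν) (hg : IsEquivNorm g) (x : X)
    (ε : ℝ) (hε : 0 < ε) (hne : PS.P ∅ x ≠ PS.P (range s) x) :
    ∃ (a : I) (b : Bool), PS.P (s '' Iic a) x ≠ PS.P (s '' Iio a) x ∧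
      g (PS.P (range s) x) ≤ cutv PS s ν ε x (cut a b) := by
  set P : X →L[ℝ] X := PS.P (range s) with hP
  set A : Set I := {a | PS.P (s '' Iic a) x ≠ PS.P (s '' Iio a) x} with hA
  have hAne : A.Nonempty := by
    by_contra h
    rw [not_nonempty_iff_eq_empty] at h
    apply hne
    have h1 : PS.P (range s) x = PS.P (s '' (∅ : Set I)) x := by
      apply cuts_top PS s x ∅ isLowerSet_empty
      intro b _
      by_contra hb
      have : b ∈ A := hb
      rw [h] at this
      exact this
    rw [image_empty] at h1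
    exact h1.symm
  by_cases hmax : ∃ m ∈ A, ∀ a ∈ A, a ≤ m
  · obtain ⟨m, hmA, hm⟩ := hmax
    refine ⟨m, true, hmA, ?_⟩
    have h1 : PS.P (range s) x = PS.P (s '' Iic m) x := by
      apply cuts_top PS s x (Iic m) (isLowerSet_Iic m)
      intro b hb
      by_contra hb'
      exact hb (hm b hb')
    have h2 : PS.P (s '' cut m true) x = P x := h1.symm
    unfold cutv
    rw [h2, ← hP, sub_self, map_zero, mul_zero, add_zero]
  · push Not at hmax
    set L : Set I := {c | ∃ a ∈ A, c < a} with hLdef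
    have hL : IsLowerSet L := by
      intro c d hdc hc
      obtain ⟨a, ha, hca⟩ := hc
      exact ⟨a, ha, lt_of_le_of_lt hdc hca⟩
    have hAL : ∀ a ∈ A, a ∈ L := by
      intro a ha
      obtain ⟨a', ha', h⟩ := hmax a ha
      exact ⟨a', ha', h⟩
    have h1 : P x = PS.P (s '' L) x := by
      apply cuts_top PS s x L hL
      intro b hb
      by_contra hb'
      exact hb (hAL b hb')
    obtain ⟨f, hfx, hf⟩ := exists_support g hg (P x)
    obtain ⟨c₀, hc₀, C, hC⟩ := hν
    have h2 : ∃ t ⊆ s '' L, t.Finite ∧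
        ∀ T : Set W, t ⊆ T → T ⊆ s '' L → ‖f.comp (PS.P T) - f.comp (PS.P (s '' L))‖ ≤ ε * c₀ := by
      obtain ⟨F, hF, hFM, hFT⟩ := PS.approx_dual (s '' L) f (ε * c₀) (by positivity)
      exact ⟨F, hFM, hF, hFT⟩
    rw [Set.exists_subset_image_finite_and] at h2
    obtain ⟨F0, hF0L, hF0, hT⟩ := h2
    obtain ⟨a, haA, haF⟩ : ∃ a ∈ A, F0 ⊆ Iio a := by
      rcases F0.eq_empty_or_nonempty with rfl | hne'
      · obtain ⟨a, ha⟩ := hAne
        exact ⟨a, ha, empty_subset _⟩
      · obtain ⟨c, hc, hmaxc⟩ := exists_max_image F0 id hF0 hne'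
        obtain ⟨a, ha, hca⟩ := hF0L hc
        exact ⟨a, ha, fun d hd => lt_of_le_of_lt (hmaxc d hd) hca⟩
    have haL : Iio a ⊆ L := fun c hc => ⟨a, haA, hc⟩
    have h3 := hT (s '' Iio a) (image_mono haF) (image_mono haL)
    refine ⟨a, false, haA, ?_⟩
    have hsub1 : s '' Iio a ⊆ range s := image_subset_range s _
    have hsub2 : s '' L ⊆ range s := image_subset_range s _
    set y : X := P x - PS.P (s '' Iio a) x with hy
    have hy1 : PS.P (s '' Iio a) y = 0 := by
      rw [hy, map_sub, hP, PS.mul_left _ _ hsub1, PS.mul_left _ _ subset_rfl, sub_self]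
    have hy2 : PS.P (s '' L) y = y := by
      rw [hy, map_sub, hP, PS.mul_left _ _ hsub2, PS.mul_right _ _ (image_mono haL), ← h1]
    have h4 : |f y| ≤ ε * c₀ * ‖y‖ := by
      have h5 := ContinuousLinearMap.le_opNorm (f.comp (PS.P (s '' Iio a)) -
        f.comp (PS.P (s '' L))) y
      have h6 : (f.comp (PS.P (s '' Iio a)) - f.comp (PS.P (s '' L))) y = - f y := by
        change f (PS.P (s '' Iio a) y) - f (PS.P (s '' L) y) = - f y
        rw [hy1, hy2, map_zero, zero_sub]
      rw [h6, norm_neg, Real.norm_eq_abs] at h5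
      exact h5.trans (mul_le_mul_of_nonneg_right h3 (norm_nonneg _))
    have h5 : |f y| ≤ ε * ν y := by
      calc |f y| ≤ ε * c₀ * ‖y‖ := h4
        _ = ε * (c₀ * ‖y‖) := by ring
        _ ≤ ε * ν y := by
          gcongr
          exact (hC y).1
    have h6 : f y = f (P x) - f (PS.P (s '' Iio a) x) := by rw [hy, map_sub]
    have h7 : f (PS.P (s '' Iio a) x) ≤ g (PS.P (s '' Iio a) x) := (le_abs_self _).trans (hf _)
    have h8 : cutv PS s ν ε x (cut a false) = g (PS.P (s '' Iio a) x) + ε * ν y := rfl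
    rw [h8, ← hfx]
    have h9 := le_abs_self (f y)
    linarith

/-- Every cut is beaten by a cut with non-zero block. -/
theorem exists_cut_ge (ν : Seminorm ℝ X) (hν : IsEquivNorm ν) (hg : IsEquivNorm g) (x : X)
    (ε : ℝ) (hε : 0 < ε) (hne : PS.P ∅ x ≠ PS.P (range s) x) (L : Set I) (hL : IsLowerSet L) :
    ∃ (a : I) (b : Bool), PS.P (s '' Iic a) x ≠ PS.P (s '' Iio a) x ∧
      cutv PS s ν ε x L ≤ cutv PS s ν ε x (cut a b) := by
  by_cases h : ∃ a, PS.P (s '' Iic a) x ≠ PS.P (s '' Iio a) x ∧ a ∉ L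
  · set B : Set I := {a | PS.P (s '' Iic a) x ≠ PS.P (s '' Iio a) x ∧ a ∉ L} with hB
    have hBne : B.Nonempty := h
    set a := WellFounded.min (wellFounded_lt : WellFounded ((· < ·) : I → I → Prop)) B hBne
      with ha
    have haB : a ∈ B := WellFounded.min_mem _ B hBne
    refine ⟨a, false, haB.1, ?_⟩
    have hLa : L ⊆ Iio a := by
      intro d hd
      by_contra hda
      exact haB.2 (hL (not_lt.mp hda) hd)
    have h1 : PS.P (s '' Iio a) x = PS.P (s '' L) x := by
      apply proj_eq_of_blocks PS s x L (Iio a) hL (isLowerSet_Iio a) hLa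
      intro b hb hbL
      by_contra hb'
      have hbB : b ∈ B := ⟨hb', hbL⟩
      exact WellFounded.not_lt_min wellFounded_lt B hbB hb
    have h2 : PS.P (s '' cut a false) x = PS.P (s '' L) x := h1
    unfold cutv
    rw [h2]
  · push Not at h
    have h1 : PS.P (range s) x = PS.P (s '' L) x := by
      apply cuts_top PS s x L hL
      intro b hb
      by_contra hb'
      exact hb (h b hb')
    obtain ⟨a, b, hab, hle⟩ := exists_cut_gt PS s ν hν hg x ε hε hne
    refine ⟨a, b, hab, ?_⟩
    have h2 : cutv PS s ν ε x L = g (PS.P (range s) x) := by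
      unfold cutv
      rw [← h1, sub_self, map_zero, mul_zero, add_zero]
    rw [h2]
    exact hle

end Step

end Pool.Agent.SN
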