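import Mathlib

/-!
# Approximation of equivalent norms by `C^∞`-smooth norms: definitions

Project for MP_1dc0ca_an (frozen statement S03993).
-/

set_option autoImplicit false

namespace Pool.Agent.SN

open Set Filter Topology

/-- The smoothness exponent `∞`. -/
abbrev CInf : WithTop ℕ∞ := ((⊤ : ℕ∞) : WithTop ℕ∞)

/-- `p` is an equivalent norm. -/
def IsEquivNorm {X : Type*} [NormedAddCommGroup X] [NormedSpace ℝ X] (p : Seminorm ℝ X) : Prop :=
  ∃ c > (0 : ℝ), ∃ C : ℝ, ∀ x : X, c * ‖x‖ ≤ p x ∧ p x ≤ C * ‖x‖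

/-- `p` is `C^∞` away from the origin. -/
def IsSmoothNorm {X : Type*} [NormedAddCommGroup X] [NormedSpace ℝ X] (p : Seminorm ℝ X) : Prop :=
  ContDiffOn ℝ CInf (fun x => p x) {x : X | x ≠ 0}

/-- The norm `g` on the range of `P` is approximable by smooth norms (everything is expressed
by seminorms on the whole space which factor through `P`). -/
def Approx {X : Type*} [NormedAddCommGroup X] [NormedSpace ℝ X] (P : X →L[ℝ] X)
    (g : Seminorm ℝ X) : Prop :=
  ∀ e : ℝ, 0 < e → ∃ N : Seminorm ℝ X, (∀ x, g (P x) ≤ N x ∧ N x ≤ (1 + e) * g (P x)) ∧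
    ∀ x, P x ≠ 0 → ContDiffAt ℝ CInf (fun x => N x) x

/-- A system of projections indexed by the subsets of `W`, of `g`-norm one, increasing, with
finitary approximation property for vectors and for functionals. -/
structure ProjSys (X : Type*) [NormedAddCommGroup X] [NormedSpace ℝ X] (W : Type*)
    (g : Seminorm ℝ X) where
  P : Set W → X →L[ℝ] X
  mul_left : ∀ S T : Set W, S ⊆ T → ∀ x, P S (P T x) = P S x
  mul_right : ∀ S T : Set W, S ⊆ T → ∀ x, P T (P S x) = P S x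
  g_le : ∀ (S : Set W) (x : X), g (P S x) ≤ g x
  approx : ∀ (S : Set W) (x : X) (ε : ℝ), 0 < ε → ∃ F : Set W, F.Finite ∧ F ⊆ S ∧
    ∀ T : Set W, F ⊆ T → T ⊆ S → ‖P T x - P S x‖ ≤ ε
  approx_dual : ∀ (S : Set W) (f : StrongDual ℝ X) (ε : ℝ), 0 < ε → ∃ F : Set W, F.Finite ∧
    F ⊆ S ∧ ∀ T : Set W, F ⊆ T → T ⊆ S → ‖f.comp (P T) - f.comp (P S)‖ ≤ ε

end Pool.Agent.SN
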