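import Pool.Agent.Helper74.SN.Ekeland

/-! SN-7b: derivatives of a smooth norm are dense in the dual. -/

set_option autoImplicit false

namespace Pool.Agent.SN

open Set Filter Topology

theorem deriv_closure_smul {X : Type*} [NormedAddCommGroup X] [NormedSpace ℝ X] (A : Set X)
    (hq : ∀ (q : ℚ), ∀ a ∈ A, (q : ℝ) • a ∈ A) (r : ℝ) {x : X} (hx : x ∈ closure A) :
    r • x ∈ closure A := by
  have hr : r ∈ closure (Set.range ((↑) : ℚ → ℝ)) := by
    rw [Rat.denseRange_cast.closure_range]; trivial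
  refine map_mem_closure₂ (continuous_fst.smul continuous_snd) hr hx ?_
  rintro _ ⟨q, rfl⟩ b hb
  exact hq q b hb

theorem deriv_line {X : Type*} [NormedAddCommGroup X] [NormedSpace ℝ X] (F : X → ℝ)
    (G : StrongDual ℝ X) (y h : X) (κ : ℝ) (hF : HasFDerivAt F G y)
    (hle : ∀ t : ℝ, 0 < t → F y - κ * (t * ‖h‖) ≤ F (y + t • h)) : -(κ * ‖h‖) ≤ G h := by
  have h1 : HasDerivAt (fun t : ℝ => F (y + t • h)) (G h) 0 := by
    have h2 : HasDerivAt (fun t : ℝ => y + t • h) h 0 := by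
      have := ((hasDerivAt_id (0 : ℝ)).smul_const h).const_add y
      simpa using this
    have h3 : HasFDerivAt F G (y + (0 : ℝ) • h) := by simpa using hF
    exact h3.comp_hasDerivAt 0 h2
  have h4 := h1.tendsto_slope_zero_right
  refine ge_of_tendsto h4 ?_
  filter_upwards [self_mem_nhdsWithin] with t ht
  have ht' : 0 < t := ht
  have h5 := hle t ht'
  simp only [zero_add, zero_smul, add_zero, smul_eq_mul]
  rw [inv_mul_eq_div, le_div_iff₀ ht']
  linarith

theorem deriv_dense {X : Type*} [NormedAddCommGroup X] [NormedSpace ℝ X] [CompleteSpace X]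
    (ν : Seminorm ℝ X) (hν : IsEquivNorm ν) (hs : IsSmoothNorm ν) (A : Set X)
    (h0 : (0 : X) ∈ A) (hadd : ∀ a ∈ A, ∀ b ∈ A, a + b ∈ A)
    (hq : ∀ (q : ℚ), ∀ a ∈ A, (q : ℝ) • a ∈ A) (f : StrongDual ℝ X) (η : ℝ) (hη : 0 < η) :
    ∃ (q : ℚ), ∃ a ∈ A, ∀ y ∈ closure A,
      |f y - (q : ℝ) * fderiv ℝ (fun x => ν x) a y| ≤ η * ‖y‖ := by
  obtain ⟨c, hc, C, hC⟩ := hν
  have hνc : Continuous (fun x => ν x) := by
    have hle : ∀ x y : X, |ν x - ν y| ≤ |C| * dist x y := by
      intro x y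
      have h1 : |ν x - ν y| ≤ ν (x - y) := abs_sub_map_le_sub ν x y
      have h2 := (hC (x - y)).2
      rw [dist_eq_norm]
      have h3 : C * ‖x - y‖ ≤ |C| * ‖x - y‖ :=
        mul_le_mul_of_nonneg_right (le_abs_self C) (norm_nonneg _)
      linarith
    exact (LipschitzWith.of_dist_le_mul (K := Real.toNNReal |C|) (fun x y => by
      rw [Real.coe_toNNReal _ (abs_nonneg C), Real.dist_eq]
      exact hle x y)).continuous
  have haddc : ∀ a ∈ closure A, ∀ b ∈ closure A, a + b ∈ closure A := by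
    intro a ha b hb
    exact map_mem_closure₂ continuous_add ha hb hadd
  have hsc : ∀ (r : ℝ), ∀ a ∈ closure A, r • a ∈ closure A :=
    fun r a ha => deriv_closure_smul A hq r ha
  let M := closure A
  have : CompleteSpace M := isClosed_closure.completeSpace_coe
  have : Nonempty M := ⟨⟨0, subset_closure h0⟩⟩
  let F : X → ℝ := fun x => ν x ^ 2 / 2 - f x
  have hFc : Continuous F := by fun_prop
  obtain ⟨y, hy⟩ := ekeland (fun z : M => F z.1) (hFc.comp continuous_subtype_val)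
    (by
      refine ⟨-((‖f‖ / c) ^ 2 / 2), fun z => ?_⟩
      have h1 : f z.1 ≤ ‖f‖ * ‖z.1‖ := (le_abs_self _).trans (f.le_opNorm z.1)
      have h2 : ‖z.1‖ ≤ ν z.1 / c := by
        rw [le_div_iff₀ hc]
        linarith [(hC z.1).1]
      have h3 : ‖f‖ * ‖z.1‖ ≤ ‖f‖ * (ν z.1 / c) := mul_le_mul_of_nonneg_left h2 (norm_nonneg _)
      have h4 : ‖f‖ * (ν z.1 / c) = ‖f‖ / c * ν z.1 := by ring
      have h5 : 0 ≤ (ν z.1 - ‖f‖ / c) ^ 2 := sq_nonneg _
      show -((‖f‖ / c) ^ 2 / 2) ≤ ν z.1 ^ 2 / 2 - f z.1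
      nlinarith) (η / 4) (by positivity)
  have hyE : ∀ h ∈ closure A, ∀ t : ℝ, 0 < t →
      F y.1 - η / 4 * (t * ‖h‖) ≤ F (y.1 + t • h) := by
    intro h hh t ht
    have h1 := hy ⟨y.1 + t • h, haddc _ y.2 _ (hsc t h hh)⟩
    have h2 : dist (⟨y.1 + t • h, haddc _ y.2 _ (hsc t h hh)⟩ : M) y = t * ‖h‖ := by
      rw [Subtype.dist_eq, dist_eq_norm]
      simp only [add_sub_cancel_left]
      rw [norm_smul, Real.norm_of_nonneg ht.le]
    rw [h2] at h1
    exact h1
  by_cases hy0 : y.1 = 0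
  · refine ⟨0, 0, h0, ?_⟩
    have hone : ∀ h ∈ closure A, f h ≤ η / 4 * ‖h‖ := by
      intro h hh
      have h1 : ∀ t : ℝ, 0 < t → f h ≤ η / 4 * ‖h‖ + t * (ν h ^ 2 / 2) := by
        intro t ht
        have h2 := hyE h hh t ht
        rw [hy0] at h2
        simp only [F, map_zero, zero_add, map_smul_eq_mul, Real.norm_of_nonneg ht.le,
          map_smul, smul_eq_mul] at h2
        have h3 : t * f h ≤ t * (η / 4 * ‖h‖ + t * (ν h ^ 2 / 2)) := by nlinarith
        exact le_of_mul_le_mul_left h3 ht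
      have h2 : Tendsto (fun t : ℝ => η / 4 * ‖h‖ + t * (ν h ^ 2 / 2)) (𝓝[>] 0)
          (𝓝 (η / 4 * ‖h‖ + 0 * (ν h ^ 2 / 2))) :=
        (Continuous.tendsto (by fun_prop) 0).mono_left nhdsWithin_le_nhds
      rw [zero_mul, add_zero] at h2
      refine ge_of_tendsto h2 ?_
      filter_upwards [self_mem_nhdsWithin] with t ht
      exact h1 t ht
    intro h hh
    have h1 := hone h hh
    have h2 := hone ((-1 : ℝ) • h) (hsc _ _ hh)
    rw [neg_smul, one_smul, map_neg, norm_neg] at h2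
    have h3 : 0 ≤ ‖h‖ := norm_nonneg h
    simp only [Rat.cast_zero, zero_mul, sub_zero]
    rw [abs_le]
    constructor <;> nlinarith
  · have hcd : ContDiffAt ℝ CInf (fun x => ν x) y.1 :=
      hs.contDiffAt (isOpen_ne.mem_nhds hy0)
    have hdiff : DifferentiableAt ℝ (fun x => ν x) y.1 := hcd.differentiableAt (by simp [CInf])
    have hDc : ContinuousAt (fderiv ℝ (fun x => ν x)) y.1 := by
      have h1 : ContDiffAt ℝ 0 (fderiv ℝ (fun x => ν x)) y.1 :=
        hcd.fderiv_right (m := 0) (by simp [CInf])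
      exact h1.continuousAt
    let D := fderiv ℝ (fun x => ν x) y.1
    have hFd : HasFDerivAt F (ν y.1 • D - f) y.1 := by
      have h1 : HasFDerivAt (fun x => ν x) D y.1 := hdiff.hasFDerivAt
      have h2 := ((h1.mul h1).const_mul (1 / 2 : ℝ)).sub f.hasFDerivAt
      have h3 : F = fun x => 1 / 2 * (ν x * ν x) - f x := by
        funext x
        simp only [F]
        ring
      rw [h3]
      refine h2.congr_fderiv ?_
      ext h
      simp [smul_eq_mul]
      ring
    have hone : ∀ h ∈ closure A, -(η / 4 * ‖h‖) ≤ ν y.1 * D h - f h := by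
      intro h hh
      have := deriv_line F _ y.1 h (η / 4) hFd (hyE h hh)
      simpa using this
    have htwo : ∀ h ∈ closure A, |f h - ν y.1 * D h| ≤ η / 4 * ‖h‖ := by
      intro h hh
      have h1 := hone h hh
      have h2 := hone ((-1 : ℝ) • h) (hsc _ _ hh)
      rw [neg_smul, one_smul, map_neg, map_neg, norm_neg] at h2
      rw [abs_le]
      constructor <;> linarith
    have hcont : ContinuousAt (fun p : ℝ × X => p.1 • fderiv ℝ (fun x => ν x) p.2)
        (ν y.1, y.1) := by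
      refine ContinuousAt.smul continuousAt_fst ?_
      exact ContinuousAt.comp (f := Prod.snd) (g := fderiv ℝ (fun x => ν x)) hDc continuousAt_snd
    rw [Metric.continuousAt_iff] at hcont
    obtain ⟨δ, hδ, hδ'⟩ := hcont (η / 2) (by positivity)
    obtain ⟨a, ha, had⟩ := Metric.mem_closure_iff.1 y.2 δ hδ
    obtain ⟨q, hq1, hq2⟩ := exists_rat_btwn (show ν y.1 < ν y.1 + δ by linarith)
    have h1 := hδ' (x := ((q : ℝ), a)) (by
      rw [Prod.dist_eq, max_lt_iff]
      constructor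
      · rw [Real.dist_eq, abs_lt]
        constructor <;> simp <;> linarith
      · rw [dist_comm]
        exact had)
    rw [dist_eq_norm] at h1
    refine ⟨q, a, ha, fun h hh => ?_⟩
    have h2 := htwo h hh
    have h3 := ((q : ℝ) • fderiv ℝ (fun x => ν x) a - ν y.1 • D).le_opNorm h
    have h4 : ((q : ℝ) • fderiv ℝ (fun x => ν x) a - ν y.1 • D) h =
        (q : ℝ) * fderiv ℝ (fun x => ν x) a h - ν y.1 * D h := by simp
    rw [h4, Real.norm_eq_abs] at h3
    have h5 : ‖(q : ℝ) • fderiv ℝ (fun x => ν x) a - ν y.1 • D‖ * ‖h‖ ≤ η / 2 * ‖h‖ :=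
      mul_le_mul_of_nonneg_right h1.le (norm_nonneg _)
    have h6 : f h - (q : ℝ) * fderiv ℝ (fun x => ν x) a h =
        (f h - ν y.1 * D h) - ((q : ℝ) * fderiv ℝ (fun x => ν x) a h - ν y.1 * D h) := by ring
    rw [h6]
    have h7 := abs_sub (f h - ν y.1 * D h)
      ((q : ℝ) * fderiv ℝ (fun x => ν x) a h - ν y.1 * D h)
    have h8 : 0 ≤ ‖h‖ := norm_nonneg h
    nlinarith

end Pool.Agent.SN
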