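import Pool.Agent.Helper74.SN.Defs

/-! SN-7a: Ekeland variational principle (weak form). -/

set_option autoImplicit false

namespace Pool.Agent.SN

open Set Filter Topology

theorem ekeland {M : Type*} [MetricSpace M] [CompleteSpace M] [Nonempty M] (F : M → ℝ)
    (hF : Continuous F) (hb : ∃ m : ℝ, ∀ z, m ≤ F z) (η : ℝ) (hη : 0 < η) :
    ∃ y : M, ∀ z : M, F y - η * dist z y ≤ F z := by
  obtain ⟨m, hm⟩ := hb
  let S : M → Set M := fun z => {u | F u + η * dist u z ≤ F z}
  have hSself : ∀ z, z ∈ S z := fun z => by simp [S]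
  have hStrans : ∀ z u v, u ∈ S z → v ∈ S u → v ∈ S z := by
    intro z u v hu hv
    have h1 : F u + η * dist u z ≤ F z := hu
    have h2 : F v + η * dist v u ≤ F u := hv
    show F v + η * dist v z ≤ F z
    have h3 : η * dist v z ≤ η * dist v u + η * dist u z := by
      rw [← mul_add]
      exact mul_le_mul_of_nonneg_left (dist_triangle v u z) hη.le
    linarith
  have hbdd : ∀ z, BddBelow (F '' S z) := by
    intro z
    refine ⟨m, ?_⟩
    rintro _ ⟨u, -, rfl⟩
    exact hm u
  have hnx : ∀ (z : M) (n : ℕ), ∃ u ∈ S z, F u ≤ sInf (F '' S z) + 1 / ((n : ℝ) + 1) := by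
    intro z n
    have hne : (F '' S z).Nonempty := ⟨F z, z, hSself z, rfl⟩
    have hpos : (0 : ℝ) < 1 / ((n : ℝ) + 1) := by positivity
    obtain ⟨_, ⟨u, hu, rfl⟩, hlt⟩ := exists_lt_of_csInf_lt hne
      (lt_add_of_pos_right (sInf (F '' S z)) hpos)
    exact ⟨u, hu, hlt.le⟩
  choose nx hnxS hnxF using hnx
  let z0 : M := Classical.arbitrary M
  let s : ℕ → M := fun n => Nat.rec z0 (fun k z => nx z k) n
  have hs : ∀ n, s (n + 1) = nx (s n) n := fun n => rfl
  have hstep : ∀ n, s (n + 1) ∈ S (s n) := fun n => by rw [hs]; exact hnxS _ _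
  have hmono : ∀ n k, s (n + k) ∈ S (s n) := by
    intro n k
    induction k with
    | zero => exact hSself _
    | succ k ih => exact hStrans _ _ _ ih (hstep (n + k))
  have hanti : Antitone (fun n => F (s n)) := by
    apply antitone_nat_of_succ_le
    intro n
    have h : F (s (n + 1)) + η * dist (s (n + 1)) (s n) ≤ F (s n) := hstep n
    have h2 : 0 ≤ η * dist (s (n + 1)) (s n) := mul_nonneg hη.le dist_nonneg
    linarith
  have hlim : ∃ L, Tendsto (fun n => F (s n)) atTop (𝓝 L) :=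
    ⟨_, tendsto_atTop_ciInf hanti ⟨m, by rintro _ ⟨n, rfl⟩; exact hm _⟩⟩
  obtain ⟨L, hL⟩ := hlim
  have hcs : CauchySeq s := by
    rw [Metric.cauchySeq_iff']
    intro ε hε
    have hc := hL.cauchySeq
    rw [Metric.cauchySeq_iff'] at hc
    obtain ⟨N, hN⟩ := hc (η * ε) (mul_pos hη hε)
    refine ⟨N, fun n hn => ?_⟩
    obtain ⟨k, rfl⟩ := Nat.exists_eq_add_of_le hn
    have h1 : F (s (N + k)) + η * dist (s (N + k)) (s N) ≤ F (s N) := hmono N k
    have h2 := hN (N + k) hn
    rw [Real.dist_eq, abs_lt] at h2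
    have h3 : η * dist (s (N + k)) (s N) < η * ε := by linarith [h2.1]
    exact lt_of_mul_lt_mul_left h3 hη.le
  obtain ⟨y, hy⟩ := cauchySeq_tendsto_of_complete hcs
  have hyS : ∀ n, y ∈ S (s n) := by
    intro n
    have hclosed : IsClosed (S (s n)) :=
      isClosed_le (hF.add (continuous_const.mul (continuous_id.dist continuous_const)))
        continuous_const
    refine hclosed.mem_of_tendsto hy ?_
    filter_upwards [eventually_ge_atTop n] with k hk
    obtain ⟨j, rfl⟩ := Nat.exists_eq_add_of_le hk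
    exact hmono n j
  refine ⟨y, fun z => ?_⟩
  by_contra hlt
  push Not at hlt
  have hzy : z ∈ S y := by
    show F z + η * dist z y ≤ F y
    linarith
  have hzn : ∀ n, F (s (n + 1)) ≤ F z + 1 / ((n : ℝ) + 1) := by
    intro n
    have h1 : sInf (F '' S (s n)) ≤ F z :=
      csInf_le (hbdd _) ⟨z, hStrans _ _ _ (hyS n) hzy, rfl⟩
    have h2 := hnxF (s n) n
    rw [← hs] at h2
    linarith
  have hFy : F y ≤ F z := by
    have h1 : Tendsto (fun n => F (s (n + 1))) atTop (𝓝 (F y)) :=
      (hF.tendsto y).comp (hy.comp (tendsto_add_atTop_nat 1))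
    have h2 : Tendsto (fun n : ℕ => F z + 1 / ((n : ℝ) + 1)) atTop (𝓝 (F z + 0)) :=
      tendsto_const_nhds.add tendsto_one_div_add_atTop_nhds_zero_nat
    rw [add_zero] at h2
    exact le_of_tendsto_of_tendsto' h1 h2 hzn
  have : 0 ≤ η * dist z y := mul_nonneg hη.le dist_nonneg
  linarith

end Pool.Agent.SN
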