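import Pool.Agent.Helper74.SN.Restr

/-! SN-9: Stone-Weierstrass. -/

set_option autoImplicit false

namespace Pool.Agent.SN

open Set Filter Topology

/-- The closure of a set of functions closed under the ring operations and rational scalars. -/
noncomputable def stoneAlg {K : Type*} [TopologicalSpace K] [CompactSpace K]
    (DD : Set C(K, ℝ))
    (h1 : (1 : C(K, ℝ)) ∈ DD) (hadd : ∀ a ∈ DD, ∀ b ∈ DD, a + b ∈ DD)
    (hmul : ∀ a ∈ DD, ∀ b ∈ DD, a * b ∈ DD) (hsmul : ∀ (q : ℚ), ∀ a ∈ DD, (q : ℝ) • a ∈ DD) :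
    Subalgebra ℝ C(K, ℝ) := by
  have hA : ∀ a ∈ closure DD, ∀ b ∈ closure DD, a + b ∈ closure DD := by
    intro a ha b hb
    exact map_mem_closure₂ continuous_add ha hb hadd
  have hM : ∀ a ∈ closure DD, ∀ b ∈ closure DD, a * b ∈ closure DD := by
    intro a ha b hb
    exact map_mem_closure₂ continuous_mul ha hb hmul
  have hS : ∀ (r : ℝ), ∀ a ∈ closure DD, r • a ∈ closure DD := by
    intro r a ha
    have hr : r ∈ closure (Set.range ((↑) : ℚ → ℝ)) := by
      rw [Rat.denseRange_cast.closure_range]; trivial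
    refine map_mem_closure₂ (continuous_fst.smul continuous_snd) hr ha ?_
    rintro _ ⟨q, rfl⟩ b hb
    exact hsmul q b hb
  exact
    { carrier := closure DD
      mul_mem' := fun {a b} ha hb => hM a ha b hb
      one_mem' := subset_closure h1
      add_mem' := fun {a b} ha hb => hA a ha b hb
      zero_mem' := by
        have := hS 0 1 (subset_closure h1)
        rwa [zero_smul] at this
      algebraMap_mem' := by
        intro r
        have := hS r 1 (subset_closure h1)
        rwa [← Algebra.algebraMap_eq_smul_one] at this }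

theorem sw_zero {X : Type*} [NormedAddCommGroup X] [NormedSpace ℝ X]
    (K : Set (WeakSpace ℝ X)) (hK : IsCompact K)
    (hd : Dense ((Submodule.span ℝ ((toWeakSpace ℝ X).symm '' K) : Submodule ℝ X) : Set X))
    (A : Set X) (B : Set (StrongDual ℝ X)) (DD : Set C(K, ℝ))
    (h1 : (1 : C(K, ℝ)) ∈ DD) (hadd : ∀ a ∈ DD, ∀ b ∈ DD, a + b ∈ DD)
    (hmul : ∀ a ∈ DD, ∀ b ∈ DD, a * b ∈ DD) (hsmul : ∀ (q : ℚ), ∀ a ∈ DD, (q : ℝ) • a ∈ DD)
    (hr : ∀ b ∈ B, restr K b ∈ DD)
    (hk : ∀ d ∈ DD, ∃ x : K, (toWeakSpace ℝ X).symm x.1 ∈ A ∧ ∀ y : K, |d y| ≤ |d x|)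
    (f : StrongDual ℝ X) (hfA : ∀ a ∈ A, f a = 0)
    (hfB : ∀ x : X, (∀ b ∈ B, b x = 0) → f x = 0) : f = 0 := by
  have : CompactSpace K := isCompact_iff_compactSpace.1 hK
  let S := stoneAlg DD h1 hadd hmul hsmul
  have hScar : (S : Set C(K, ℝ)) = closure DD := rfl
  let Φ : C(K, B → ℝ) := ⟨fun x b => restr K b.1 x, by fun_prop⟩
  let K' : Set (B → ℝ) := range Φ
  have : CompactSpace K' := isCompact_iff_compactSpace.1 (isCompact_range Φ.continuous)
  let Φ' : C(K, K') := ⟨fun x => ⟨Φ x, x, rfl⟩, by fun_prop⟩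
  have hsurj : Function.Surjective Φ' := by
    rintro ⟨_, x, rfl⟩
    exact ⟨x, rfl⟩
  have hq : IsQuotientMap Φ' := by
    have hc : IsClosedMap Φ' := Φ'.continuous.isClosedMap
    exact hc.isQuotientMap Φ'.continuous hsurj
  let T : C(K', ℝ) →ₐ[ℝ] C(K, ℝ) := ContinuousMap.compRightAlgHom ℝ ℝ Φ'
  have hTc : Continuous T := ContinuousMap.continuous_precomp Φ'
  let A' : Subalgebra ℝ C(K', ℝ) := S.comap T
  have hclosed : IsClosed (A' : Set C(K', ℝ)) := by
    have : (A' : Set C(K', ℝ)) = T ⁻¹' (closure DD) := rfl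
    rw [this]
    exact isClosed_closure.preimage hTc
  have hsep : A'.SeparatesPoints := by
    intro x y hxy
    have hne : x.1 ≠ y.1 := fun h => hxy (Subtype.ext h)
    obtain ⟨b, hb⟩ := Function.ne_iff.1 hne
    let g : C(K', ℝ) := ⟨fun z => z.1 b, (continuous_apply b).comp continuous_subtype_val⟩
    refine ⟨g, ⟨g, ?_, rfl⟩, hb⟩
    show T g ∈ closure DD
    have : T g = restr K b.1 := by
      ext z
      rfl
    rw [this]
    exact subset_closure (hr b.1 b.2)
  have htop := ContinuousMap.subalgebra_topologicalClosure_eq_top_of_separatesPoints A' hsep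
  have hA'top : ∀ g : C(K', ℝ), g ∈ A' := by
    intro g
    have hg : g ∈ A'.topologicalClosure := by rw [htop]; trivial
    rw [← SetLike.mem_coe, Subalgebra.topologicalClosure_coe, hclosed.closure_eq] at hg
    exact hg
  have hfac : Function.FactorsThrough (restr K f) Φ' := by
    intro x y hxy
    have h2 : Φ x = Φ y := congrArg Subtype.val hxy
    have h3 : f ((toWeakSpace ℝ X).symm x.1 - (toWeakSpace ℝ X).symm y.1) = 0 := by
      apply hfB
      intro b hb
      have h4 := congrFun h2 ⟨b, hb⟩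
      have h5 : b ((toWeakSpace ℝ X).symm x.1) = b ((toWeakSpace ℝ X).symm y.1) := h4
      rw [map_sub, h5, sub_self]
    rw [map_sub, sub_eq_zero] at h3
    exact h3
  have hmem : restr K f ∈ closure DD := by
    let f' : C(K', ℝ) := hq.lift (restr K f) hfac
    have h2 : T f' = restr K f := by
      ext z
      exact DFunLike.congr_fun (hq.lift_comp (restr K f) hfac) z
    have h3 : T f' ∈ closure DD := hA'top f'
    rwa [h2] at h3
  have hzero : ∀ y : K, f ((toWeakSpace ℝ X).symm y.1) = 0 := by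
    intro y
    by_contra hne
    have hpos : 0 < |f ((toWeakSpace ℝ X).symm y.1)| := abs_pos.2 hne
    obtain ⟨d, hd1, hd2⟩ := Metric.mem_closure_iff.1 hmem
      (|f ((toWeakSpace ℝ X).symm y.1)| / 2) (by positivity)
    rw [dist_eq_norm] at hd2
    have hdz : ∀ z : K, |f ((toWeakSpace ℝ X).symm z.1) - d z| ≤ ‖restr K f - d‖ := by
      intro z
      have := (restr K f - d).norm_coe_le_norm z
      simpa [restr] using this
    obtain ⟨x, hxA, hx⟩ := hk d hd1
    have h3 := hdz x
    rw [hfA _ hxA, zero_sub, abs_neg] at h3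
    have h4 := hx y
    have h5 := hdz y
    have h6 : |f ((toWeakSpace ℝ X).symm y.1)| ≤
        |f ((toWeakSpace ℝ X).symm y.1) - d y| + |d y| := by
      have := abs_add_le (f ((toWeakSpace ℝ X).symm y.1) - d y) (d y)
      simpa using this
    linarith
  have hker : (Submodule.span ℝ ((toWeakSpace ℝ X).symm '' K) : Submodule ℝ X) ≤
      LinearMap.ker (f : X →ₗ[ℝ] ℝ) := by
    rw [Submodule.span_le]
    rintro _ ⟨z, hz, rfl⟩
    exact hzero ⟨z, hz⟩
  have heq : (f : X → ℝ) = (0 : StrongDual ℝ X) := by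
    apply Continuous.ext_on hd f.continuous (0 : StrongDual ℝ X).continuous
    intro z hz
    exact hker hz
  exact DFunLike.coe_injective heq

end Pool.Agent.SN
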