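import Pool.Agent.Helper74.SN.Pair
import Pool.Agent.Helper74.SN.ClProps
import Pool.Agent.Helper74.SN.StoneW
import Pool.Agent.Helper74.SN.DerivDense
import Pool.Agent.Helper74.SN.Support

/-! SN-11b: existence of a system of norming pairs. -/

set_option autoImplicit false

namespace Pool.Agent.SN

open Set Filter Topology

theorem exists_pairSys {X : Type} [NormedAddCommGroup X] [NormedSpace ℝ X] [CompleteSpace X]
    (K : Set (WeakSpace ℝ X)) (hK : IsCompact K) (hKn : K.Nonempty)
    (hd : Dense ((Submodule.span ℝ ((toWeakSpace ℝ X).symm '' K) : Submodule ℝ X) : Set X))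
    (ν g : Seminorm ℝ X) (hν : IsEquivNorm ν) (hs : IsSmoothNorm ν) (hg : IsEquivNorm g) :
    ∃ (W : Type) (PR : PairSys X W g), PR.A univ = univ := by
  classical
  have hKc : CompactSpace K := isCompact_iff_compactSpace.1 hK
  have hKne : Nonempty K := hKn.to_subtype
  have hmax : ∀ d : C(K, ℝ), ∃ x : K, ∀ y : K, |d y| ≤ |d x| := by
    intro d
    obtain ⟨x, _, hx⟩ := isCompact_univ.exists_isMaxOn (univ_nonempty (α := K))
      (f := fun y : K => |d y|) (d.continuous.abs.continuousOn)
    exact ⟨x, fun y => hx (mem_univ y)⟩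
  choose mx hmx using hmax
  choose sp hsp1 hsp2 using fun a : X => exists_support g hg a
  let D : X → StrongDual ℝ X := fun a => fderiv ℝ (fun x => ν x) a
  let r : StrongDual ℝ X → C(K, ℝ) := restr K
  let k : C(K, ℝ) → X := fun d => (toWeakSpace ℝ X).symm (mx d).1
  refine ⟨Car X C(K, ℝ),
    { A := fun S => {a | Cl D sp r k S (Sum.inl a)}
      B := fun S => {b | Cl D sp r k S (Sum.inr (Sum.inl b))}
      A_mono := fun S T h a ha => Cl_mono D sp r k S T h _ ha
      B_mono := fun S T h a ha => Cl_mono D sp r k S T h _ ha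
      A_fin := fun S a ha => Cl_finitary D sp r k S _ ha
      B_fin := fun S a ha => Cl_finitary D sp r k S _ ha
      A_zero := fun S => Cl.zero1
      A_add := fun S a ha b hb => Cl.add1 a b ha hb
      A_smul := fun S q a ha => Cl.smul1 q a ha
      norming := fun S a ha => ⟨sp a, Cl.mapSp a ha, hsp1 a, hsp2 a⟩
      total := ?_
      dual_dense := ?_
      A_countable := ?_
      B_countable := ?_ }, ?_⟩
  · intro S f hfA hfB
    exact sw_zero K hK hd {a | Cl D sp r k S (Sum.inl a)} {b | Cl D sp r k S (Sum.inr (Sum.inl b))}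
      {d | Cl D sp r k S (Sum.inr (Sum.inr d))} Cl.one3 (fun a ha b hb => Cl.add3 a b ha hb)
      (fun a ha b hb => Cl.mul3 a b ha hb) (fun q a ha => Cl.smul3 q a ha)
      (fun b hb => Cl.mapR b hb) (fun d hd' => ⟨mx d, Cl.mapK d hd', hmx d⟩) f hfA hfB
  · intro S f η hη
    obtain ⟨q, a, ha, h⟩ := deriv_dense ν hν hs {a | Cl D sp r k S (Sum.inl a)} Cl.zero1
      (fun a ha b hb => Cl.add1 a b ha hb) (fun q a ha => Cl.smul1 q a ha) f η hη
    exact ⟨(q : ℝ) • D a, Cl.smul2 q _ (Cl.mapD a ha), fun y hy => h y hy⟩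
  · intro S hS
    exact (Cl_countable D sp r k S hS).preimage Sum.inl_injective
  · intro S hS
    exact (Cl_countable D sp r k S hS).preimage (Sum.inr_injective.comp Sum.inl_injective)
  · exact eq_univ_of_forall fun a => Cl.base _ (mem_univ _)

end Pool.Agent.SN
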