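import Pool.Agent.Helper74.SN.PairProj
import Pool.Agent.Helper74.SN.PairExists

/-! SN-11: existence of the projection system. -/

set_option autoImplicit false

namespace Pool.Agent.SN

open Set Filter Topology

theorem exists_projSys {X : Type} [NormedAddCommGroup X] [NormedSpace ℝ X] [CompleteSpace X]
    (K : Set (WeakSpace ℝ X)) (hK : IsCompact K) (hKn : K.Nonempty)
    (hd : Dense ((Submodule.span ℝ ((toWeakSpace ℝ X).symm '' K) : Submodule ℝ X) : Set X))
    (ν g : Seminorm ℝ X) (hν : IsEquivNorm ν) (hs : IsSmoothNorm ν) (hg : IsEquivNorm g) :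
    ∃ (W : Type) (PS : ProjSys X W g), (∀ x, PS.P univ x = x) ∧
      ∀ S : Set W, S.Countable →
        TopologicalSpace.SeparableSpace (LinearMap.range (PS.P S).toLinearMap) ∧
        TopologicalSpace.SeparableSpace
          (StrongDual ℝ (LinearMap.range (PS.P S).toLinearMap)) := by
  obtain ⟨W, PR, hA⟩ := exists_pairSys K hK hKn hd ν g hν hs hg
  obtain ⟨PS, h1, h2⟩ := projSys_of_pairSys hg PR
  exact ⟨W, PS, fun x => h1 univ hA x, h2⟩

end Pool.Agent.SN
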