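import Pool.Agent.Helper74.SN.Defs

/-! SN-2a: implicit scalar function. -/

set_option autoImplicit false

namespace Pool.Agent.SN

open Set Filter Topology

theorem contDiffAt_scaling {X : Type*} [NormedAddCommGroup X] [NormedSpace ℝ X]
    [CompleteSpace X] (Φ : X → ℝ) (x₀ : X) (s : X → ℝ) (hs : ContinuousAt s x₀)
    (hΦ : ContDiffAt ℝ CInf Φ (s x₀ • x₀)) (hd : fderiv ℝ Φ (s x₀ • x₀) x₀ ≠ 0)
    (he : ∀ᶠ x in 𝓝 x₀, Φ (s x • x) = 1) : ContDiffAt ℝ CInf s x₀ := by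
  have hCne : CInf ≠ 0 := by simp [CInf]
  set f : X × ℝ → ℝ := fun p => Φ (p.2 • p.1) with hf
  set u : X × ℝ := (x₀, s x₀) with hu
  have hin : ContDiffAt ℝ CInf (fun p : X × ℝ => p.2 • p.1) u :=
    (contDiff_snd.smul contDiff_fst).contDiffAt
  have hΦ' : ContDiffAt ℝ CInf Φ ((fun p : X × ℝ => p.2 • p.1) u) := hΦ
  have cdf : ContDiffAt ℝ CInf f u := hΦ'.comp u hin
  have hdf : ∀ t : ℝ, fderiv ℝ f u (0, t) = t * fderiv ℝ Φ (s x₀ • x₀) x₀ := by
    intro t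
    have h1 : HasFDerivAt Φ (fderiv ℝ Φ (s x₀ • x₀)) ((fun p : X × ℝ => p.2 • p.1) u) :=
      (hΦ.differentiableAt hCne).hasFDerivAt
    have h2 : HasFDerivAt (fun p : X × ℝ => p.2 • p.1)
        (u.2 • ContinuousLinearMap.fst ℝ X ℝ +
          (ContinuousLinearMap.snd ℝ X ℝ).smulRight u.1) u :=
      (hasFDerivAt_snd (𝕜 := ℝ) (p := u)).smul (hasFDerivAt_fst (𝕜 := ℝ) (p := u))
    have h3 := (h1.comp u h2).fderiv
    have h4 : f = Φ ∘ fun p : X × ℝ => p.2 • p.1 := rfl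
    rw [h4, h3]
    simp [hu]
  have if₂ : (fderiv ℝ f u ∘L .inr ℝ X ℝ).IsInvertible := by
    refine ⟨ContinuousLinearEquiv.unitsEquivAut ℝ (Units.mk0 _ hd), ?_⟩
    ext
    simp only [ContinuousLinearEquiv.coe_coe, ContinuousLinearEquiv.unitsEquivAut_apply,
      Units.val_mk0, ContinuousLinearMap.comp_apply, ContinuousLinearMap.inr_apply]
    rw [hdf]
  have key := cdf.eventually_apply_eq_iff_implicitFunction hCne if₂
  have hcont : ContinuousAt (fun x => (x, s x)) x₀ := continuousAt_id.prodMk hs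
  have key2 : ∀ᶠ x in 𝓝 x₀, (f (x, s x) = f u ↔ cdf.implicitFunction hCne if₂ x = s x) :=
    hcont.eventually key
  have hfu : f u = 1 := he.self_of_nhds
  have hEq : s =ᶠ[𝓝 x₀] cdf.implicitFunction hCne if₂ := by
    filter_upwards [key2, he] with x h1 h2
    exact (h1.1 (by rw [hfu]; exact h2)).symm
  exact (cdf.contDiffAt_implicitFunction hCne if₂).congr_of_eventuallyEq hEq

end Pool.Agent.SN
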