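import Pool.Agent.Helper74.SN.Scalar
import Pool.Agent.Helper74.SN.Comp
import Pool.Agent.Helper74.SN.Scaling

/-! SN-2b: the smooth norm defined by a locally finite family. -/

set_option autoImplicit false

namespace Pool.Agent.SN

open Set Filter Topology

theorem gauge_convexOn_sum {X : Type*} [NormedAddCommGroup X] [NormedSpace ℝ X]
    {ι : Type*} (f : ι → X → ℝ) (hf : ∀ i, ConvexOn ℝ univ (f i)) (F : Finset ι) :
    ConvexOn ℝ univ (fun x => ∑ i ∈ F, f i x) := by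
  classical
  induction F using Finset.induction_on with
  | empty =>
    simpa using (convexOn_const (𝕜 := ℝ) (0 : ℝ) (convex_univ (E := X)))
  | insert a s ha ih =>
    have h := (hf a).add ih
    refine h.congr ?_
    intro x _
    simp [Finset.sum_insert ha]

theorem smooth_gauge {X : Type*} [NormedAddCommGroup X] [NormedSpace ℝ X] [CompleteSpace X]
    {ι : Type*} (h : ι → X → ℝ) (η : ι → ℝ) (σ : ι → ι) (p : Seminorm ℝ X)
    (hp : Continuous p) (θ : ℝ) (hθ : 0 < θ) (hθ1 : θ < 1) (hη : ∀ i, 0 < η i)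
    (hconv : ∀ i, ConvexOn ℝ univ (h i)) (hsm : ∀ i, ContDiff ℝ CInf (h i))
    (hσσ : Function.Involutive σ) (hσ : ∀ i x, h (σ i) x = h i (-x)) (hησ : ∀ i, η (σ i) = η i)
    (hL : ∀ x, (∀ i, h i x ≤ 1) → p x ≤ 1)
    (hU : ∀ x, p x ≤ 1 - θ → ∀ i, h i x ≤ 1 - η i)
    (hLF : ∀ x, (∀ i, h i x ≤ 1) → ∃ U ∈ 𝓝 x, ∃ F : Finset ι, ∀ y ∈ U, ∀ i, i ∉ F →
      h i y ≤ 1 - η i) :
    ∃ N : Seminorm ℝ X, (∀ x, p x ≤ N x ∧ N x ≤ (1 - θ)⁻¹ * p x) ∧
      ∀ x, p x ≠ 0 → ContDiffAt ℝ CInf (fun x => N x) x := by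
  classical
  obtain ⟨χ, χs, χc, χm, χ0, χnn, χ1, χgt⟩ := exists_chi
  set g : ι → X → ℝ := fun i x => χ ((h i x - 1) / η i) with hg
  have gconv : ∀ i, ConvexOn ℝ univ (g i) := by
    intro i
    refine convexOn_phi_comp χ χc χm _ ?_
    have h1 : ConvexOn ℝ univ (fun x => (η i)⁻¹ • (h i x + (-1))) :=
      ((hconv i).add_const (-1)).smul (inv_nonneg.mpr (hη i).le)
    refine h1.congr ?_
    intro x _
    simp only [smul_eq_mul]
    field_simp
    ring
  have gsm : ∀ i, ContDiff ℝ CInf (g i) := by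
    intro i
    exact χs.comp (((hsm i).sub contDiff_const).div_const _)
  have gnn : ∀ i x, 0 ≤ g i x := fun i x => χnn _
  have gzero : ∀ i x, h i x ≤ 1 - η i → g i x = 0 := by
    intro i x hx
    apply χ0
    rw [div_le_iff₀ (hη i)]
    linarith
  have gle : ∀ i x, g i x ≤ 1 → h i x ≤ 1 := by
    intro i x hx
    by_contra hc
    have h1 : 0 < (h i x - 1) / η i := div_pos (by linarith [not_le.mp hc]) (hη i)
    have h2 := χgt _ h1
    exact absurd hx (not_le.mpr h2)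
  set S : Finset ι → X → ℝ := fun F x => ∑ i ∈ F, g i x with hS
  have Sconv : ∀ F, ConvexOn ℝ univ (S F) := fun F => gauge_convexOn_sum g gconv F
  have Ssm : ∀ F, ContDiff ℝ CInf (S F) := by
    intro F
    exact ContDiff.sum fun i _ => gsm i
  set C : Set X := {x | ∀ F : Finset ι, S F x ≤ 1} with hC
  have Cconv : Convex ℝ C := by
    have : C = ⋂ F : Finset ι, {x ∈ (univ : Set X) | S F x ≤ 1} := by
      ext x
      simp [hC]
    rw [this]
    exact convex_iInter fun F => (Sconv F).convex_le 1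
  have Cclosed : IsClosed C := by
    have : C = ⋂ F : Finset ι, {x | S F x ≤ 1} := by
      ext x
      simp [hC]
    rw [this]
    exact isClosed_iInter fun F => isClosed_le (Ssm F).continuous continuous_const
  have Csymm : ∀ ⦃x⦄, x ∈ C → -x ∈ C := by
    intro x hx F
    have h1 : S F (-x) = S (F.image σ) x := by
      simp only [hS]
      rw [Finset.sum_image (fun a _ b _ hab => hσσ.injective hab)]
      refine Finset.sum_congr rfl fun i _ => ?_
      simp only [hg]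
      rw [hσ, hησ]
    rw [h1]
    exact hx _
  have Cbal : Balanced ℝ C := (balanced_iff_neg_mem Cconv).mpr Csymm
  have Clow : ∀ x, p x ≤ 1 - θ → x ∈ C := by
    intro x hx F
    have : S F x = 0 := Finset.sum_eq_zero fun i _ => gzero i x (hU x hx i)
    rw [this]
    exact zero_le_one
  have C1 : ∀ x ∈ C, ∀ i, h i x ≤ 1 := by
    intro x hx i
    apply gle
    have := hx {i}
    simpa [hS] using this
  have Cup : ∀ x ∈ C, p x ≤ 1 := fun x hx => hL x (C1 x hx)
  have hθ' : 0 < 1 - θ := by linarith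
  have C0 : C ∈ 𝓝 (0 : X) := by
    have h1 : ∀ᶠ x in 𝓝 (0 : X), p x < 1 - θ := by
      have := hp.tendsto 0
      rw [map_zero] at this
      exact this.eventually (gt_mem_nhds hθ')
    exact mem_of_superset h1 fun x hx => Clow x (le_of_lt hx)
  have Cabs : Absorbent ℝ C := absorbent_nhds_zero C0
  set N : Seminorm ℝ X := gaugeSeminorm Cbal Cconv Cabs with hN
  have Ng : ∀ x, N x = gauge C x := fun x => rfl
  have Nlow : ∀ x, p x ≤ N x := by
    intro x
    rw [Ng]
    refine le_of_forall_gt fun t ht => ?_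
    obtain ⟨b, hb0, hbt, hxb⟩ := exists_lt_of_gauge_lt Cabs ht
    obtain ⟨y, hy, rfl⟩ := hxb
    have h1 : p (b • y) = b * p y := by
      rw [map_smul_eq_mul, Real.norm_of_nonneg hb0.le]
    have h2 := Cup y hy
    have h3 : (fun x => b • x) y = b • y := rfl
    rw [h3, h1]
    nlinarith
  have Nup : ∀ x, N x ≤ (1 - θ)⁻¹ * p x := by
    intro x
    rw [Ng]
    refine le_of_forall_gt_imp_ge_of_dense fun t ht => ?_
    have ht0 : 0 < t := lt_of_le_of_lt (mul_nonneg (inv_nonneg.mpr hθ'.le) (apply_nonneg p x)) ht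
    refine gauge_le_of_mem ht0.le ?_
    refine ⟨t⁻¹ • x, Clow _ ?_, ?_⟩
    · rw [map_smul_eq_mul, Real.norm_of_nonneg (inv_nonneg.mpr ht0.le)]
      rw [inv_mul_lt_iff₀ hθ'] at ht
      rw [inv_mul_le_iff₀ ht0]
      linarith
    · exact smul_inv_smul₀ ht0.ne' x
  refine ⟨N, fun x => ⟨Nlow x, Nup x⟩, ?_⟩
  intro x₀ hx₀
  have Ncont : Continuous (fun x => N x) := continuous_gauge Cconv C0
  have Npos : 0 < N x₀ := lt_of_lt_of_le (lt_of_le_of_ne (apply_nonneg p x₀) (Ne.symm hx₀)) (Nlow x₀)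
  set y₀ : X := (N x₀)⁻¹ • x₀ with hy₀
  have Nsc : ∀ x, 0 < N x → N ((N x)⁻¹ • x) = 1 := by
    intro x hx
    rw [map_smul_eq_mul, Real.norm_of_nonneg (inv_nonneg.mpr hx.le), inv_mul_cancel₀ hx.ne']
  have Cmem : ∀ y, N y ≤ 1 → y ∈ C := by
    intro y hy
    have := (gauge_le_one_iff_mem_closure Cconv C0).mp (show gauge C y ≤ 1 from hy)
    rwa [Cclosed.closure_eq] at this
  have hy₀C : y₀ ∈ C := Cmem y₀ (Nsc x₀ Npos).le
  obtain ⟨U, hUn, F, hF⟩ := hLF y₀ (C1 y₀ hy₀C)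
  have hle : ∀ y ∈ U, ∀ F', S F' y ≤ S F y := by
    intro y hy F'
    have h1 : S F' y = S (F' ∩ F) y := by
      simp only [hS]
      symm
      apply Finset.sum_subset Finset.inter_subset_left
      intro i hi hi2
      apply gzero
      apply hF y hy
      intro hiF
      exact hi2 (Finset.mem_inter.mpr ⟨hi, hiF⟩)
    rw [h1]
    exact Finset.sum_le_sum_of_subset_of_nonneg Finset.inter_subset_right fun i _ _ => gnn i y
  have hone : ∀ y, U ∈ 𝓝 y → N y = 1 → S F y = 1 := by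
    intro y hUy hNy
    have h1 : S F y ≤ 1 := Cmem y hNy.le F
    by_contra hne
    have hlt : S F y < 1 := lt_of_le_of_ne h1 hne
    have hct : Continuous (fun t : ℝ => t • y) := continuous_id.smul continuous_const
    have ht1 : Tendsto (fun t : ℝ => t • y) (𝓝 1) (𝓝 y) := by
      have := hct.tendsto 1
      simpa using this
    have hev : ∀ᶠ t : ℝ in 𝓝 1, S F (t • y) < 1 ∧ t • y ∈ U :=
      (((Ssm F).continuous.tendsto y).comp ht1 |>.eventually (gt_mem_nhds hlt)).and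
        (ht1.eventually hUy)
    have hev2 : ∀ᶠ t : ℝ in 𝓝[>] 1, S F (t • y) < 1 ∧ t • y ∈ U :=
      hev.filter_mono nhdsWithin_le_nhds
    obtain ⟨t, ht, ht2⟩ := (hev2.and self_mem_nhdsWithin).exists
    have ht3 : (1 : ℝ) < t := ht2
    have htC : t • y ∈ C := fun F' => (hle _ ht.2 F').trans ht.1.le
    have h2 : N (t • y) ≤ 1 := gauge_le_one_of_mem htC
    rw [map_smul_eq_mul, Real.norm_of_nonneg (by linarith), hNy] at h2
    linarith
  have hsc : ContinuousAt (fun x => (N x)⁻¹) x₀ := Ncont.continuousAt.inv₀ Npos.ne'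
  have hyc : Tendsto (fun x => (N x)⁻¹ • x) (𝓝 x₀) (𝓝 y₀) := hsc.smul continuousAt_id
  have hev : ∀ᶠ x in 𝓝 x₀, S F ((N x)⁻¹ • x) = 1 := by
    have hp1 : ∀ᶠ x in 𝓝 x₀, 0 < N x := (Ncont.tendsto x₀).eventually (lt_mem_nhds Npos)
    have hp2 : ∀ᶠ x in 𝓝 x₀, U ∈ 𝓝 ((N x)⁻¹ • x) :=
      hyc.eventually (eventually_mem_nhds_iff.mpr hUn)
    filter_upwards [hp1, hp2] with x hx1 hx2
    exact hone _ hx2 (Nsc x hx1)
  have hS0 : S F 0 = 0 := by
    refine Finset.sum_eq_zero fun i _ => gzero i 0 (hU 0 ?_ i)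
    rw [map_zero]
    exact hθ'.le
  have hSy : S F y₀ = 1 := hone y₀ hUn (Nsc x₀ Npos)
  have hdiff : HasFDerivAt (S F) (fderiv ℝ (S F) y₀) y₀ :=
    ((Ssm F).differentiable (by simp [CInf])).differentiableAt.hasFDerivAt
  have htan : 1 ≤ fderiv ℝ (S F) y₀ y₀ := by
    have hc1 : ConvexOn ℝ univ (fun t : ℝ => S F (t • y₀)) := by
      have := (Sconv F).comp_linearMap (LinearMap.toSpanSingleton ℝ X y₀)
      simpa [Function.comp_def] using this
    have hd1 : HasDerivAt (fun t : ℝ => S F (t • y₀)) (fderiv ℝ (S F) y₀ y₀) 1 := by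
      have h2 : HasDerivAt (fun t : ℝ => t • y₀) y₀ 1 := by
        simpa using (hasDerivAt_id (1 : ℝ)).smul_const y₀
      have h3 : HasFDerivAt (S F) (fderiv ℝ (S F) y₀) ((1 : ℝ) • y₀) := by
        rw [one_smul]
        exact hdiff
      exact h3.comp_hasDerivAt (1 : ℝ) h2
    have h4 := hc1.slope_le_of_hasDerivAt (mem_univ 0) (mem_univ 1) zero_lt_one hd1
    rw [slope_def_field] at h4
    simp only [one_smul, zero_smul, hSy, hS0] at h4
    simpa using h4
  have hfd : fderiv ℝ (S F) y₀ x₀ ≠ 0 := by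
    have h1 : x₀ = N x₀ • y₀ := by
      rw [hy₀, smul_inv_smul₀ Npos.ne']
    have h2 : fderiv ℝ (S F) y₀ x₀ = N x₀ * fderiv ℝ (S F) y₀ y₀ := by
      conv_lhs => rw [h1]
      rw [map_smul, smul_eq_mul]
    rw [h2]
    have : 0 < N x₀ * fderiv ℝ (S F) y₀ y₀ := mul_pos Npos (by linarith)
    exact this.ne'
  have hsmooth : ContDiffAt ℝ CInf (fun x => (N x)⁻¹) x₀ :=
    contDiffAt_scaling (S F) x₀ (fun x => (N x)⁻¹) hsc (Ssm F).contDiffAt hfd hev
  have h5 := hsmooth.inv (inv_ne_zero Npos.ne')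
  refine h5.congr_of_eventuallyEq (Eventually.of_forall fun x => ?_)
  simp

end Pool.Agent.SN
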