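import Pool.Agent.Helper74.SN.Separable

/-! SN-4c: transfer to complemented subspaces. -/

set_option autoImplicit false

namespace Pool.Agent.SN

open Set Filter Topology

/-- transfer of the separable case to a complemented subspace -/
theorem approx_of_separable {X : Type*} [NormedAddCommGroup X] [NormedSpace ℝ X]
    [CompleteSpace X] (ν g : Seminorm ℝ X) (hν : IsEquivNorm ν) (hs : IsSmoothNorm ν)
    (hg : IsEquivNorm g) (P : X →L[ℝ] X) (hP : ∀ x, P (P x) = P x)
    (h1 : TopologicalSpace.SeparableSpace (LinearMap.range P.toLinearMap))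
    (h2 : TopologicalSpace.SeparableSpace (StrongDual ℝ (LinearMap.range P.toLinearMap))) :
    Approx P g := by
  set Y : Submodule ℝ X := LinearMap.range P.toLinearMap with hY
  have hmem : ∀ x : X, x ∈ Y ↔ P x = x := by
    intro x
    constructor
    · rintro ⟨u, rfl⟩
      exact hP u
    · intro h
      exact ⟨x, h⟩
  have hclosed : IsClosed (Y : Set X) := by
    have h3 : (Y : Set X) = {x | P x = x} := by
      ext x
      exact hmem x
    rw [h3]
    exact isClosed_eq P.continuous continuous_id
  have : CompleteSpace Y := hclosed.completeSpace_coe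
  have hequiv : ∀ p : Seminorm ℝ X, IsEquivNorm p → IsEquivNorm (p.comp Y.subtype) := by
    rintro p ⟨c, hc, C, hC⟩
    exact ⟨c, hc, C, fun y => hC y⟩
  have hsmooth : IsSmoothNorm (ν.comp Y.subtype) := by
    intro y hy
    have hy' : (y : X) ≠ 0 := fun h => hy (Subtype.ext h)
    have h4 : ContDiffAt ℝ CInf (fun x : X => ν x) ((Y.subtypeL : Y →L[ℝ] X) y) :=
      hs.contDiffAt hy'
    exact (h4.comp y (Y.subtypeL.contDiff.contDiffAt)).contDiffWithinAt
  intro e he
  obtain ⟨N, hN, hNs⟩ := separable_case (ν.comp Y.subtype) (g.comp Y.subtype)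
    (hequiv ν hν) hsmooth (hequiv g hg) e he
  set Q : X →L[ℝ] Y := P.codRestrict Y (fun x => ⟨x, rfl⟩) with hQ
  have hQP : ∀ x, (Q x : X) = P x := fun x => rfl
  refine ⟨N.comp Q.toLinearMap, fun x => ?_, fun x hx => ?_⟩
  · exact hN (Q x)
  · have hQx : Q x ≠ 0 := by
      intro h
      apply hx
      rw [← hQP x, h]
      rfl
    have h5 : ContDiffAt ℝ CInf (fun y : Y => N y) (Q x) := hNs.contDiffAt hQx
    exact h5.comp x Q.contDiff.contDiffAt

end Pool.Agent.SN
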