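import Pool.Agent.Helper74.SN.Exists
import Pool.Agent.Helper74.SN.AllSets
import Pool.Agent.Helper74.SN.Transfer

/-! Final assembly. -/

set_option autoImplicit false

namespace Pool.Agent.SN

open Set Filter Topology

theorem main_thm (X : Type) [NormedAddCommGroup X] [NormedSpace ℝ X] [CompleteSpace X]
    (hW : ∃ K : Set (WeakSpace ℝ X), IsCompact K ∧
        Dense ((Submodule.span ℝ ((toWeakSpace ℝ X).symm '' K) : Submodule ℝ X) : Set X))
    (hns : ¬ TopologicalSpace.SeparableSpace X)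
    (hp : ∃ p : Seminorm ℝ X, IsEquivNorm p ∧ IsSmoothNorm p)
    (g : Seminorm ℝ X) (hg : IsEquivNorm g) (ε : ℝ) (hε : 0 < ε) :
    ∃ q : Seminorm ℝ X, IsEquivNorm q ∧ IsSmoothNorm q ∧ ∀ x : X, ‖x‖ ≤ 1 → |g x - q x| ≤ ε := by
  obtain ⟨K, hK, hd⟩ := hW
  obtain ⟨ν, hν, hs⟩ := hp
  have hKn : K.Nonempty := by
    rw [nonempty_iff_ne_empty]
    rintro rfl
    apply hns
    have h1 : (univ : Set X) ⊆ {0} := by
      intro x _
      have := hd x
      simpa using this
    exact ⟨⟨{0}, countable_singleton _, fun x => subset_closure (h1 (mem_univ x))⟩⟩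
  obtain ⟨W, PS, hid, hsep⟩ := exists_projSys K hK hKn hd ν g hν hs hg
  have hall := approx_all PS ν hν hs hg (fun S hS => approx_of_separable ν g hν hs hg (PS.P S)
    (fun x => PS.mul_left S S subset_rfl x) (hsep S hS).1 (hsep S hS).2) univ
  obtain ⟨c, hc, C, hC⟩ := hg
  obtain ⟨e, he, heC⟩ : ∃ e : ℝ, 0 < e ∧ e * |C| ≤ ε := by
    refine ⟨ε / (|C| + 1), by positivity, ?_⟩
    rw [div_mul_eq_mul_div, div_le_iff₀ (by positivity)]
    nlinarith [abs_nonneg C]
  obtain ⟨N, hN, hNs⟩ := hall e he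
  simp only [hid] at hN hNs
  refine ⟨N, ⟨c, hc, (1 + e) * C, fun x => ⟨(hC x).1.trans (hN x).1, ?_⟩⟩, ?_, ?_⟩
  · calc N x ≤ (1 + e) * g x := (hN x).2
      _ ≤ (1 + e) * (C * ‖x‖) := by gcongr; exact (hC x).2
      _ = (1 + e) * C * ‖x‖ := by ring
  · intro x hx
    exact (hNs x hx).contDiffWithinAt
  · intro x hx
    have h1 := (hN x).1
    have h2 := (hN x).2
    have h3 := (hC x).2
    rw [abs_le]
    constructor
    · have : C * ‖x‖ ≤ |C| := by
        calc C * ‖x‖ ≤ |C| * ‖x‖ := by gcongr; exact le_abs_self C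
          _ ≤ |C| * 1 := by gcongr
          _ = |C| := mul_one _
      nlinarith
    · linarith

end Pool.Agent.SN
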