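import Pool.Agent.Helper74.SN.Defs

/-! SN-4a: finite nets of functionals. -/

set_option autoImplicit false

namespace Pool.Agent.SN

open Set Filter Topology

/-- finite sets of functionals approximating all functionals near `b` on a finite-dimensional
subspace -/
theorem exists_net {Y : Type*} [NormedAddCommGroup Y] [NormedSpace ℝ Y] (E : Submodule ℝ Y)
    [FiniteDimensional ℝ E] (R : Set (StrongDual ℝ Y)) (hR : Bornology.IsBounded R) (τ : ℝ)
    (hτ : 0 < τ) :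
    ∃ Λ : Finset (StrongDual ℝ Y), (∀ f ∈ Λ, f ∈ R) ∧
      ∀ f ∈ R, ∃ f' ∈ Λ, ∀ y ∈ E, |f' y - f y| ≤ τ * ‖y‖ := by
  classical
  set ρ : StrongDual ℝ Y → StrongDual ℝ E := fun f => f.comp E.subtypeL with hρ
  have hρn : ∀ f, ‖ρ f‖ ≤ ‖f‖ := by
    intro f
    apply ContinuousLinearMap.opNorm_le_bound _ (norm_nonneg f)
    intro x
    exact f.le_opNorm (x : Y)
  obtain ⟨C, hC⟩ := hR.exists_norm_le
  have hb : Bornology.IsBounded (ρ '' R) := by
    refine isBounded_iff_forall_norm_le.2 ⟨C, ?_⟩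
    rintro _ ⟨f, hf, rfl⟩
    exact (hρn f).trans (hC f hf)
  have : FiniteDimensional ℝ (StrongDual ℝ E) := inferInstance
  have : ProperSpace (StrongDual ℝ E) := FiniteDimensional.proper_real (StrongDual ℝ E)
  have htb : TotallyBounded (ρ '' R) :=
    (hb.isCompact_closure.totallyBounded).subset subset_closure
  obtain ⟨t, ht, hfin, hcov⟩ := Metric.finite_approx_of_totallyBounded (α := StrongDual ℝ E) htb τ hτ
  have h : ∀ g ∈ t, ∃ f ∈ R, ρ f = g := fun g hg => ht hg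
  choose! F hF1 hF2 using h
  have hΛ1 : ∀ f ∈ hfin.toFinset.image F, f ∈ R := by
    intro f hf
    rw [Finset.mem_image] at hf
    obtain ⟨g, hg, rfl⟩ := hf
    exact hF1 g (hfin.mem_toFinset.1 hg)
  have hΛ2 : ∀ g ∈ t, ∃ f ∈ hfin.toFinset.image F, ρ f = g := fun g hg =>
    ⟨F g, Finset.mem_image.2 ⟨g, hfin.mem_toFinset.2 hg, rfl⟩, hF2 g hg⟩
  refine ⟨hfin.toFinset.image F, hΛ1, ?_⟩
  intro f hf
  have h1 := hcov ⟨f, hf, rfl⟩
  simp only [Set.mem_iUnion, Metric.mem_ball, exists_prop] at h1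
  obtain ⟨g, hg, hd⟩ := h1
  obtain ⟨f', hf', rfl⟩ := hΛ2 g hg
  refine ⟨f', hf', ?_⟩
  intro y hy
  have h2 : ‖(ρ f - ρ f') ⟨y, hy⟩‖ ≤ ‖ρ f - ρ f'‖ * ‖(⟨y, hy⟩ : E)‖ :=
    (ρ f - ρ f').le_opNorm _
  have hd : ‖ρ f - ρ f'‖ < τ := by
    have := hd
    rwa [dist_eq_norm (E := StrongDual ℝ E)] at this
  have h3 : (ρ f - ρ f') ⟨y, hy⟩ = f y - f' y := rfl
  rw [h3, Real.norm_eq_abs, abs_sub_comm] at h2
  refine h2.trans ?_
  exact mul_le_mul_of_nonneg_right hd.le (norm_nonneg y)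

end Pool.Agent.SN
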