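import Pool.Agent.Helper74.SN.Defs

/-! Systems of norming pairs. -/

set_option autoImplicit false

namespace Pool.Agent.SN

open Set Filter Topology

/-- A monotone and finitary system of pairs `(A S, B S)`, `A S ⊆ X` and `B S ⊆ X*`. -/
structure PairSys (X : Type*) [NormedAddCommGroup X] [NormedSpace ℝ X] (W : Type*)
    (g : Seminorm ℝ X) where
  A : Set W → Set X
  B : Set W → Set (StrongDual ℝ X)
  A_mono : ∀ S T : Set W, S ⊆ T → A S ⊆ A T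
  B_mono : ∀ S T : Set W, S ⊆ T → B S ⊆ B T
  A_fin : ∀ S : Set W, ∀ a ∈ A S, ∃ F : Set W, F.Finite ∧ F ⊆ S ∧ a ∈ A F
  B_fin : ∀ S : Set W, ∀ b ∈ B S, ∃ F : Set W, F.Finite ∧ F ⊆ S ∧ b ∈ B F
  A_zero : ∀ S : Set W, (0 : X) ∈ A S
  A_add : ∀ S : Set W, ∀ a ∈ A S, ∀ b ∈ A S, a + b ∈ A S
  A_smul : ∀ (S : Set W) (q : ℚ), ∀ a ∈ A S, (q : ℝ) • a ∈ A S
  norming : ∀ S : Set W, ∀ a ∈ A S, ∃ b ∈ B S, b a = g a ∧ ∀ x, |b x| ≤ g x
  total : ∀ (S : Set W) (f : StrongDual ℝ X), (∀ a ∈ A S, f a = 0) →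
    (∀ x : X, (∀ b ∈ B S, b x = 0) → f x = 0) → f = 0
  dual_dense : ∀ (S : Set W) (f : StrongDual ℝ X) (η : ℝ), 0 < η →
    ∃ b ∈ B S, ∀ y ∈ closure (A S), |f y - b y| ≤ η * ‖y‖
  A_countable : ∀ S : Set W, S.Countable → (A S).Countable
  B_countable : ∀ S : Set W, S.Countable → (B S).Countable

end Pool.Agent.SN
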