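import Pool.Agent.Helper74.SN.Defs

/-! SN-10: the projection determined by a norming pair. -/

set_option autoImplicit false

namespace Pool.Agent.SN

open Set Filter Topology

theorem proj_continuous {X : Type*} [NormedAddCommGroup X] [NormedSpace ℝ X]
    {p : Seminorm ℝ X} (hp : IsEquivNorm p) : Continuous (fun x => p x) := by
  obtain ⟨c, hc, C, hC⟩ := hp
  have h : LipschitzWith (Real.toNNReal |C|) (fun x => p x) := by
    apply LipschitzWith.of_dist_le_mul
    intro x y
    rw [Real.dist_eq, dist_eq_norm, Real.coe_toNNReal _ (abs_nonneg C)]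
    have h1 : |p x - p y| ≤ p (x - y) := abs_sub_map_le_sub p x y
    calc |p x - p y| ≤ p (x - y) := h1
      _ ≤ C * ‖x - y‖ := (hC _).2
      _ ≤ |C| * ‖x - y‖ := by gcongr; exact le_abs_self C
  exact h.continuous

/-- the closed subspace spanned by `A` -/
def projY {X : Type*} [NormedAddCommGroup X] [NormedSpace ℝ X] (A : Set X)
    (h0 : (0 : X) ∈ A) (hadd : ∀ a ∈ A, ∀ b ∈ A, a + b ∈ A)
    (hq : ∀ (q : ℚ), ∀ a ∈ A, (q : ℝ) • a ∈ A) : Submodule ℝ X where
  carrier := closure A
  zero_mem' := subset_closure h0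
  add_mem' := fun {a b} ha hb => map_mem_closure₂ continuous_add ha hb hadd
  smul_mem' := by
    intro r a ha
    have hr : r ∈ closure (Set.range ((↑) : ℚ → ℝ)) := by
      rw [Rat.denseRange_cast.closure_range]; trivial
    refine map_mem_closure₂ (continuous_fst.smul continuous_snd) hr ha ?_
    rintro _ ⟨q, rfl⟩ b hb
    exact hq q b hb

/-- the annihilator of `B` -/
def projZ {X : Type*} [NormedAddCommGroup X] [NormedSpace ℝ X] (B : Set (StrongDual ℝ X)) :
    Submodule ℝ X where
  carrier := {x | ∀ b ∈ B, b x = 0}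
  zero_mem' := by intro b _; simp
  add_mem' := by
    intro x y hx hy b hb
    rw [map_add, hx b hb, hy b hb, add_zero]
  smul_mem' := by
    intro r x hx b hb
    rw [map_smul, hx b hb, smul_zero]

theorem projZ_closed {X : Type*} [NormedAddCommGroup X] [NormedSpace ℝ X]
    (B : Set (StrongDual ℝ X)) : IsClosed (projZ B : Set X) := by
  have : (projZ B : Set X) = ⋂ b ∈ B, {x | b x = 0} := by
    ext x
    simp [projZ]
  rw [this]
  exact isClosed_biInter fun b _ => isClosed_eq b.continuous continuous_const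

theorem exists_proj {X : Type*} [NormedAddCommGroup X] [NormedSpace ℝ X] [CompleteSpace X]
    (g : Seminorm ℝ X) (hg : IsEquivNorm g) (A : Set X) (B : Set (StrongDual ℝ X))
    (h0 : (0 : X) ∈ A) (hadd : ∀ a ∈ A, ∀ b ∈ A, a + b ∈ A)
    (hq : ∀ (q : ℚ), ∀ a ∈ A, (q : ℝ) • a ∈ A)
    (hnorm : ∀ a ∈ A, ∃ b ∈ B, b a = g a ∧ ∀ x, |b x| ≤ g x)
    (hdense : ∀ f : StrongDual ℝ X, (∀ a ∈ A, f a = 0) →
      (∀ x : X, (∀ b ∈ B, b x = 0) → f x = 0) → f = 0) :
    ∃ P : X →L[ℝ] X, (∀ x, P x ∈ closure A) ∧ (∀ x ∈ closure A, P x = x) ∧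
      (∀ x, ∀ b ∈ B, b (P x) = b x) ∧ (∀ x, g (P x) ≤ g x) ∧
      ∀ y ∈ closure A, (∀ b ∈ B, b y = 0) → y = 0 := by
  have hgc := proj_continuous hg
  obtain ⟨c, hc, C, hC⟩ := hg
  let Y := projY A h0 hadd hq
  let Z := projZ B
  have hYc : IsClosed (Y : Set X) := isClosed_closure
  have hZc : IsClosed (Z : Set X) := projZ_closed B
  have : CompleteSpace Y := hYc.completeSpace_coe
  have : CompleteSpace Z := hZc.completeSpace_coe
  have hYZ : ∀ z ∈ Z, ∀ y ∈ closure A, g y ≤ g (y + z) := by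
    intro z hz
    have hcl : IsClosed {y : X | g y ≤ g (y + z)} :=
      isClosed_le hgc (hgc.comp (continuous_id.add continuous_const))
    apply closure_minimal _ hcl
    intro a ha
    obtain ⟨b, hb, hba, hbg⟩ := hnorm a ha
    show g a ≤ g (a + z)
    calc g a = b (a + z) := by rw [map_add, hz b hb, add_zero, hba]
      _ ≤ |b (a + z)| := le_abs_self _
      _ ≤ g (a + z) := hbg _
  have hlast : ∀ y ∈ closure A, (∀ b ∈ B, b y = 0) → y = 0 := by
    intro y hy hby
    have h1 := hYZ (-y) (by intro b hb; rw [map_neg, hby b hb, neg_zero]) y hy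
    rw [add_neg_cancel, map_zero] at h1
    have h2 := (hC y).1
    have h3 : ‖y‖ ≤ 0 := by
      by_contra h
      push Not at h
      have : 0 < c * ‖y‖ := by positivity
      linarith
    exact norm_le_zero_iff.1 h3
  -- the sum map
  let T : (Y × Z) →L[ℝ] X := Y.subtypeL.coprod Z.subtypeL
  have hT : ∀ y z, T (y, z) = (y : X) + (z : X) := fun y z => by simp [T]
  have hCpos : ∀ x : X, c * ‖x‖ ≤ |C| * ‖x‖ := fun x =>
    (hC x).1.trans ((hC x).2.trans (by gcongr; exact le_abs_self C))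
  have hanti : ∀ w : Y × Z, ‖w‖ ≤ (1 + |C| / c) * ‖T w‖ := by
    rintro ⟨y, z⟩
    rw [hT]
    have h1 : ‖(y : X)‖ ≤ |C| / c * ‖(y : X) + z‖ := by
      rw [div_mul_eq_mul_div, le_div_iff₀ hc]
      calc ‖(y : X)‖ * c = c * ‖(y : X)‖ := mul_comm _ _
        _ ≤ g y := (hC _).1
        _ ≤ g (y + z) := hYZ z z.2 y y.2
        _ ≤ C * ‖(y : X) + z‖ := (hC _).2
        _ ≤ |C| * ‖(y : X) + z‖ := by gcongr; exact le_abs_self C
    have h2 : ‖(z : X)‖ ≤ ‖(y : X) + z‖ + ‖(y : X)‖ := by
      have := norm_sub_le ((y : X) + z) (y : X)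
      rwa [add_sub_cancel_left] at this
    have h3 : 0 ≤ |C| / c := by positivity
    rw [Prod.norm_def, max_le_iff]
    have h4 : 0 ≤ ‖(y : X) + z‖ := norm_nonneg _
    constructor
    · calc ‖y‖ = ‖(y : X)‖ := rfl
        _ ≤ |C| / c * ‖(y : X) + z‖ := h1
        _ ≤ (1 + |C| / c) * ‖(y : X) + z‖ := by nlinarith
    · calc ‖z‖ = ‖(z : X)‖ := rfl
        _ ≤ ‖(y : X) + z‖ + ‖(y : X)‖ := h2
        _ ≤ (1 + |C| / c) * ‖(y : X) + z‖ := by nlinarith
  have hinj : LinearMap.ker (T : (Y × Z) →ₗ[ℝ] X) = ⊥ := by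
    rw [LinearMap.ker_eq_bot']
    intro w hw
    have h1 := hanti w
    have h2 : T w = 0 := hw
    rw [h2, norm_zero, mul_zero] at h1
    exact norm_le_zero_iff.1 h1
  have hclosed : IsClosed (range T) := by
    have hal : AntilipschitzWith (Real.toNNReal (1 + |C| / c)) T :=
      AddMonoidHomClass.antilipschitz_of_bound T (fun w => by
        rw [Real.coe_toNNReal _ (by positivity)]
        exact hanti w)
    exact hal.isClosed_range T.uniformContinuous
  have hsurj : LinearMap.range (T : (Y × Z) →ₗ[ℝ] X) = ⊤ := by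
    rw [LinearMap.range_eq_top]
    intro x
    by_contra hx
    have hx' : x ∉ (LinearMap.range (T : (Y × Z) →ₗ[ℝ] X) : Set X) := by
      rintro ⟨w, hw⟩
      exact hx ⟨w, hw⟩
    have hcl2 : IsClosed (LinearMap.range (T : (Y × Z) →ₗ[ℝ] X) : Set X) := by
      have : (LinearMap.range (T : (Y × Z) →ₗ[ℝ] X) : Set X) = range T := by
        ext u; simp
      rw [this]
      exact hclosed
    obtain ⟨f, u, hf1, hf2⟩ := geometric_hahn_banach_closed_point
      (Submodule.convex (LinearMap.range (T : (Y × Z) →ₗ[ℝ] X))) hcl2 hx'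
    have hu : 0 < u := by
      have := hf1 0 (Submodule.zero_mem _)
      rwa [map_zero] at this
    have hzero : ∀ v ∈ LinearMap.range (T : (Y × Z) →ₗ[ℝ] X), f v = 0 := by
      intro v hv
      by_contra hne
      have h1 := hf1 (((u + 1) / f v) • v) (Submodule.smul_mem _ _ hv)
      rw [map_smul, smul_eq_mul, div_mul_cancel₀ _ hne] at h1
      linarith
    have hf0 : f = 0 := by
      apply hdense f
      · intro a ha
        apply hzero
        exact ⟨(⟨a, subset_closure ha⟩, 0), by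
          show T (_, _) = a
          rw [hT]; simp⟩
      · intro z hz
        apply hzero
        exact ⟨(0, ⟨z, hz⟩), by
          show T (_, _) = z
          rw [hT]; simp⟩
    rw [hf0] at hf2
    have : (0 : StrongDual ℝ X) x = 0 := rfl
    rw [this] at hf2
    linarith
  let e := ContinuousLinearEquiv.ofBijective T hinj hsurj
  have he : ∀ w, e w = T w := fun w => rfl
  let P : X →L[ℝ] X := (Y.subtypeL.comp (ContinuousLinearMap.fst ℝ Y Z)).comp
    (e.symm : X →L[ℝ] (Y × Z))
  have hP : ∀ x, P x = ((e.symm x).1 : X) := fun x => rfl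
  have hdec : ∀ x, P x + ((e.symm x).2 : X) = x := by
    intro x
    rw [hP, ← hT]
    have : T ((e.symm x).1, (e.symm x).2) = e (e.symm x) := rfl
    rw [this, e.apply_symm_apply]
  refine ⟨P, fun x => (e.symm x).1.2, ?_, ?_, ?_, hlast⟩
  · intro x hx
    have h1 : e.symm x = ((⟨x, hx⟩ : Y), (0 : Z)) := by
      rw [ContinuousLinearEquiv.symm_apply_eq, he, hT]
      simp
    rw [hP, h1]
  · intro x b hb
    have h1 : b ((e.symm x).2 : X) = 0 := (e.symm x).2.2 b hb
    have h2 := congrArg b (hdec x)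
    rw [map_add, h1, add_zero] at h2
    exact h2
  · intro x
    have h1 := hYZ _ (e.symm x).2.2 _ (e.symm x).1.2
    have h2 := hdec x
    rw [hP] at h2
    rw [h2] at h1
    exact h1

end Pool.Agent.SN
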