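import Pool.Agent.Helper74.SN.Pair
import Pool.Agent.Helper74.SN.Proj

/-! SN-11a: the projection system of a system of norming pairs. -/

set_option autoImplicit false

namespace Pool.Agent.SN

open Set Filter Topology

section PairProj

variable {X : Type*} [NormedAddCommGroup X] [NormedSpace ℝ X] {W : Type*} {g : Seminorm ℝ X}

/-- the projections of the pairs -/
structure pp_Data (PR : PairSys X W g) (P : Set W → X →L[ℝ] X) (M : ℝ) : Prop where
  hM : 0 ≤ M
  bd : ∀ S x, ‖P S x‖ ≤ M * ‖x‖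
  mem : ∀ S x, P S x ∈ closure (PR.A S)
  fix : ∀ S, ∀ x ∈ closure (PR.A S), P S x = x
  inv : ∀ S x, ∀ b ∈ PR.B S, b (P S x) = b x
  le : ∀ S x, g (P S x) ≤ g x
  zero : ∀ S, ∀ y ∈ closure (PR.A S), (∀ b ∈ PR.B S, b y = 0) → y = 0

variable {PR : PairSys X W g} {P : Set W → X →L[ℝ] X} {M : ℝ}

lemma pp_Data.mul_right (h : pp_Data PR P M) (S T : Set W) (hST : S ⊆ T) (x : X) :
    P T (P S x) = P S x :=
  h.fix T _ (closure_mono (PR.A_mono S T hST) (h.mem S x))

lemma pp_Data.mul_left (h : pp_Data PR P M) (S T : Set W) (hST : S ⊆ T) (x : X) :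
    P S (P T x) = P S x := by
  have h1 : P S (P T x) - P S x = P S (P T x - x) := by rw [map_sub]
  have h2 : P S (P T x - x) = 0 := by
    refine h.zero S _ (h.mem S _) fun b hb => ?_
    rw [h.inv S _ b hb, map_sub, h.inv T x b (PR.B_mono S T hST hb), sub_self]
  rw [h2] at h1
  exact sub_eq_zero.mp h1

lemma pp_Data.approx (h : pp_Data PR P M) (S : Set W) (x : X) (ε : ℝ) (hε : 0 < ε) :
    ∃ F : Set W, F.Finite ∧ F ⊆ S ∧ ∀ T : Set W, F ⊆ T → T ⊆ S → ‖P T x - P S x‖ ≤ ε := by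
  have hM := h.hM
  obtain ⟨a, ha, hax⟩ := Metric.mem_closure_iff.mp (h.mem S x) (ε / (M + 1)) (by positivity)
  obtain ⟨F, hF, hFS, haF⟩ := PR.A_fin S a ha
  refine ⟨F, hF, hFS, fun T hFT hTS => ?_⟩
  have haT : P T a = a := h.fix T a (subset_closure (PR.A_mono F T hFT haF))
  have e1 : P T x - P S x = P T (P S x - a) + (a - P S x) := by
    rw [map_sub, h.mul_left T S hTS, haT]
    abel
  rw [dist_eq_norm] at hax
  rw [e1]
  calc ‖P T (P S x - a) + (a - P S x)‖ ≤ ‖P T (P S x - a)‖ + ‖a - P S x‖ := norm_add_le _ _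
    _ ≤ M * ‖P S x - a‖ + ‖P S x - a‖ := by
        gcongr
        · exact h.bd T _
        · rw [norm_sub_rev]
    _ = (M + 1) * ‖P S x - a‖ := by ring
    _ ≤ (M + 1) * (ε / (M + 1)) := by gcongr
    _ = ε := by field_simp

lemma pp_Data.approx_dual (h : pp_Data PR P M) (S : Set W) (f : StrongDual ℝ X) (ε : ℝ)
    (hε : 0 < ε) :
    ∃ F : Set W, F.Finite ∧ F ⊆ S ∧ ∀ T : Set W, F ⊆ T → T ⊆ S →
      ‖f.comp (P T) - f.comp (P S)‖ ≤ ε := by
  have hM := h.hM
  obtain ⟨b, hb, hbf⟩ := PR.dual_dense S f (ε / (2 * M + 1)) (by positivity)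
  obtain ⟨F, hF, hFS, hbF⟩ := PR.B_fin S b hb
  refine ⟨F, hF, hFS, fun T hFT hTS => ?_⟩
  refine ContinuousLinearMap.opNorm_le_bound _ hε.le fun x => ?_
  have e1 : (f.comp (P T) - f.comp (P S)) x =
      (f (P T x) - b (P T x)) - (f (P S x) - b (P S x)) := by
    simp only [_root_.sub_apply, ContinuousLinearMap.comp_apply]
    rw [h.inv T x b (PR.B_mono F T hFT hbF), h.inv S x b hb]
    ring
  have h1 := hbf (P T x) (closure_mono (PR.A_mono T S hTS) (h.mem T x))
  have h2 := hbf (P S x) (h.mem S x)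
  rw [e1, Real.norm_eq_abs]
  calc |(f (P T x) - b (P T x)) - (f (P S x) - b (P S x))|
      ≤ |f (P T x) - b (P T x)| + |f (P S x) - b (P S x)| := abs_sub _ _
    _ ≤ ε / (2 * M + 1) * (M * ‖x‖) + ε / (2 * M + 1) * (M * ‖x‖) := by
        have h3 := h.bd T x
        have h4 := h.bd S x
        refine add_le_add (h1.trans ?_) (h2.trans ?_) <;> gcongr
    _ = (2 * M / (2 * M + 1)) * ε * ‖x‖ := by ring
    _ ≤ 1 * ε * ‖x‖ := by
        gcongr
        rw [div_le_one (by positivity)]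
        linarith
    _ = ε * ‖x‖ := by ring

lemma pp_Data.range_eq (h : pp_Data PR P M) (S : Set W) (x : X)
    (hx : x ∈ LinearMap.range (P S).toLinearMap) : x ∈ closure (PR.A S) ∧ P S x = x := by
  obtain ⟨y, rfl⟩ := hx
  exact ⟨h.mem S y, h.mul_right S S le_rfl y⟩

lemma pp_Data.sep (h : pp_Data PR P M) (S : Set W) (hS : S.Countable) :
    TopologicalSpace.SeparableSpace (LinearMap.range (P S).toLinearMap) := by
  have h1 : TopologicalSpace.IsSeparable (closure (PR.A S)) :=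
    (PR.A_countable S hS).isSeparable.closure
  have h2 : TopologicalSpace.IsSeparable
      ((LinearMap.range (P S).toLinearMap : Submodule ℝ X) : Set X) :=
    h1.mono fun x hx => (h.range_eq S x hx).1
  exact h2.separableSpace

lemma pp_sep_dual_aux (PR : PairSys X W g) (S : Set W) (hS : S.Countable) (Y : Submodule ℝ X)
    (Q : X →L[ℝ] Y) (hQ : ∀ y : Y, Q y = y) (hY : ∀ y : Y, (y : X) ∈ closure (PR.A S)) :
    TopologicalSpace.SeparableSpace (StrongDual ℝ Y) := by
  have key : ∀ (f' : StrongDual ℝ Y), ∀ r > 0, (Metric.ball f' r ∩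
      (fun b : StrongDual ℝ X => b.comp Y.subtypeL) '' PR.B S).Nonempty := by
    intro f' r hr
    obtain ⟨b, hb, hbf⟩ := PR.dual_dense S (f'.comp Q) (r / 2) (by positivity)
    refine ⟨b.comp Y.subtypeL, ?_, ⟨b, hb, rfl⟩⟩
    have hd : dist (b.comp Y.subtypeL) f' = ‖b.comp Y.subtypeL - f'‖ :=
      dist_eq_norm (b.comp Y.subtypeL) f'
    refine lt_of_le_of_lt hd.le (lt_of_le_of_lt (ContinuousLinearMap.opNorm_le_bound _ (by positivity : 0 ≤ r / 2)
      fun y => ?_) (by linarith))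
    have h3 := hbf y.1 (hY y)
    rw [ContinuousLinearMap.comp_apply, hQ y] at h3
    rw [_root_.sub_apply, Real.norm_eq_abs, abs_sub_comm]
    exact h3
  exact ⟨⟨_, (PR.B_countable S hS).image _, Metric.dense_iff.mpr key⟩⟩

lemma pp_Data.sep_dual (h : pp_Data PR P M) (S : Set W) (hS : S.Countable) :
    TopologicalSpace.SeparableSpace
      (StrongDual ℝ (LinearMap.range (P S).toLinearMap)) :=
  pp_sep_dual_aux PR S hS _ ((P S).codRestrict _ fun x => ⟨x, rfl⟩)
    (fun y => Subtype.ext (h.range_eq S y.1 y.2).2) fun y => (h.range_eq S y.1 y.2).1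

end PairProj

theorem projSys_of_pairSys {X : Type*} [NormedAddCommGroup X] [NormedSpace ℝ X]
    [CompleteSpace X] {W : Type*} {g : Seminorm ℝ X} (hg : IsEquivNorm g)
    (PR : PairSys X W g) :
    ∃ PS : ProjSys X W g, (∀ S, PR.A S = univ → ∀ x, PS.P S x = x) ∧
      ∀ S : Set W, S.Countable →
        TopologicalSpace.SeparableSpace (LinearMap.range (PS.P S).toLinearMap) ∧
        TopologicalSpace.SeparableSpace
          (StrongDual ℝ (LinearMap.range (PS.P S).toLinearMap)) := by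
  obtain ⟨c, hc, C, hC⟩ := id hg
  choose P h1 h2 h3 h4 h5 using fun S => exists_proj g hg (PR.A S) (PR.B S) (PR.A_zero S)
    (PR.A_add S) (PR.A_smul S) (PR.norming S) (PR.total S)
  have hd : pp_Data PR P (|C| / c) := by
    refine ⟨by positivity, fun S x => ?_, h1, h2, h3, h4, h5⟩
    rw [div_mul_eq_mul_div, le_div_iff₀ hc, mul_comm]
    calc c * ‖P S x‖ ≤ g (P S x) := (hC _).1
      _ ≤ g x := h4 S x
      _ ≤ C * ‖x‖ := (hC _).2
      _ ≤ |C| * ‖x‖ := by gcongr; exact le_abs_self C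
  refine ⟨⟨P, hd.mul_left, hd.mul_right, h4, hd.approx, hd.approx_dual⟩, fun S hS x => ?_,
    fun S hS => ⟨hd.sep S hS, hd.sep_dual S hS⟩⟩
  exact h2 S x (by rw [hS, closure_univ]; trivial)

end Pool.Agent.SN
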