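import Pool.Agent.Helper74.SN.Defs

/-! SN-3a: partial minimisation over a finite-dimensional subspace. -/

set_option autoImplicit false

namespace Pool.Agent.SN

open Set Filter Topology

section pmin

variable {Y : Type*} [NormedAddCommGroup Y] [NormedSpace ℝ Y]

theorem pmin_exists (E : Submodule ℝ Y) [FiniteDimensional ℝ E] (Θ : Y → ℝ)
    (hΘ : Continuous Θ)
    (hcoer : ∀ x : Y, ∀ M : ℝ, ∃ R : ℝ, ∀ e ∈ E, Θ (x - e) ≤ M → ‖e‖ ≤ R) (x : Y) :
    ∃ e : E, ∀ e' : E, Θ (x - e) ≤ Θ (x - e') := by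
  obtain ⟨R, hR⟩ := hcoer x (Θ x)
  have h0 : (0 : ℝ) ≤ R := by
    have := hR 0 E.zero_mem (by simp)
    simpa using this
  have hc : Continuous fun e : E => Θ (x - e) := by fun_prop
  obtain ⟨e, _, hmin⟩ := (isCompact_closedBall (0 : E) R).exists_isMinOn
    ⟨0, by simpa using h0⟩ hc.continuousOn
  refine ⟨e, fun e' => ?_⟩
  by_cases h : ‖(e' : Y)‖ ≤ R
  · exact hmin (by simpa using h)
  · have h1 : Θ x < Θ (x - e') := by
      by_contra hcon
      exact h (hR e' e'.2 (not_lt.1 hcon))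
    have h2 : Θ (x - e) ≤ Θ (x - (0 : E)) := hmin (by simpa using h0)
    simp only [ZeroMemClass.coe_zero, sub_zero] at h2
    exact h2.trans h1.le

theorem pmin_crit (E : Submodule ℝ Y) (Θ : Y → ℝ) (hΘ : Differentiable ℝ Θ) (x : Y) (e : E)
    (he : ∀ e' : E, Θ (x - e) ≤ Θ (x - e')) (k : E) : fderiv ℝ Θ (x - e) (k : Y) = 0 := by
  have h1 : HasDerivAt (fun t : ℝ => Θ (x - e - t • (k : Y))) (fderiv ℝ Θ (x - e) (-(k : Y))) 0 := by
    have h2 : HasDerivAt (fun t : ℝ => x - e - t • (k : Y)) (-(k : Y)) 0 := by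
      have := ((hasDerivAt_id (0 : ℝ)).smul_const (k : Y)).const_sub (x - e)
      simpa using this
    have h3 : HasFDerivAt Θ (fderiv ℝ Θ (x - e)) (x - e - (0 : ℝ) • (k : Y)) := by
      simpa using (hΘ (x - e)).hasFDerivAt
    exact h3.comp_hasDerivAt (0 : ℝ) h2
  have h4 : IsLocalMin (fun t : ℝ => Θ (x - e - t • (k : Y))) 0 := by
    refine Filter.Eventually.of_forall fun t => ?_
    have := he (e + t • k)
    have h6 : x - (e : Y) - t • (k : Y) = x - ((e + t • k : E) : Y) := by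
      push_cast
      abel
    simp only [zero_smul, sub_zero]
    rw [h6]
    exact this
  have h5 := h4.hasDerivAt_eq_zero h1
  simpa using h5

/-- critical points are unique -/
theorem pmin_unique (E : Submodule ℝ Y) (Θ : Y → ℝ) (hΘ : ContDiff ℝ CInf Θ)
    (hpos : ∀ x : Y, ∀ e ∈ E, e ≠ 0 → 0 < fderiv ℝ (fderiv ℝ Θ) x e e) (x : Y) (e e' : E)
    (he : ∀ k : E, fderiv ℝ Θ (x - e) (k : Y) = 0)
    (he' : ∀ k : E, fderiv ℝ Θ (x - e') (k : Y) = 0) : e = e' := by
  by_contra hne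
  set d : E := e' - e with hd
  have hd0 : (d : Y) ≠ 0 := by
    intro h
    apply hne
    have : d = 0 := by exact_mod_cast h
    rw [hd, sub_eq_zero] at this
    exact this.symm
  have hdiff : Differentiable ℝ (fderiv ℝ Θ) :=
    (hΘ.fderiv_right (m := CInf) (by simp)).differentiable (by simp)
  have h1 : ∀ t : ℝ, HasDerivAt (fun t : ℝ => fderiv ℝ Θ (x - e - t • (d : Y)) (d : Y))
      (-(fderiv ℝ (fderiv ℝ Θ) (x - e - t • (d : Y)) (d : Y) (d : Y))) t := by
    intro t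
    have h2 : HasDerivAt (fun t : ℝ => x - e - t • (d : Y)) (-(d : Y)) t := by
      have := ((hasDerivAt_id t).smul_const (d : Y)).const_sub (x - e)
      simpa using this
    have h3 := (hdiff (x - e - t • (d : Y))).hasFDerivAt.comp_hasDerivAt t h2
    have h4 := h3.clm_apply (hasDerivAt_const t (d : Y))
    simpa using h4
  have h5 : StrictAnti (fun t : ℝ => fderiv ℝ Θ (x - e - t • (d : Y)) (d : Y)) := by
    apply strictAnti_of_deriv_neg
    intro t
    rw [(h1 t).deriv]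
    have := hpos (x - e - t • (d : Y)) d d.2 hd0
    linarith
  have h6 := h5 (zero_lt_one : (0 : ℝ) < 1)
  simp only [zero_smul, sub_zero, one_smul] at h6
  rw [he d] at h6
  have h7 : x - (e : Y) - (d : Y) = x - e' := by
    rw [hd]; push_cast; abel
  rw [h7, he' d] at h6
  exact lt_irrefl _ h6

end pmin

/-- partial minimisation of a smooth convex function over a finite-dimensional subspace -/
theorem contDiff_partial_min {Y : Type*} [NormedAddCommGroup Y] [NormedSpace ℝ Y]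
    [CompleteSpace Y] (E : Submodule ℝ Y) [FiniteDimensional ℝ E] (Θ : Y → ℝ)
    (hΘ : ContDiff ℝ CInf Θ) (hconv : ConvexOn ℝ univ Θ)
    (hpos : ∀ x : Y, ∀ e ∈ E, e ≠ 0 → 0 < fderiv ℝ (fderiv ℝ Θ) x e e)
    (hcoer : ∀ x : Y, ∀ M : ℝ, ∃ R : ℝ, ∀ e ∈ E, Θ (x - e) ≤ M → ‖e‖ ≤ R) :
    ∃ ρ : Y → ℝ, ContDiff ℝ CInf ρ ∧ ConvexOn ℝ univ ρ ∧ (∀ x, ∀ e ∈ E, ρ x ≤ Θ (x - e)) ∧
      ∀ x, ∃ e ∈ E, ρ x = Θ (x - e) := by
  have hdΘ : Differentiable ℝ Θ := hΘ.differentiable (by simp)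
  have hd1 : ContDiff ℝ CInf (fderiv ℝ Θ) := hΘ.fderiv_right (m := CInf) (by simp)
  have hdd : Differentiable ℝ (fderiv ℝ Θ) := hd1.differentiable (by simp)
  choose m hm using pmin_exists E Θ hΘ.continuous hcoer
  have hcrit : ∀ x, ∀ k : E, fderiv ℝ Θ (x - m x) (k : Y) = 0 := fun x k =>
    pmin_crit E Θ hdΘ x (m x) (hm x) k
  have huniq : ∀ x, ∀ e : E, (∀ k : E, fderiv ℝ Θ (x - e) (k : Y) = 0) → e = m x := fun x e he =>
    pmin_unique E Θ hΘ hpos x e (m x) he (hcrit x)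
  refine ⟨fun x => Θ (x - m x), ?_, ?_, ?_, ?_⟩
  · rw [contDiff_iff_contDiffAt]
    intro x₀
    -- the equation
    let G : Y × E → (E →L[ℝ] ℝ) := fun p => (fderiv ℝ Θ (p.1 - p.2)).comp E.subtypeL
    have hG : ContDiff ℝ CInf G := by
      have h1 : ContDiff ℝ CInf fun p : Y × E => p.1 - E.subtypeL p.2 := by fun_prop
      exact (hd1.comp h1).clm_comp contDiff_const
    have hGat : ContDiffAt ℝ CInf G (x₀, m x₀) := hG.contDiffAt
    have hG0 : ∀ x, G (x, m x) = 0 := by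
      intro x
      ext k
      exact hcrit x k
    -- the partial derivative
    have hGder : HasFDerivAt G ((ContinuousLinearMap.precomp ℝ E.subtypeL) ∘L
        ((fderiv ℝ (fderiv ℝ Θ) (x₀ - m x₀)) ∘L (ContinuousLinearMap.fst ℝ Y E -
          E.subtypeL ∘L (ContinuousLinearMap.snd ℝ Y E)))) (x₀, m x₀) := by
      have h1 : HasFDerivAt (fun p : Y × E => p.1 - E.subtypeL p.2)
          (ContinuousLinearMap.fst ℝ Y E - E.subtypeL ∘L (ContinuousLinearMap.snd ℝ Y E))
          (x₀, m x₀) :=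
        (ContinuousLinearMap.fst ℝ Y E - E.subtypeL ∘L
          (ContinuousLinearMap.snd ℝ Y E)).hasFDerivAt
      have h2 : HasFDerivAt (fderiv ℝ Θ) (fderiv ℝ (fderiv ℝ Θ) (x₀ - m x₀))
          ((fun p : Y × E => p.1 - E.subtypeL p.2) (x₀, m x₀)) := (hdd (x₀ - m x₀)).hasFDerivAt
      have h3 := h2.comp (x₀, m x₀) h1
      have h4 : HasFDerivAt (ContinuousLinearMap.precomp ℝ E.subtypeL :
          (Y →L[ℝ] ℝ) →L[ℝ] (E →L[ℝ] ℝ)) (ContinuousLinearMap.precomp ℝ E.subtypeL)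
          ((fderiv ℝ Θ ∘ fun p : Y × E => p.1 - E.subtypeL p.2) (x₀, m x₀)) :=
        ContinuousLinearMap.hasFDerivAt _
      exact HasFDerivAt.comp (E := Y × E) (F := Y →L[ℝ] ℝ) (G := E →L[ℝ] ℝ) (x₀, m x₀) h4 h3
    have hder : ∀ k k' : E, (fderiv ℝ G (x₀, m x₀) ∘L .inr ℝ Y E) k k' =
        -(fderiv ℝ (fderiv ℝ Θ) (x₀ - m x₀) (k : Y) (k' : Y)) := by
      intro k k'
      rw [hGder.fderiv]
      simp
    have hinj : Function.Injective (fderiv ℝ G (x₀, m x₀) ∘L .inr ℝ Y E) := by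
      rw [injective_iff_map_eq_zero]
      intro k hk
      by_contra hne
      have h1 := hder k k
      rw [hk] at h1
      have h2 := hpos (x₀ - m x₀) k k.2 (by exact_mod_cast hne)
      simp only [zero_apply] at h1
      linarith
    have hinv : (fderiv ℝ G (x₀, m x₀) ∘L .inr ℝ Y E).IsInvertible := by
      have hfr : Module.finrank ℝ E = Module.finrank ℝ (E →L[ℝ] ℝ) := by
        rw [← Subspace.dual_finrank_eq (K := ℝ) (V := E)]
        exact (LinearMap.toContinuousLinearMap (𝕜 := ℝ) (E := E) (F' := ℝ)).finrank_eq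
      let L : E ≃ₗ[ℝ] (E →L[ℝ] ℝ) := LinearMap.linearEquivOfInjective
        (fderiv ℝ G (x₀, m x₀) ∘L .inr ℝ Y E).toLinearMap hinj hfr
      refine ⟨L.toContinuousLinearEquiv, ?_⟩
      ext k k'
      rfl
    have hψ := hGat.contDiffAt_implicitFunction (by simp) hinv
    have hev := hGat.eventually_apply_implicitFunction (by simp) hinv
    have heq : ∀ᶠ x in 𝓝 x₀, hGat.implicitFunction (by simp) hinv x = m x := by
      filter_upwards [hev] with x hx
      apply huniq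
      intro k
      rw [hG0] at hx
      have := congrArg (fun L : E →L[ℝ] ℝ => L k) hx
      simpa [G] using this
    have hm' : ContDiffAt ℝ CInf m x₀ := hψ.congr_of_eventuallyEq (by
      filter_upwards [heq] with x hx
      exact hx.symm)
    have h9 : ContDiffAt ℝ CInf (fun x => x - E.subtypeL (m x)) x₀ :=
      contDiffAt_id.sub (E.subtypeL.contDiff.contDiffAt.comp x₀ hm')
    exact hΘ.contDiffAt.comp x₀ h9
  · refine ⟨convex_univ, ?_⟩
    intro x _ y _ a b ha hb hab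
    have h1 := hm (a • x + b • y) (a • m x + b • m y)
    have h2 := hconv.2 (mem_univ (x - m x)) (mem_univ (y - m y)) ha hb hab
    refine h1.trans (le_trans (le_of_eq ?_) h2)
    congr 1
    push_cast
    simp only [smul_sub]
    abel
  · intro x e he
    exact hm x ⟨e, he⟩
  · intro x
    exact ⟨m x, (m x).2, rfl⟩

end Pool.Agent.SN
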