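import Pool.Agent.Helper74.SN.Defs

/-! Restriction of a functional to a set of the weak space. -/

set_option autoImplicit false

namespace Pool.Agent.SN

open Set Filter Topology

/-- the restriction of a functional to a set of the weak space -/
noncomputable def restr {X : Type*} [NormedAddCommGroup X] [NormedSpace ℝ X]
    (K : Set (WeakSpace ℝ X)) (f : StrongDual ℝ X) : C(K, ℝ) where
  toFun x := f ((toWeakSpace ℝ X).symm x.1)
  continuous_toFun := by
    have h : Continuous fun x : WeakSpace ℝ X => f ((toWeakSpace ℝ X).symm x) :=
      WeakBilin.eval_continuous (topDualPairing ℝ X).flip f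
    exact h.comp continuous_subtype_val

end Pool.Agent.SN
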