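import Pool.Agent.Helper74.SN.Scalar
import Pool.Agent.Helper74.SN.Comp
import Pool.Agent.Helper74.SN.PartialMin

/-! SN-3b: smooth approximation of the distance to a finite-dimensional subspace. -/

set_option autoImplicit false

namespace Pool.Agent.SN

open Set Filter Topology

section rhoAux

variable {Y : Type*} [NormedAddCommGroup Y] [NormedSpace ℝ Y]

theorem rho_infty_add : (CInf : WithTop ℕ∞) + 1 ≤ CInf := by
  change ((⊤ : ℕ∞) : WithTop ℕ∞) + 1 ≤ ((⊤ : ℕ∞) : WithTop ℕ∞)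
  rfl

/-- the first derivative of a smooth function is smooth -/
theorem rho_fderiv_contDiff {F : Type*} [NormedAddCommGroup F] [NormedSpace ℝ F] {f : Y → F}
    (hf : ContDiff ℝ CInf f) : ContDiff ℝ CInf (fderiv ℝ f) :=
  hf.fderiv_right rho_infty_add

theorem rho_differentiable {F : Type*} [NormedAddCommGroup F] [NormedSpace ℝ F] {f : Y → F}
    (hf : ContDiff ℝ CInf f) : Differentiable ℝ f :=
  hf.differentiable (by simp [CInf])

/-- derivative along a line -/
theorem rho_line {F : Type*} [NormedAddCommGroup F] [NormedSpace ℝ F] {f : Y → F}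
    (hf : Differentiable ℝ f) (x e : Y) (t : ℝ) :
    HasDerivAt (fun t : ℝ => f (x + t • e)) (fderiv ℝ f (x + t • e) e) t := by
  have h1 : HasDerivAt (fun t : ℝ => x + t • e) e t := by
    have := ((hasDerivAt_id t).smul_const e).const_add x
    simpa using this
  exact (hf (x + t • e)).hasFDerivAt.comp_hasDerivAt t h1

theorem rho_second_nonneg {f : Y → ℝ} (hf : ContDiff ℝ CInf f) (hc : ConvexOn ℝ univ f)
    (x e : Y) : 0 ≤ fderiv ℝ (fderiv ℝ f) x e e := by
  have hd := rho_differentiable hf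
  have hconv : ConvexOn ℝ univ (fun t : ℝ => f (x + t • e)) := by
    refine ⟨convex_univ, fun s _ t _ a b ha hb hab => ?_⟩
    have h2 : x + (a • s + b • t) • e = a • (x + s • e) + b • (x + t • e) := by
      have h3 : x = a • x + b • x := by rw [← add_smul, hab, one_smul]
      conv_lhs => rw [h3]
      simp only [smul_add, add_smul, smul_smul, smul_eq_mul]
      abel
    change f (x + (a • s + b • t) • e) ≤ _
    rw [h2]
    exact hc.2 (mem_univ _) (mem_univ _) ha hb hab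
  have hder : deriv (fun t : ℝ => f (x + t • e)) = fun t => fderiv ℝ f (x + t • e) e := by
    funext t
    exact (rho_line hd x e t).deriv
  have hmono : Monotone (fun t : ℝ => fderiv ℝ f (x + t • e) e) := by
    have h4 := hconv.monotoneOn_deriv fun t _ => (rho_line hd x e t).differentiableAt
    rw [hder] at h4
    exact monotoneOn_univ.mp h4
  have hd2 : Differentiable ℝ (fderiv ℝ f) := rho_differentiable (rho_fderiv_contDiff hf)
  have h5 := rho_line hd2 x e 0
  have h6 : HasDerivAt (fun t : ℝ => fderiv ℝ f (x + t • e) e)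
      (fderiv ℝ (fderiv ℝ f) (x + (0 : ℝ) • e) e e) 0 := by
    exact (ContinuousLinearMap.apply ℝ ℝ e).hasFDerivAt.comp_hasDerivAt (0 : ℝ) h5
  have h8 := h6.nonneg_of_monotone hmono
  simpa using h8

/-- the quadratic part -/
theorem rho_quad_fderiv {H : Type*} [NormedAddCommGroup H] [InnerProductSpace ℝ H]
    (A : Y →L[ℝ] H) (k : ℝ) (x e : Y) :
    fderiv ℝ (fderiv ℝ (fun z => k * ‖A z‖ ^ 2)) x e e = 2 * k * ‖A e‖ ^ 2 := by
  have h1 : ∀ z : Y, HasFDerivAt (fun z => k * ‖A z‖ ^ 2)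
      (k • (2 • (innerSL ℝ (A z)).comp A)) z := by
    intro z
    exact (A.hasFDerivAt.norm_sq).const_mul k
  have h2 : fderiv ℝ (fun z => k * ‖A z‖ ^ 2) =
      fun z => (k • (2 • (innerSL ℝ (A z)).comp A)) := by
    funext z
    exact (h1 z).fderiv
  rw [h2]
  -- the map is linear in `z`
  have hd : Differentiable ℝ (fun z : Y => (k • (2 • (innerSL ℝ (A z)).comp A))) := by
    rw [← h2]
    exact rho_differentiable (rho_fderiv_contDiff (contDiff_const.mul (A.contDiff.norm_sq ℝ)))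
  have h3 := (ContinuousLinearMap.apply ℝ ℝ e).hasFDerivAt.comp_hasDerivAt (0 : ℝ)
    (rho_line hd x e 0)
  have h4 : HasDerivAt (fun t : ℝ => k * (2 * inner ℝ (A (x + t • e)) (A e)))
      (k * (2 * (‖A e‖ ^ 2))) 0 := by
    have h5 : ∀ t : ℝ, k * (2 * inner ℝ (A (x + t • e)) (A e)) =
        k * (2 * inner ℝ (A x) (A e)) + t * (k * (2 * ‖A e‖ ^ 2)) := by
      intro t
      rw [map_add, map_smul, inner_add_left, real_inner_smul_left, real_inner_self_eq_norm_sq]
      ring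
    simp_rw [h5]
    have := ((hasDerivAt_id (0 : ℝ)).mul_const (k * (2 * ‖A e‖ ^ 2))).const_add
      (k * (2 * inner ℝ (A x) (A e)))
    simpa using this
  have h6 : (fun t : ℝ => k * (2 * inner ℝ (A (x + t • e)) (A e))) =
      ((ContinuousLinearMap.apply ℝ ℝ e) ∘ fun t : ℝ =>
        (k • (2 • (innerSL ℝ (A (x + t • e))).comp A))) := by
    funext t
    change k * (2 * inner ℝ (A (x + t • e)) (A e)) =
      k • ((2 : ℕ) • inner ℝ (A (x + t • e)) (A e))
    rw [smul_eq_mul, nsmul_eq_mul]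
    norm_num
  rw [h6] at h4
  have h7 := h3.unique h4
  simp only [zero_smul, add_zero, ContinuousLinearMap.apply_apply] at h7
  rw [h7]
  ring

theorem rho_quad_convex {H : Type*} [NormedAddCommGroup H] [InnerProductSpace ℝ H]
    (A : Y →L[ℝ] H) (k : ℝ) (hk : 0 ≤ k) : ConvexOn ℝ univ (fun z => k * ‖A z‖ ^ 2) := by
  have h1 : ConvexOn ℝ univ (fun z : Y => ‖A z‖) := by
    have := (convexOn_univ_norm (E := H)).comp_linearMap (A : Y →ₗ[ℝ] H)
    simpa [Function.comp_def] using this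
  have h2 : ConvexOn ℝ univ (fun z : Y => ‖A z‖ ^ 2) := by
    exact h1.pow (fun z _ => norm_nonneg _) 2
  have h3 := h2.smul hk
  simpa [smul_eq_mul] using h3

end rhoAux

theorem exists_rho {Y : Type*} [NormedAddCommGroup Y] [NormedSpace ℝ Y] [CompleteSpace Y]
    (ν : Seminorm ℝ Y) (hν : IsEquivNorm ν) (hs : IsSmoothNorm ν) (E : Submodule ℝ Y)
    [FiniteDimensional ℝ E] (δ R : ℝ) (hδ : 0 < δ) :
    ∃ ρ : Y → ℝ, ContDiff ℝ CInf ρ ∧ ConvexOn ℝ univ ρ ∧ (∀ x, ρ (-x) = ρ x) ∧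
      (∀ x, ∃ e ∈ E, ν (x - e) ≤ ρ x + δ) ∧
      (∀ x, ν x ≤ R → ∀ e ∈ E, ρ x ≤ ν (x - e) + δ) := by
  obtain ⟨c, hc, C, hC⟩ := id hν
  obtain ⟨φ, hφs, hφc, hφm, hφ0, hφn, hφt, -⟩ := exists_phi (δ / 4) (by positivity)
  obtain ⟨P, hP⟩ := Submodule.ClosedComplemented.of_finiteDimensional (𝕜 := ℝ) E
  set A : Y →L[ℝ] EuclideanSpace ℝ (Fin (Module.finrank ℝ E)) :=
    (toEuclidean (E := E) : E →L[ℝ] EuclideanSpace ℝ (Fin (Module.finrank ℝ E))).comp P with hA
  have hAe : ∀ e ∈ E, e ≠ 0 → A e ≠ 0 := by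
    intro e he hne h0
    have h1 : P e = ⟨e, he⟩ := hP ⟨e, he⟩
    have h2 : toEuclidean (P e) = 0 := h0
    rw [h1] at h2
    have h3 : (⟨e, he⟩ : E) = 0 := by
      have := (toEuclidean (E := E)).map_eq_zero_iff.mp h2
      exact this
    exact hne (congrArg Subtype.val h3)
  set B : ℝ := ‖A‖ * (|R| / c) with hB
  have hB0 : 0 ≤ B := by positivity
  set k : ℝ := (δ / 2) / (B ^ 2 + 1) with hk
  have hk0 : 0 < k := by positivity
  have hkB : k * B ^ 2 ≤ δ / 2 := by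
    rw [hk, div_mul_eq_mul_div, div_le_iff₀ (by positivity)]
    nlinarith [sq_nonneg B]
  set Θ : Y → ℝ := fun z => φ (ν z) + k * ‖A z‖ ^ 2 with hΘdef
  have hf : ContDiff ℝ CInf (fun z => φ (ν z)) :=
    contDiff_phi_comp φ hφs (δ / 4) (by positivity) hφ0 (fun z => ν z) hν.continuous
      (fun z hz => hs.contDiffAt (by
        rintro rfl
        exact hz (map_zero ν)))
  have hfc : ConvexOn ℝ univ (fun z => φ (ν z)) :=
    convexOn_phi_comp φ hφc hφm (fun z => ν z) ν.convexOn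
  have hg : ContDiff ℝ CInf (fun z => k * ‖A z‖ ^ 2) :=
    contDiff_const.mul (A.contDiff.norm_sq ℝ)
  have hgc : ConvexOn ℝ univ (fun z => k * ‖A z‖ ^ 2) := rho_quad_convex A k hk0.le
  have hΘ : ContDiff ℝ CInf Θ := hf.add hg
  have hΘc : ConvexOn ℝ univ Θ := hfc.add hgc
  have hpos : ∀ x : Y, ∀ e ∈ E, e ≠ 0 → 0 < fderiv ℝ (fderiv ℝ Θ) x e e := by
    intro x e he hne
    have h1 : fderiv ℝ Θ = fun z => fderiv ℝ (fun z => φ (ν z)) z +
        fderiv ℝ (fun z => k * ‖A z‖ ^ 2) z := by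
      funext z
      exact fderiv_add (rho_differentiable hf z) (rho_differentiable hg z)
    have h2 : fderiv ℝ (fderiv ℝ Θ) x = fderiv ℝ (fderiv ℝ (fun z => φ (ν z))) x +
        fderiv ℝ (fderiv ℝ (fun z => k * ‖A z‖ ^ 2)) x := by
      rw [h1]
      exact fderiv_add (rho_differentiable (rho_fderiv_contDiff hf) x)
        (rho_differentiable (rho_fderiv_contDiff hg) x)
    rw [h2]
    have h3 := rho_second_nonneg hf hfc x e
    have h4 := rho_quad_fderiv A k x e
    have h5 : 0 < ‖A e‖ := norm_pos_iff.mpr (hAe e he hne)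
    have h6 : 0 < 2 * k * ‖A e‖ ^ 2 := by positivity
    change 0 < fderiv ℝ (fderiv ℝ (fun z => φ (ν z))) x e e +
      fderiv ℝ (fderiv ℝ (fun z => k * ‖A z‖ ^ 2)) x e e
    rw [h4]
    linarith
  have hlow : ∀ z, ν z - δ / 2 ≤ Θ z := by
    intro z
    have h1 := (hφt (ν z) (apply_nonneg ν z)).1
    have h2 : 0 ≤ k * ‖A z‖ ^ 2 := by positivity
    change ν z - δ / 2 ≤ φ (ν z) + k * ‖A z‖ ^ 2
    linarith
  have hup : ∀ z, ν z ≤ R → Θ z ≤ ν z + δ / 2 := by
    intro z hz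
    have h1 := (hφt (ν z) (apply_nonneg ν z)).2
    have h2 : ‖z‖ ≤ |R| / c := by
      rw [le_div_iff₀ hc]
      calc ‖z‖ * c = c * ‖z‖ := mul_comm _ _
        _ ≤ ν z := (hC z).1
        _ ≤ R := hz
        _ ≤ |R| := le_abs_self R
    have h3 : ‖A z‖ ≤ B := by
      calc ‖A z‖ ≤ ‖A‖ * ‖z‖ := A.le_opNorm z
        _ ≤ ‖A‖ * (|R| / c) := by gcongr
    have h4 : k * ‖A z‖ ^ 2 ≤ k * B ^ 2 := by gcongr
    change φ (ν z) + k * ‖A z‖ ^ 2 ≤ ν z + δ / 2
    linarith
  have hcoer : ∀ x : Y, ∀ M : ℝ, ∃ R : ℝ, ∀ e ∈ E, Θ (x - e) ≤ M → ‖e‖ ≤ R := by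
    intro x M
    refine ⟨(M + δ / 2) / c + ‖x‖, fun e _ he => ?_⟩
    have h1 := hlow (x - e)
    have h2 := (hC (x - e)).1
    have h3 : ‖x - e‖ ≤ (M + δ / 2) / c := by
      rw [le_div_iff₀ hc]
      linarith [mul_comm c ‖x - e‖]
    have h4 : ‖e‖ ≤ ‖x - e‖ + ‖x‖ := by
      have h5 : e = x - (x - e) := by abel
      calc ‖e‖ = ‖x - (x - e)‖ := by rw [← h5]
        _ ≤ ‖x‖ + ‖x - e‖ := norm_sub_le _ _
        _ = ‖x - e‖ + ‖x‖ := add_comm _ _
    linarith
  obtain ⟨ρ, hρs, hρc, hρle, hρex⟩ := contDiff_partial_min E Θ hΘ hΘc hpos hcoer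
  have heven : ∀ z, Θ (-z) = Θ z := by
    intro z
    change φ (ν (-z)) + k * ‖A (-z)‖ ^ 2 = φ (ν z) + k * ‖A z‖ ^ 2
    rw [map_neg_eq_map, map_neg, norm_neg]
  have hρle' : ∀ x, ρ (-x) ≤ ρ x := by
    intro x
    obtain ⟨e, he, hx⟩ := hρex x
    have h1 := hρle (-x) (-e) (E.neg_mem he)
    have h2 : -x - -e = -(x - e) := by abel
    rw [h2, heven] at h1
    rw [hx]
    exact h1
  refine ⟨ρ, hρs, hρc, fun x => ?_, fun x => ?_, fun x hx e he => ?_⟩
  · apply le_antisymm (hρle' x)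
    have := hρle' (-x)
    rwa [neg_neg] at this
  · obtain ⟨e, he, hx⟩ := hρex x
    refine ⟨e, he, ?_⟩
    have := hlow (x - e)
    rw [hx]
    linarith
  · by_cases h : ν (x - e) ≤ R
    · have h1 := hρle x e he
      have h2 := hup (x - e) h
      linarith
    · push Not at h
      have h1 := hρle x 0 E.zero_mem
      rw [sub_zero] at h1
      have h2 := hup x hx
      linarith

end Pool.Agent.SN
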