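import Pool.Agent.Helper74.SN.Defs

/-! SN-1: scalar functions. -/

set_option autoImplicit false

namespace Pool.Agent.SN

open Set Filter Topology

/-- the derivative of the scalar function -/
noncomputable def scalarD (δ : ℝ) (u : ℝ) : ℝ := Real.smoothTransition ((u - δ) / (δ / 2))

theorem scalarD_contDiff (δ : ℝ) : ContDiff ℝ CInf (scalarD δ) := by
  have h1 : ContDiff ℝ CInf Real.smoothTransition := Real.smoothTransition.contDiff
  have h2 : ContDiff ℝ CInf (fun u : ℝ => (u - δ) / (δ / 2)) :=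
    (contDiff_id.sub contDiff_const).div_const _
  exact h1.comp h2

theorem scalarD_cont (δ : ℝ) : Continuous (scalarD δ) := (scalarD_contDiff δ).continuous

theorem scalarD_nonneg (δ u : ℝ) : 0 ≤ scalarD δ u := Real.smoothTransition.nonneg _

theorem scalarD_le_one (δ u : ℝ) : scalarD δ u ≤ 1 := Real.smoothTransition.le_one _

theorem scalarD_zero {δ u : ℝ} (hδ : 0 < δ) (h : u ≤ δ) : scalarD δ u = 0 := by
  apply Real.smoothTransition.zero_of_nonpos
  apply div_nonpos_of_nonpos_of_nonneg <;> linarith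

theorem scalarD_one {δ u : ℝ} (hδ : 0 < δ) (h : 3 * δ / 2 ≤ u) : scalarD δ u = 1 := by
  apply Real.smoothTransition.one_of_one_le
  rw [le_div_iff₀ (by linarith)]
  linarith

theorem scalarD_mono {δ : ℝ} (hδ : 0 < δ) : Monotone (scalarD δ) := by
  intro u v huv
  apply Real.smoothTransition.monotone
  gcongr

theorem exists_phi (δ : ℝ) (hδ : 0 < δ) : ∃ φ : ℝ → ℝ, ContDiff ℝ CInf φ ∧
    ConvexOn ℝ univ φ ∧ Monotone φ ∧ (∀ t ≤ δ, φ t = 0) ∧ (∀ t, 0 ≤ φ t) ∧
    (∀ t, 0 ≤ t → t - 2 * δ ≤ φ t ∧ φ t ≤ t) ∧ ∀ s t, |φ s - φ t| ≤ |s - t| := by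
  have hcont := scalarD_cont δ
  have hint : ∀ a b : ℝ, IntervalIntegrable (scalarD δ) MeasureTheory.volume a b :=
    fun a b => hcont.intervalIntegrable a b
  let φ : ℝ → ℝ := fun t => ∫ u in (δ)..t, scalarD δ u
  have hd : ∀ t, HasDerivAt φ (scalarD δ t) t := fun t =>
    intervalIntegral.integral_hasDerivAt_right (hint _ _)
      (hcont.stronglyMeasurableAtFilter _ _) hcont.continuousAt
  have hdiff : Differentiable ℝ φ := fun t => (hd t).differentiableAt
  have hderiv : deriv φ = scalarD δ := funext fun t => (hd t).deriv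
  have hmono : Monotone φ := monotone_of_deriv_nonneg hdiff (by
    intro t; rw [hderiv]; exact scalarD_nonneg δ t)
  have h0 : ∀ t ≤ δ, φ t = 0 := by
    intro t ht
    show ∫ u in (δ)..t, scalarD δ u = 0
    rw [intervalIntegral.integral_symm, neg_eq_zero]
    rw [intervalIntegral.integral_congr (g := fun _ => (0 : ℝ))]
    · simp
    · intro u hu
      rw [uIcc_of_le ht] at hu
      exact scalarD_zero hδ hu.2
  have hlip : ∀ s t, |φ s - φ t| ≤ |s - t| := by
    intro s t
    have h1 : φ s - φ t = ∫ u in t..s, scalarD δ u := by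
      show (∫ u in (δ)..s, scalarD δ u) - (∫ u in (δ)..t, scalarD δ u) = _
      rw [intervalIntegral.integral_interval_sub_left (hint _ _) (hint _ _)]
    rw [h1]
    have h2 := intervalIntegral.norm_integral_le_of_norm_le_const (a := t) (b := s) (C := 1)
      (f := scalarD δ) (by
        intro u _
        rw [Real.norm_eq_abs, abs_of_nonneg (scalarD_nonneg δ u)]
        exact scalarD_le_one δ u)
    rw [Real.norm_eq_abs, one_mul] at h2
    exact h2
  refine ⟨φ, ?_, ?_, hmono, h0, ?_, ?_, hlip⟩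
  · rw [contDiff_infty_iff_deriv]
    refine ⟨hdiff, ?_⟩
    rw [hderiv]
    exact scalarD_contDiff δ
  · apply Monotone.convexOn_univ_of_deriv hdiff
    rw [hderiv]
    exact scalarD_mono hδ
  · intro t
    rcases le_total t δ with h | h
    · rw [h0 t h]
    · rw [← h0 δ le_rfl]; exact hmono h
  · intro t ht
    have hle : φ t ≤ t := by
      rcases le_total t δ with h | h
      · rw [h0 t h]; exact ht
      · have := hlip t δ
        rw [h0 δ le_rfl, sub_zero, abs_of_nonneg (by linarith : (0:ℝ) ≤ t - δ)] at this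
        have := (abs_le.1 this).2
        linarith
    refine ⟨?_, hle⟩
    rcases le_total t (2 * δ) with h | h
    · have : 0 ≤ φ t := by
        rcases le_total t δ with h | h
        · rw [h0 t h]
        · rw [← h0 δ le_rfl]; exact hmono h
      linarith
    · have h1 : φ t - φ (3 * δ / 2) = t - 3 * δ / 2 := by
        show (∫ u in (δ)..t, scalarD δ u) - (∫ u in (δ)..(3 * δ / 2), scalarD δ u) = _
        rw [intervalIntegral.integral_interval_sub_left (hint _ _) (hint _ _)]
        rw [intervalIntegral.integral_congr (g := fun _ => (1 : ℝ))]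
        · simp
        · intro u hu
          rw [uIcc_of_le (by linarith)] at hu
          exact scalarD_one hδ hu.1
      have h2 : 0 ≤ φ (3 * δ / 2) := by
        rw [← h0 δ le_rfl]; exact hmono (by linarith)
      linarith

theorem exists_chi : ∃ χ : ℝ → ℝ, ContDiff ℝ CInf χ ∧ ConvexOn ℝ univ χ ∧ Monotone χ ∧
    (∀ t ≤ -1, χ t = 0) ∧ (∀ t, 0 ≤ χ t) ∧ χ 0 = 1 ∧ ∀ t > 0, 1 < χ t := by
  obtain ⟨φ, h1, h2, h3, h4, h5, h6, -⟩ := exists_phi (1 / 4) (by norm_num)
  have hpos : 0 < φ (5 / 4) := by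
    have := (h6 (5 / 4) (by norm_num)).1
    linarith
  have hconv : ConvexOn ℝ univ (fun t : ℝ => φ (t + 5 / 4) / φ (5 / 4)) := by
    have h7 : ConvexOn ℝ univ (fun t : ℝ => φ (t + 5 / 4)) := by
      refine ⟨convex_univ, ?_⟩
      intro x _ y _ a b ha hb hab
      have := h2.2 (mem_univ (x + 5 / 4)) (mem_univ (y + 5 / 4)) ha hb hab
      have e : a • x + b • y + 5 / 4 = a • (x + 5 / 4) + b • (y + 5 / 4) := by
        simp only [smul_eq_mul]
        linear_combination (- (5 / 4 : ℝ)) * hab
      simp only [e]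
      exact this
    have h8 := h7.smul (c := (φ (5 / 4))⁻¹) (by positivity)
    refine h8.congr ?_
    intro x _
    simp only [smul_eq_mul]
    exact (div_eq_inv_mul _ _).symm
  have hone : (fun t : ℝ => φ (t + 5 / 4) / φ (5 / 4)) 0 = 1 := by
    simp only [zero_add]
    exact div_self hpos.ne'
  have hzero : ∀ t ≤ (-1 : ℝ), (fun t : ℝ => φ (t + 5 / 4) / φ (5 / 4)) t = 0 := by
    intro t ht
    simp only
    rw [h4 _ (by linarith), zero_div]
  refine ⟨fun t => φ (t + 5 / 4) / φ (5 / 4), ?_, hconv, ?_, hzero, ?_, hone, ?_⟩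
  · exact (h1.comp (contDiff_id.add contDiff_const)).div_const _
  · intro s t hst
    simp only
    have := h3 (by linarith : s + 5 / 4 ≤ t + 5 / 4)
    gcongr
  · intro t
    exact div_nonneg (h5 _) hpos.le
  · intro t ht
    -- convexity on `-1 < 0 < t`
    have hc := hconv.2 (mem_univ (-1 : ℝ)) (mem_univ t) (by positivity : (0 : ℝ) ≤ t / (t + 1))
      (by positivity : (0 : ℝ) ≤ 1 / (t + 1)) (by field_simp)
    have e : (t / (t + 1)) • (-1 : ℝ) + (1 / (t + 1)) • t = 0 := by
      simp only [smul_eq_mul]; field_simp; ring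
    rw [e, hone, hzero (-1) le_rfl] at hc
    simp only [smul_eq_mul, mul_zero, zero_add] at hc
    rw [div_mul_eq_mul_div, one_mul, le_div_iff₀ (by linarith)] at hc
    linarith

end Pool.Agent.SN
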