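import Pool.Agent.Helper74.SN.Gauge
import Pool.Agent.Helper74.SN.Rho
import Pool.Agent.Helper74.SN.Net
import Pool.Agent.Helper74.SN.Support

/-! SN-4b: the separable case. -/

set_option autoImplicit false

namespace Pool.Agent.SN

open Set Filter Topology

/-- the constants -/
structure separable_Data (Y : Type*) [NormedAddCommGroup Y] [NormedSpace ℝ Y]
    (ν g : Seminorm ℝ Y) (θ : ℝ) where
  K₁ : ℝ
  K₂ : ℝ
  C : ℝ
  hK₁ : 0 < K₁
  hK₂ : 0 < K₂
  hC : 0 < C
  nu_le : ∀ x, ν x ≤ K₁ * g x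
  norm_le : ∀ x, ‖x‖ ≤ K₂ * ν x
  nu_le_norm : ∀ x, ν x ≤ C * ‖x‖
  g_le_norm : ∀ x, g x ≤ C * ‖x‖

theorem separable_exists_data {Y : Type*} [NormedAddCommGroup Y] [NormedSpace ℝ Y]
    (ν g : Seminorm ℝ Y) (hν : IsEquivNorm ν) (hg : IsEquivNorm g) (θ : ℝ) :
    Nonempty (separable_Data Y ν g θ) := by
  obtain ⟨c1, hc1, C1, h1⟩ := hν
  obtain ⟨c2, hc2, C2, h2⟩ := hg
  refine ⟨⟨|C1| / c2 + 1, 1 / c1, |C1| + |C2| + 1, by positivity, by positivity, by positivity,
    ?_, ?_, ?_, ?_⟩⟩
  · intro x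
    have a1 : ν x ≤ |C1| * ‖x‖ := (h1 x).2.trans
      (mul_le_mul_of_nonneg_right (le_abs_self _) (norm_nonneg _))
    have a2 : ‖x‖ ≤ g x / c2 := by
      rw [le_div_iff₀ hc2, mul_comm]; exact (h2 x).1
    have a3 : |C1| * ‖x‖ ≤ |C1| * (g x / c2) := mul_le_mul_of_nonneg_left a2 (abs_nonneg _)
    have a4 : |C1| * (g x / c2) = |C1| / c2 * g x := by ring
    have a5 : 0 ≤ g x := apply_nonneg g x
    calc ν x ≤ |C1| / c2 * g x := by rw [← a4]; exact a1.trans a3
      _ ≤ (|C1| / c2 + 1) * g x := by nlinarith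
  · intro x
    have a1 := (h1 x).1
    rw [one_div, ← div_eq_inv_mul, le_div_iff₀ hc1, mul_comm]
    exact a1
  · intro x
    have a1 := (h1 x).2
    have a2 : 0 ≤ ‖x‖ := norm_nonneg x
    have a3 := le_abs_self C1
    have a4 := abs_nonneg C2
    nlinarith
  · intro x
    have a1 := (h2 x).2
    have a2 : 0 ≤ ‖x‖ := norm_nonneg x
    have a3 := le_abs_self C2
    have a4 := abs_nonneg C1
    nlinarith

/-- spans of the initial pieces of a dense sequence -/
noncomputable def separable_E (Y : Type*) [NormedAddCommGroup Y] [NormedSpace ℝ Y]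
    [TopologicalSpace.SeparableSpace Y] (n : ℕ) : Submodule ℝ Y :=
  Submodule.span ℝ ((fun i => TopologicalSpace.denseSeq Y i) '' (Finset.range n : Set ℕ))

instance separable_E_fd (Y : Type*) [NormedAddCommGroup Y] [NormedSpace ℝ Y]
    [TopologicalSpace.SeparableSpace Y] (n : ℕ) : FiniteDimensional ℝ (separable_E Y n) :=
  FiniteDimensional.span_of_finite ℝ ((Finset.finite_toSet _).image _)

theorem separable_mem_E (Y : Type*) [NormedAddCommGroup Y] [NormedSpace ℝ Y]
    [TopologicalSpace.SeparableSpace Y] {i n : ℕ} (h : i < n) :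
    TopologicalSpace.denseSeq Y i ∈ separable_E Y n :=
  Submodule.subset_span ⟨i, by simpa using h, rfl⟩

/-- the numbers `c n` -/
noncomputable def separable_c (θ : ℝ) (n : ℕ) : ℝ := θ / (8 * ((n : ℝ) + 1))

/-- the numbers `δ n` -/
noncomputable def separable_d (θ : ℝ) (n : ℕ) : ℝ := separable_c θ n / (8 * ((n : ℝ) + 1))

theorem separable_c_pos {θ : ℝ} (h : 0 < θ) (n : ℕ) : 0 < separable_c θ n := by
  unfold separable_c; positivity

theorem separable_d_pos {θ : ℝ} (h : 0 < θ) (n : ℕ) : 0 < separable_d θ n := by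
  have := separable_c_pos h n
  unfold separable_d; positivity

theorem separable_c_le {θ : ℝ} (h : 0 < θ) (n : ℕ) : separable_c θ n ≤ θ / 8 := by
  unfold separable_c
  have h1 : (0 : ℝ) ≤ n := n.cast_nonneg
  apply div_le_div_of_nonneg_left h.le (by norm_num)
  linarith

theorem separable_d_le {θ : ℝ} (h : 0 < θ) (n : ℕ) : separable_d θ n ≤ separable_c θ n / 8 := by
  unfold separable_d
  have h1 : (0 : ℝ) ≤ n := n.cast_nonneg
  apply div_le_div_of_nonneg_left (separable_c_pos h n).le (by norm_num)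
  linarith

/-- `c n` tends to zero -/
theorem separable_c_small (θ κ : ℝ) (hκ : 0 < κ) : ∃ n₀, ∀ n ≥ n₀, separable_c θ n ≤ κ := by
  have h : Tendsto (fun n : ℕ => separable_c θ n) atTop (𝓝 0) := by
    unfold separable_c
    have h1 : Tendsto (fun n : ℕ => 8 * ((n : ℝ) + 1)) atTop atTop :=
      (tendsto_natCast_atTop_atTop.atTop_add tendsto_const_nhds).const_mul_atTop (by norm_num)
    exact h1.const_div_atTop θ
  have h2 := h.eventually (gt_mem_nhds hκ)
  obtain ⟨n₀, hn⟩ := eventually_atTop.1 h2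
  exact ⟨n₀, fun n hn' => (hn n hn').le⟩

/-- `d n / c n` tends to zero -/
theorem separable_d_small {θ : ℝ} (h : 0 < θ) (M : ℝ) :
    ∃ n₀, ∀ n ≥ n₀, M * separable_d θ n < separable_c θ n := by
  obtain ⟨n₀, hn₀⟩ := exists_nat_gt M
  refine ⟨n₀, fun n hn => ?_⟩
  have h1 := separable_c_pos h n
  have h2 : M < n := hn₀.trans_le (by exact_mod_cast hn)
  have h3 : (0 : ℝ) ≤ n := n.cast_nonneg
  have h4 : (0 : ℝ) < 8 * ((n : ℝ) + 1) := by positivity
  unfold separable_d
  rw [← mul_div_assoc, div_lt_iff₀ h4, mul_comm]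
  apply mul_lt_mul_of_pos_left _ h1
  linarith

theorem separable_case {Y : Type*} [NormedAddCommGroup Y] [NormedSpace ℝ Y] [CompleteSpace Y]
    [TopologicalSpace.SeparableSpace Y] [TopologicalSpace.SeparableSpace (StrongDual ℝ Y)]
    (ν g : Seminorm ℝ Y) (hν : IsEquivNorm ν) (hs : IsSmoothNorm ν) (hg : IsEquivNorm g)
    (e : ℝ) (he : 0 < e) :
    ∃ N : Seminorm ℝ Y, (∀ x, g x ≤ N x ∧ N x ≤ (1 + e) * g x) ∧ IsSmoothNorm N := by
  classical
  set θ : ℝ := e / (1 + e) with hθdef
  have hθ : 0 < θ := by positivity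
  have hθ1 : θ < 1 := by rw [hθdef, div_lt_one (by linarith)]; linarith
  have hθinv : (1 - θ)⁻¹ = 1 + e := by
    have : 1 - θ = (1 + e)⁻¹ := by rw [hθdef]; field_simp; ring
    rw [this, inv_inv]
  obtain ⟨K⟩ := separable_exists_data ν g hν hg θ
  obtain ⟨K₁, K₂, C, hK₁, hK₂, hC, nu_le, norm_le, nu_le_norm, g_le_norm⟩ := K
  set R : ℝ := 3 * K₁ with hR
  set ε : ℝ := min 1 (θ / (4 * K₁)) with hεdef
  have hε : 0 < ε := lt_min one_pos (by positivity)
  have hε1 : ε ≤ 1 := min_le_left _ _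
  have hεK : ε * K₁ ≤ θ / 4 := by
    have h1 : ε ≤ θ / (4 * K₁) := min_le_right _ _
    rw [le_div_iff₀ (by positivity)] at h1
    linarith
  set ε₁ : ℝ := ε / (4 * K₂) with hε₁def
  have hε₁ : 0 < ε₁ := by positivity
  have hε₁K : 2 * ε₁ * K₂ ≤ ε / 2 := by
    have : 2 * ε₁ * K₂ = ε / 2 := by rw [hε₁def]; field_simp; ring
    exact this.le
  -- the dual ball of `g`
  set B : Set (StrongDual ℝ Y) := {f | ∀ y, |f y| ≤ g y} with hB
  have hB0 : (0 : StrongDual ℝ Y) ∈ B := fun y => by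
    rw [ContinuousLinearMap.zero_apply, abs_zero]; exact apply_nonneg g y
  haveI : Nonempty B := ⟨⟨0, hB0⟩⟩
  haveI : TopologicalSpace.SeparableSpace B :=
    (TopologicalSpace.IsSeparable.of_separableSpace B).separableSpace
  set b : ℕ → B := TopologicalSpace.denseSeq B with hb
  have hbd : Bornology.IsBounded B := by
    rw [isBounded_iff_forall_norm_le]
    refine ⟨C, fun f hf => ContinuousLinearMap.opNorm_le_bound _ hC.le fun y => ?_⟩
    exact (hf y).trans (g_le_norm y)
  -- the tolerances of the nets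
  set t : ℕ → ℝ := fun n => separable_d θ n * min 1 (ε / K₂) with ht
  have ht0 : ∀ n, 0 < t n := fun n =>
    mul_pos (separable_d_pos hθ n) (lt_min one_pos (by positivity))
  have ht1 : ∀ n, t n ≤ separable_d θ n := fun n =>
    mul_le_of_le_one_right (separable_d_pos hθ n).le (min_le_left _ _)
  have ht2 : ∀ n, t n * K₂ ≤ ε / 2 := by
    intro n
    have h1 : separable_d θ n ≤ 1 / 2 := by
      have a1 := separable_d_le hθ n
      have a2 := separable_c_le hθ n
      linarith
    have h2 : min 1 (ε / K₂) ≤ ε / K₂ := min_le_right _ _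
    have h3 : t n ≤ 1 / 2 * (ε / K₂) :=
      mul_le_mul h1 h2 (le_min zero_le_one (by positivity)) (by norm_num)
    calc t n * K₂ ≤ 1 / 2 * (ε / K₂) * K₂ := mul_le_mul_of_nonneg_right h3 hK₂.le
      _ = ε / 2 := by field_simp
  -- the nets
  have hnet : ∀ n i : ℕ, ∃ Λ : Finset (StrongDual ℝ Y),
      (∀ f ∈ Λ, f ∈ B ∧ ‖f - (b i : StrongDual ℝ Y)‖ ≤ ε₁) ∧
      ∀ f, (f ∈ B ∧ ‖f - (b i : StrongDual ℝ Y)‖ ≤ ε₁) →
        ∃ f' ∈ Λ, ∀ y ∈ separable_E Y n, |f' y - f y| ≤ t n * ‖y‖ := fun n i =>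
    exists_net (separable_E Y n) {f | f ∈ B ∧ ‖f - (b i : StrongDual ℝ Y)‖ ≤ ε₁}
      (hbd.subset fun f hf => hf.1) (t n) (ht0 n)
  choose Λ hΛ1 hΛ2 using hnet
  set LL : ℕ → Finset (StrongDual ℝ Y) := fun n => (Finset.range n).biUnion fun i => Λ n i with hLL
  have hLLB : ∀ n, ∀ f ∈ LL n, ∀ y, |f y| ≤ g y := by
    intro n f hf
    obtain ⟨i, _, hi⟩ := Finset.mem_biUnion.1 hf
    exact (hΛ1 n i f hi).1
  -- the distance functions
  have hrho : ∀ n : ℕ, ∃ ρ : Y → ℝ, ContDiff ℝ CInf ρ ∧ ConvexOn ℝ univ ρ ∧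
      (∀ x, ρ (-x) = ρ x) ∧ (∀ x, ∃ e ∈ separable_E Y n, ν (x - e) ≤ ρ x + separable_d θ n) ∧
      (∀ x, ν x ≤ R → ∀ e ∈ separable_E Y n, ρ x ≤ ν (x - e) + separable_d θ n) := fun n =>
    exists_rho ν hν hs (separable_E Y n) (separable_d θ n) R (separable_d_pos hθ n)
  choose ρ hρ1 hρ2 hρ3 hρ4 hρ5 using hrho
  -- the family
  let ι := Σ n : ℕ, (LL n) × Bool
  let sg : Bool → ℝ := fun c => if c then 1 else -1
  have hsg : ∀ c, |sg c| = 1 := by intro c; cases c <;> simp [sg]
  have hsg' : ∀ c, sg (!c) = - sg c := by intro c; cases c <;> simp [sg]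
  let h : ι → Y → ℝ := fun i x =>
    sg i.2.2 * (i.2.1 : StrongDual ℝ Y) x + (ε * ρ i.1 x + separable_c θ i.1)
  let η : ι → ℝ := fun i => separable_c θ i.1
  let σ : ι → ι := fun i => ⟨i.1, i.2.1, !i.2.2⟩
  have hle : ∀ (i : ι) (x : Y), sg i.2.2 * (i.2.1 : StrongDual ℝ Y) x ≤ g x := by
    intro i x
    refine (le_abs_self _).trans ?_
    rw [abs_mul, hsg, one_mul]
    exact hLLB i.1 _ i.2.1.2 x
  -- the key lower bound
  have key : ∀ x, ∃ i, g x < h i x := by
    intro x
    obtain ⟨f, hf1, hf2⟩ := exists_support g hg x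
    have hfB : f ∈ B := hf2
    obtain ⟨i, hi⟩ : ∃ i, dist (⟨f, hfB⟩ : B) (b i) < ε₁ :=
      (TopologicalSpace.denseRange_denseSeq B).exists_dist_lt ⟨f, hfB⟩ hε₁
    have hi' : ‖f - (b i : StrongDual ℝ Y)‖ ≤ ε₁ := by
      rw [Subtype.dist_eq, dist_eq_norm] at hi
      exact hi.le
    obtain ⟨n₀, hn₀⟩ := separable_d_small hθ (1 + ‖x‖)
    set n := max n₀ (i + 1) with hn
    have hin : i < n := (Nat.lt_succ_self i).trans_le (le_max_right _ _)
    obtain ⟨f', hf'1, hf'2⟩ := hΛ2 n i f ⟨hfB, hi'⟩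
    have hf'3 := hΛ1 n i f' hf'1
    have hf'mem : f' ∈ LL n := Finset.mem_biUnion.2 ⟨i, Finset.mem_range.2 hin, hf'1⟩
    refine ⟨⟨n, ⟨f', hf'mem⟩, true⟩, ?_⟩
    show g x < sg true * f' x + (ε * ρ n x + separable_c θ n)
    obtain ⟨u, hu, hxu⟩ := hρ4 n x
    set r := ρ n x + separable_d θ n with hr
    have hr0 : 0 ≤ r := (apply_nonneg ν (x - u)).trans hxu
    have hx1 : ‖x - u‖ ≤ K₂ * r := (norm_le _).trans (mul_le_mul_of_nonneg_left hxu hK₂.le)
    have hu1 : ‖u‖ ≤ ‖x‖ + K₂ * r := by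
      have a1 : ‖u‖ ≤ ‖x‖ + ‖x - u‖ := by
        have := norm_sub_le x (x - u)
        simpa using this
      linarith
    have hdiff : ‖f' - f‖ ≤ 2 * ε₁ := by
      have a1 : f' - f = (f' - (b i : StrongDual ℝ Y)) - (f - (b i : StrongDual ℝ Y)) := by abel
      rw [a1]
      refine (norm_sub_le _ _).trans ?_
      linarith [hf'3.2]
    have e1 : |f' u - f u| ≤ t n * ‖u‖ := hf'2 u hu
    have e2 : |(f' - f) (x - u)| ≤ 2 * ε₁ * ‖x - u‖ :=
      ((f' - f).le_opNorm _).trans (mul_le_mul_of_nonneg_right hdiff (norm_nonneg _))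
    have e3 : f' x = f x + (f' u - f u) + (f' - f) (x - u) := by
      simp only [ContinuousLinearMap.sub_apply, map_sub]
      ring
    have e4 := (abs_le.1 e1).1
    have e5 := (abs_le.1 e2).1
    have e6 : t n * ‖u‖ ≤ t n * ‖x‖ + ε / 2 * r := by
      have a1 : t n * ‖u‖ ≤ t n * (‖x‖ + K₂ * r) := mul_le_mul_of_nonneg_left hu1 (ht0 n).le
      have a2 : t n * K₂ * r ≤ ε / 2 * r := mul_le_mul_of_nonneg_right (ht2 n) hr0
      linarith
    have e7 : 2 * ε₁ * ‖x - u‖ ≤ ε / 2 * r := by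
      have a1 : 2 * ε₁ * ‖x - u‖ ≤ 2 * ε₁ * (K₂ * r) :=
        mul_le_mul_of_nonneg_left hx1 (by positivity)
      have a2 : 2 * ε₁ * K₂ * r ≤ ε / 2 * r := mul_le_mul_of_nonneg_right hε₁K hr0
      linarith
    have e8 : t n * ‖x‖ ≤ separable_d θ n * ‖x‖ :=
      mul_le_mul_of_nonneg_right (ht1 n) (norm_nonneg _)
    have e9 : (1 + ‖x‖) * separable_d θ n < separable_c θ n := hn₀ n (le_max_left _ _)
    have e10 : ε * separable_d θ n ≤ separable_d θ n :=
      mul_le_of_le_one_left (separable_d_pos hθ n).le hε1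
    have e11 : ε * r = ε * ρ n x + ε * separable_d θ n := by rw [hr]; ring
    have e12 : sg true = 1 := rfl
    rw [e12, one_mul, e3, hf1]
    nlinarith
  have hgc : Continuous fun x => g x := hg.continuous
  have hνc : Continuous fun x => ν x := hν.continuous
  have hK₁R : K₁ ≤ R := by rw [hR]; linarith
  obtain ⟨N, hN1, hN2⟩ := smooth_gauge h η σ g hgc θ hθ hθ1
    (fun i => separable_c_pos hθ i.1)
    (by
      intro i
      have h1 : ConvexOn ℝ univ fun x : Y => sg i.2.2 * (i.2.1 : StrongDual ℝ Y) x :=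
        ((sg i.2.2 • (i.2.1 : StrongDual ℝ Y)).toLinearMap).convexOn convex_univ
      have h2 : ConvexOn ℝ univ fun x : Y => ε * ρ i.1 x := (hρ2 i.1).smul hε.le
      exact h1.add (h2.add (convexOn_const _ convex_univ)))
    (by
      intro i
      have h1 : ContDiff ℝ CInf fun x : Y => sg i.2.2 * (i.2.1 : StrongDual ℝ Y) x :=
        contDiff_const.mul (i.2.1 : StrongDual ℝ Y).contDiff
      have h2 : ContDiff ℝ CInf fun x : Y => ε * ρ i.1 x := contDiff_const.mul (hρ1 i.1)
      exact h1.add (h2.add contDiff_const))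
    (by
      intro i
      rcases i with ⟨n, f, c⟩
      simp [σ])
    (by
      intro i x
      show sg (!i.2.2) * (i.2.1 : StrongDual ℝ Y) x + (ε * ρ i.1 x + separable_c θ i.1) =
        sg i.2.2 * (i.2.1 : StrongDual ℝ Y) (-x) + (ε * ρ i.1 (-x) + separable_c θ i.1)
      rw [hsg', hρ3, map_neg]
      ring)
    (fun i => rfl)
    (by
      intro x hx
      obtain ⟨i, hi⟩ := key x
      exact (hi.trans_le (hx i)).le)
    (by
      intro x hx i
      show sg i.2.2 * (i.2.1 : StrongDual ℝ Y) x + (ε * ρ i.1 x + separable_c θ i.1) ≤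
        1 - separable_c θ i.1
      have a1 := hle i x
      have a2 : ν x ≤ K₁ := by
        have := nu_le x
        nlinarith
      have a3 := hρ5 i.1 x (a2.trans hK₁R) 0 (Submodule.zero_mem _)
      rw [sub_zero] at a3
      have a4 := separable_c_le hθ i.1
      have a5 := separable_d_le hθ i.1
      have a6 := separable_d_pos hθ i.1
      have a7 : ε * ρ i.1 x ≤ ε * K₁ + separable_d θ i.1 := by
        have b1 : ε * ρ i.1 x ≤ ε * (K₁ + separable_d θ i.1) :=
          mul_le_mul_of_nonneg_left (by linarith) hε.le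
        have b2 : ε * separable_d θ i.1 ≤ separable_d θ i.1 :=
          mul_le_of_le_one_left a6.le hε1
        linarith
      linarith)
    (by
      intro x hx
      have hgx : g x < 1 := by
        obtain ⟨i, hi⟩ := key x
        exact hi.trans_le (hx i)
      set κ := 1 - g x with hκ
      have hκ0 : 0 < κ := by rw [hκ]; linarith
      set γ := min (κ / 6) K₁ with hγ
      have hγ0 : 0 < γ := lt_min (by positivity) hK₁
      have hγ1 : γ ≤ κ / 6 := min_le_left _ _
      have hγ2 : γ ≤ K₁ := min_le_right _ _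
      -- a point of the dense sequence
      obtain ⟨j, hj⟩ : ∃ j, dist x (TopologicalSpace.denseSeq Y j) < γ / C :=
        (TopologicalSpace.denseRange_denseSeq Y).exists_dist_lt x (by positivity)
      have hj' : ν (x - TopologicalSpace.denseSeq Y j) ≤ γ := by
        refine (nu_le_norm _).trans ?_
        rw [dist_eq_norm, lt_div_iff₀ hC] at hj
        linarith
      obtain ⟨n₁, hn₁⟩ := separable_c_small θ (κ / 8) (by positivity)
      refine ⟨{y | ν (y - x) < γ ∧ g (y - x) < γ}, ?_,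
        (Finset.range (max (j + 1) n₁)).sigma (fun n => Finset.univ), ?_⟩
      · refine Filter.inter_mem ?_ ?_
        · have h1 : ContinuousAt (fun y => ν (y - x)) x :=
            (hνc.comp (continuous_id.sub continuous_const)).continuousAt
          exact h1.eventually (gt_mem_nhds (by simpa using hγ0))
        · have h1 : ContinuousAt (fun y => g (y - x)) x :=
            (hgc.comp (continuous_id.sub continuous_const)).continuousAt
          exact h1.eventually (gt_mem_nhds (by simpa using hγ0))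
      · rintro y ⟨hy1, hy2⟩ i hi
        have hi' : max (j + 1) n₁ ≤ i.1 := by
          by_contra hcon
          exact hi (Finset.mem_sigma.2 ⟨Finset.mem_range.2 (not_le.1 hcon), Finset.mem_univ _⟩)
        show sg i.2.2 * (i.2.1 : StrongDual ℝ Y) y + (ε * ρ i.1 y + separable_c θ i.1) ≤
          1 - separable_c θ i.1
        have a1 := hle i y
        have a2 : g y ≤ g x + γ := by
          have := map_add_le_add g x (y - x)
          rw [add_sub_cancel] at this
          linarith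
        have a3 : ν y ≤ R := by
          have b1 := map_add_le_add ν x (y - x)
          rw [add_sub_cancel] at b1
          have b2 := nu_le x
          have b3 : K₁ * g x ≤ K₁ := mul_le_of_le_one_right hK₁.le hgx.le
          rw [hR]
          linarith
        have a4 := hρ5 i.1 y a3 _ (separable_mem_E Y
          (lt_of_lt_of_le (Nat.lt_succ_self j) ((le_max_left _ _).trans hi')))
        have a5 : ν (y - TopologicalSpace.denseSeq Y j) ≤ 2 * γ := by
          have b1 := map_add_le_add ν (y - x) (x - TopologicalSpace.denseSeq Y j)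
          rw [sub_add_sub_cancel] at b1
          linarith
        have a6 := hn₁ i.1 ((le_max_right _ _).trans hi')
        have a7 := separable_d_le hθ i.1
        have a8 := separable_d_pos hθ i.1
        have a9 := separable_c_pos hθ i.1
        have a10 : ε * ρ i.1 y ≤ 2 * γ + separable_d θ i.1 := by
          have b1 : ε * ρ i.1 y ≤ ε * (2 * γ + separable_d θ i.1) :=
            mul_le_mul_of_nonneg_left (by linarith) hε.le
          have b2 : ε * (2 * γ + separable_d θ i.1) ≤ 2 * γ + separable_d θ i.1 :=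
            mul_le_of_le_one_left (by positivity) hε1
          linarith
        linarith)
  refine ⟨N, fun x => ?_, ?_⟩
  · have := hN1 x
    rw [hθinv] at this
    exact this
  · intro x hx
    exact (hN2 x (hg.ne_zero hx)).contDiffWithinAt

end Pool.Agent.SN
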