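import Pool.Agent.Helper74.SN.CutFinite
import Pool.Agent.Helper74.SN.Comp
import Pool.Agent.Helper74.SN.Gauge

/-! SN-5c: the inductive step. -/

set_option autoImplicit false

namespace Pool.Agent.SN

open Set Filter Topology

section HFun

variable {X : Type*} [NormedAddCommGroup X] [NormedSpace ℝ X]

/-- the building block of the family -/
noncomputable def hfun (φ : ℝ → ℝ) (N ν : Seminorm ℝ X) (Q R : X →L[ℝ] X) (ζ ε c : ℝ) (x : X) :
    ℝ := φ (N x) + ζ * φ (ν (Q x)) + ε * φ (ν (R x)) - c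

theorem hfun_contDiff {φ : ℝ → ℝ} {N ν : Seminorm ℝ X} {Q R : X →L[ℝ] X} {ζ ε c δ : ℝ}
    (hφ : ContDiff ℝ CInf φ) (hδ : 0 < δ) (h0 : ∀ t ≤ δ, φ t = 0) (hN : Continuous N)
    (hNs : ∀ x, N x ≠ 0 → ContDiffAt ℝ CInf (fun x => N x) x) (hν : IsEquivNorm ν)
    (hs : IsSmoothNorm ν) : ContDiff ℝ CInf (hfun φ N ν Q R ζ ε c) := by
  have key : ∀ T : X →L[ℝ] X, ContDiff ℝ CInf (fun x => φ (ν (T x))) := by
    intro T
    refine contDiff_phi_comp φ hφ δ hδ h0 (fun x => ν (T x)) (hν.continuous.comp T.continuous) ?_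
    intro x hx
    have hTx : T x ≠ 0 := by
      intro h
      apply hx
      simp [h]
    exact (hs.contDiffAt hTx).comp x T.contDiff.contDiffAt
  have h1 : ContDiff ℝ CInf (fun x => φ (N x)) :=
    contDiff_phi_comp φ hφ δ hδ h0 (fun x => N x) hN hNs
  unfold hfun
  exact ((h1.add (contDiff_const.mul (key Q))).add (contDiff_const.mul (key R))).sub contDiff_const

theorem hfun_convex {φ : ℝ → ℝ} {N ν : Seminorm ℝ X} {Q R : X →L[ℝ] X} {ζ ε c : ℝ}
    (hφ : ConvexOn ℝ univ φ) (hm : Monotone φ) (hζ : 0 ≤ ζ) (hε : 0 ≤ ε) :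
    ConvexOn ℝ univ (hfun φ N ν Q R ζ ε c) := by
  have key : ∀ T : X →L[ℝ] X, ConvexOn ℝ univ (fun x => φ (ν (T x))) := by
    intro T
    apply convexOn_phi_comp φ hφ hm
    exact (ν.comp T.toLinearMap).convexOn
  have h1 : ConvexOn ℝ univ (fun x => φ (N x)) := convexOn_phi_comp φ hφ hm _ N.convexOn
  have h2 := ((h1.add ((key Q).smul hζ)).add ((key R).smul hε)).add_const (-c)
  refine h2.congr ?_
  intro x _
  simp [hfun, sub_eq_add_neg]

theorem hfun_neg (φ : ℝ → ℝ) (N ν : Seminorm ℝ X) (Q R : X →L[ℝ] X) (ζ ε c : ℝ) (x : X) :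
    hfun φ N ν Q R ζ ε c (-x) = hfun φ N ν Q R ζ ε c x := by
  simp [hfun, map_neg]

theorem hfun_lip {φ : ℝ → ℝ} {N ν : Seminorm ℝ X} {Q R : X →L[ℝ] X} {ζ ε c : ℝ}
    (hl : ∀ s t, |φ s - φ t| ≤ |s - t|) (hζ : 0 ≤ ζ) (hε : 0 ≤ ε) (x y : X) :
    hfun φ N ν Q R ζ ε c y ≤ hfun φ N ν Q R ζ ε c x + N (y - x) + ζ * ν (Q (y - x))
      + ε * ν (R (y - x)) := by
  have h1 : φ (N y) - φ (N x) ≤ N (y - x) :=
    (le_abs_self _).trans ((hl _ _).trans (abs_sub_map_le_sub N y x))
  have h2 : ∀ T : X →L[ℝ] X, φ (ν (T y)) - φ (ν (T x)) ≤ ν (T (y - x)) := by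
    intro T
    rw [map_sub]
    exact (le_abs_self _).trans ((hl _ _).trans (abs_sub_map_le_sub ν _ _))
  have h3 := mul_le_mul_of_nonneg_left (h2 Q) hζ
  have h4 := mul_le_mul_of_nonneg_left (h2 R) hε
  simp only [hfun]
  linarith

theorem hfun_upper {φ : ℝ → ℝ} {N ν : Seminorm ℝ X} {Q R : X →L[ℝ] X} {ζ ε c δ : ℝ}
    (h : ∀ t, 0 ≤ t → t - 2 * δ ≤ φ t ∧ φ t ≤ t) (hζ : 0 ≤ ζ) (hε : 0 ≤ ε) (x : X) :
    hfun φ N ν Q R ζ ε c x ≤ N x + ζ * ν (Q x) + ε * ν (R x) - c := by
  have h1 := (h (N x) (apply_nonneg N x)).2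
  have h2 := mul_le_mul_of_nonneg_left (h (ν (Q x)) (apply_nonneg ν _)).2 hζ
  have h3 := mul_le_mul_of_nonneg_left (h (ν (R x)) (apply_nonneg ν _)).2 hε
  simp only [hfun]
  linarith

theorem hfun_lower {φ : ℝ → ℝ} {N ν : Seminorm ℝ X} {Q R : X →L[ℝ] X} {ζ ε c δ : ℝ}
    (h : ∀ t, 0 ≤ t → t - 2 * δ ≤ φ t ∧ φ t ≤ t) (hζ : 0 ≤ ζ) (hε : 0 ≤ ε) (x : X) :
    N x + ζ * ν (Q x) + ε * ν (R x) - 2 * δ * (1 + ζ + ε) - c ≤ hfun φ N ν Q R ζ ε c x := by
  have h1 := (h (N x) (apply_nonneg N x)).1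
  have h2 := mul_le_mul_of_nonneg_left (h (ν (Q x)) (apply_nonneg ν _)).1 hζ
  have h3 := mul_le_mul_of_nonneg_left (h (ν (R x)) (apply_nonneg ν _)).1 hε
  simp only [hfun]
  nlinarith

end HFun

section Step

variable {X : Type*} [NormedAddCommGroup X] [NormedSpace ℝ X] {W : Type*} {g : Seminorm ℝ X}
  (PS : ProjSys X W g) {I : Type*} [LinearOrder I] [WellFoundedLT I] (s : I → W)

theorem inductive_step [CompleteSpace X] (ν : Seminorm ℝ X) (hν : IsEquivNorm ν)
    (hs : IsSmoothNorm ν) (hg : IsEquivNorm g)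
    (h0 : Approx (PS.P ∅) g) (h1 : ∀ a : I, Approx (PS.P (s '' Iio a)) g)
    (h2 : ∀ a : I, Approx (PS.P (s '' Iic a)) g) : Approx (PS.P (range s)) g := by
  intro e he
  -- constants
  obtain ⟨K₁, hK₁, hνg⟩ : ∃ K₁ : ℝ, 0 < K₁ ∧ ∀ x, ν x ≤ K₁ * g x := by
    obtain ⟨c, hc, C, hC⟩ := hg
    obtain ⟨c', hc', C', hC'⟩ := hν
    refine ⟨(|C'| + 1) / c, by positivity, fun x => ?_⟩
    have h3 : ‖x‖ ≤ g x / c := by
      rw [le_div_iff₀ hc]
      linarith [(hC x).1]
    calc ν x ≤ C' * ‖x‖ := (hC' x).2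
      _ ≤ (|C'| + 1) * ‖x‖ := by
        gcongr
        linarith [le_abs_self C']
      _ ≤ (|C'| + 1) * (g x / c) := by gcongr
      _ = (|C'| + 1) / c * g x := by ring
  obtain ⟨θ, hθ, hθ1, hθe⟩ : ∃ θ : ℝ, 0 < θ ∧ θ < 1 ∧ (1 - θ)⁻¹ = 1 + e := by
    refine ⟨e / (1 + e), by positivity, ?_, ?_⟩
    · rw [div_lt_one (by positivity)]
      linarith
    · have : 1 - e / (1 + e) = (1 + e)⁻¹ := by
        field_simp
        ring
      rw [this, inv_inv]
  obtain ⟨ε, hε, hε1, hεK⟩ : ∃ ε : ℝ, 0 < ε ∧ ε ≤ 1 ∧ ε * K₁ ≤ θ / 8 := by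
    refine ⟨min 1 (θ / 8 / K₁), by positivity, min_le_left _ _, ?_⟩
    calc min 1 (θ / 8 / K₁) * K₁ ≤ θ / 8 / K₁ * K₁ := by
          gcongr
          exact min_le_right _ _
      _ = θ / 8 := by field_simp
  set κ : ℝ := θ / 16 with hκdef
  have hκ : 0 < κ := by positivity
  set c : ℕ → ℝ := fun j => κ * (1 / 4 : ℝ) ^ j with hcdef
  have hc : ∀ j, 0 < c j := fun j => by positivity
  have hcκ : ∀ j, c j ≤ κ := by
    intro j
    have : (1 / 4 : ℝ) ^ j ≤ 1 := pow_le_one₀ (by norm_num) (by norm_num)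
    calc κ * (1 / 4 : ℝ) ^ j ≤ κ * 1 := by gcongr
      _ = κ := mul_one _
  set ζ : ℕ → ℝ := fun j => ε * (1 + (1 / 2 : ℝ) ^ j) with hζdef
  have hζ0 : ∀ j, 0 ≤ ζ j := fun j => by positivity
  have hζ2 : ∀ j, ζ j ≤ 2 * ε := by
    intro j
    have : (1 / 2 : ℝ) ^ j ≤ 1 := pow_le_one₀ (by norm_num) (by norm_num)
    simp only [hζdef]
    nlinarith
  have hA : ∀ (a : I) (b : Bool), Approx (PS.P (s '' cut a b)) g := by
    intro a b
    cases b
    · exact h1 a
    · exact h2 a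
  choose N hN hNs using fun (i : I × ℕ × Bool) => hA i.1 i.2.2 (c i.2.1 / 4) (by
    have := hc i.2.1
    positivity)
  obtain ⟨N0, hN0, hN0s⟩ := h0 κ hκ
  choose φ hφs hφc hφm hφ0 hφn hφb hφl using fun (δ : ℝ) (hδ : 0 < δ) => exists_phi δ hδ
  have hδ : ∀ j, 0 < c j / 16 := fun j => by
    have := hc j
    positivity
  have hδ0 : 0 < κ / 8 := by positivity
  -- the projections
  set P : X →L[ℝ] X := PS.P (range s) with hP
  have hgP : ∀ (S : Set W) (x : X), S ⊆ range s → g (PS.P S x) ≤ g (P x) := by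
    intro S x hS
    rw [← PS.mul_left S (range s) hS x]
    exact PS.g_le S _
  have hνP : ∀ (S : Set W) (x : X), S ⊆ range s → ν (PS.P S x) ≤ K₁ * g (P x) := by
    intro S x hS
    exact (hνg _).trans (mul_le_mul_of_nonneg_left (hgP S x hS) hK₁.le)
  have hsub : ∀ S T : Set W, S ⊆ range s → T ⊆ range s → ∀ x,
      ν (PS.P S x - PS.P T x) ≤ 2 * K₁ * g (P x) := by
    intro S T hS hT x
    calc ν (PS.P S x - PS.P T x) ≤ ν (PS.P S x) + ν (PS.P T x) := map_sub_le_add ν _ _
      _ ≤ K₁ * g (P x) + K₁ * g (P x) := add_le_add (hνP S x hS) (hνP T x hT)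
      _ = 2 * K₁ * g (P x) := by ring
  have hr : ∀ J : Set I, s '' J ⊆ range s := fun J => image_subset_range s J
  -- the family
  set H : Option (I × ℕ × Bool) → X → ℝ := fun i => match i with
    | none => hfun (φ (κ / 8) hδ0) N0 ν 0 (P - PS.P ∅) 0 ε (-κ)
    | some i => hfun (φ (c i.2.1 / 16) (hδ i.2.1)) (N i) ν
        (PS.P (s '' Iic i.1) - PS.P (s '' Iio i.1)) (P - PS.P (s '' cut i.1 i.2.2))
        (ζ i.2.1) ε (c i.2.1) with hH
  set η : Option (I × ℕ × Bool) → ℝ := fun i => match i with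
    | none => κ
    | some i => c i.2.1 / 4 with hη
  -- continuity of the seminorms
  have hcont : ∀ (S : Set W) (M : Seminorm ℝ X) (C : ℝ), (∀ x, M x ≤ C * g (PS.P S x)) →
      Continuous M := by
    intro S M C hM
    obtain ⟨c', hc', C', hC'⟩ := hg
    have hb : ∀ x, M x ≤ (|C| * |C'|) * ‖x‖ := by
      intro x
      calc M x ≤ C * g (PS.P S x) := hM x
        _ ≤ |C| * g (PS.P S x) := by
          gcongr
          exact le_abs_self C
        _ ≤ |C| * g x := by
          gcongr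
          exact PS.g_le S x
        _ ≤ |C| * (C' * ‖x‖) := by
          gcongr
          exact (hC' x).2
        _ ≤ |C| * (|C'| * ‖x‖) := by
          gcongr
          exact le_abs_self C'
        _ = (|C| * |C'|) * ‖x‖ := by ring
    have h : LipschitzWith (Real.toNNReal (|C| * |C'|)) (fun x => M x) := by
      apply LipschitzWith.of_dist_le_mul
      intro x y
      rw [Real.dist_eq, dist_eq_norm, Real.coe_toNNReal _ (by positivity)]
      exact (abs_sub_map_le_sub M x y).trans (hb _)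
    exact h.continuous
  have hNcont : ∀ i, Continuous (N i) := fun i =>
    hcont (s '' cut i.1 i.2.2) (N i) (1 + c i.2.1 / 4) (fun x => (hN i x).2)
  have hN0cont : Continuous N0 := hcont ∅ N0 (1 + κ) (fun x => (hN0 x).2)
  have hNs' : ∀ i x, N i x ≠ 0 → ContDiffAt ℝ CInf (fun x => N i x) x := by
    intro i x hx
    apply hNs i x
    intro h
    apply hx
    have := (hN i x).2
    rw [h, map_zero, mul_zero] at this
    exact le_antisymm this (apply_nonneg _ _)
  have hN0s' : ∀ x, N0 x ≠ 0 → ContDiffAt ℝ CInf (fun x => N0 x) x := by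
    intro x hx
    apply hN0s x
    intro h
    apply hx
    have := (hN0 x).2
    rw [h, map_zero, mul_zero] at this
    exact le_antisymm this (apply_nonneg _ _)
  -- bounds
  have hlow : ∀ (x : X) (a : I) (j : ℕ) (b : Bool),
      cutv PS s ν ε x (cut a b) + ε * (1 + (1 / 2 : ℝ) ^ j) * blk PS s ν x a
        - (3 / 2 * κ) * (1 / 4 : ℝ) ^ j ≤ H (some (a, j, b)) x := by
    intro x a j b
    have h3 := hfun_lower (N := N (a, j, b)) (ν := ν)
      (Q := PS.P (s '' Iic a) - PS.P (s '' Iio a)) (R := P - PS.P (s '' cut a b)) (c := c j)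
      (hφb (c j / 16) (hδ j)) (hζ0 j) hε.le x
    have h4 := (hN (a, j, b) x).1
    have h5 : 1 + ζ j + ε ≤ 4 := by linarith [hζ2 j]
    have h6 : 2 * (c j / 16) * (1 + ζ j + ε) ≤ c j / 2 := by
      calc 2 * (c j / 16) * (1 + ζ j + ε) ≤ 2 * (c j / 16) * 4 := by
            have := hδ j
            gcongr
        _ = c j / 2 := by ring
    simp only [_root_.sub_apply] at h3 h4
    simp only [hH, cutv, blk]
    have h7 : c j = κ * (1 / 4 : ℝ) ^ j := rfl
    have h8 : ζ j = ε * (1 + (1 / 2 : ℝ) ^ j) := rfl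
    rw [← h8]
    have h9 : 3 / 2 * κ * (1 / 4 : ℝ) ^ j = 3 / 2 * c j := by rw [h7]; ring
    rw [h9]
    linarith
  have hupp : ∀ (x : X), g (P x) ≤ 1 → ∀ (a : I) (j : ℕ) (b : Bool),
      H (some (a, j, b)) x + c j / 4 ≤
        cutv PS s ν ε x (cut a b) + ε * (1 + (1 / 2 : ℝ) ^ j) * blk PS s ν x a := by
    intro x hx a j b
    have h3 := hfun_upper (N := N (a, j, b)) (ν := ν)
      (Q := PS.P (s '' Iic a) - PS.P (s '' Iio a)) (R := P - PS.P (s '' cut a b)) (c := c j)
      (hφb (c j / 16) (hδ j)) (hζ0 j) hε.le x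
    have h4 := (hN (a, j, b) x).2
    have h5 : g (PS.P (s '' cut a b) x) ≤ 1 := (hgP _ x (hr _)).trans hx
    have h6 : c j / 4 * g (PS.P (s '' cut a b) x) ≤ c j / 4 := by
      have := hc j
      have h7 : c j / 4 * g (PS.P (s '' cut a b) x) ≤ c j / 4 * 1 := by gcongr
      linarith
    simp only [_root_.sub_apply] at h3 h4
    simp only [hH, cutv, blk]
    have h8 : ζ j = ε * (1 + (1 / 2 : ℝ) ^ j) := rfl
    rw [← h8]
    have := hc j
    linarith
  -- (L)
  have hL : ∀ x, (∀ i, H i x ≤ 1) → g (P x) < 1 := by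
    intro x hx
    by_cases hne : PS.P ∅ x = P x
    · have h3 := hfun_lower (N := N0) (ν := ν)
        (Q := (0 : X →L[ℝ] X)) (R := P - PS.P ∅) (c := -κ)
        (hφb (κ / 8) hδ0) le_rfl hε.le x
      have h4 := (hN0 x).1
      have h5 := hx none
      simp only [hH] at h5
      simp only [_root_.sub_apply, hne, sub_self, map_zero, mul_zero, add_zero,
        _root_.zero_apply] at h3 h4
      nlinarith
    · obtain ⟨a, b, hab, hle⟩ := exists_cut_gt PS s ν hν hg x ε hε hne
      have hb : 0 < blk PS s ν x a := by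
        have : blk PS s ν x a ≠ 0 := hν.ne_zero (sub_ne_zero.mpr hab)
        exact lt_of_le_of_ne (apply_nonneg ν _) this.symm
      obtain ⟨j, hj⟩ : ∃ j : ℕ, 3 / 2 * κ * (1 / 4 : ℝ) ^ j < ε * blk PS s ν x a := by
        have h3 : Tendsto (fun j : ℕ => 3 / 2 * κ * (1 / 4 : ℝ) ^ j) atTop (𝓝 (3 / 2 * κ * 0)) :=
          (tendsto_pow_atTop_nhds_zero_of_lt_one (by norm_num) (by norm_num)).const_mul _
        rw [mul_zero] at h3
        exact (h3.eventually (gt_mem_nhds (mul_pos hε hb))).exists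
      have h3 := hlow x a j b
      have h4 := hx (some (a, j, b))
      have h5 : 0 ≤ ε * (1 / 2 : ℝ) ^ j * blk PS s ν x a := by positivity
      have h6 : ε * (1 + (1 / 2 : ℝ) ^ j) * blk PS s ν x a =
        ε * blk PS s ν x a + ε * (1 / 2 : ℝ) ^ j * blk PS s ν x a := by ring
      linarith
  -- apply the gauge theorem
  let p : Seminorm ℝ X := g.comp P.toLinearMap
  have hpx : ∀ x, p x = g (P x) := fun x => rfl
  have hpcont : Continuous p := hcont (range s) p 1 (fun x => by rw [one_mul, hpx])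
  have hmain := smooth_gauge H η id p hpcont θ hθ hθ1 ?_ ?_ ?_ ?_ ?_ ?_ ?_ ?_ ?_
  · obtain ⟨M, hM, hMs⟩ := hmain
    refine ⟨M, fun x => ?_, fun x hx => ?_⟩
    · have := hM x
      rw [hθe, hpx] at this
      exact this
    · apply hMs x
      rw [hpx]
      exact hg.ne_zero hx
  · -- η positive
    intro i
    rcases i with _ | i
    · exact hκ
    · have := hc i.2.1
      simp only [hη]
      positivity
  · -- convex
    intro i
    rcases i with _ | i
    · exact hfun_convex (hφc _ _) (hφm _ _) le_rfl hε.le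
    · exact hfun_convex (hφc _ _) (hφm _ _) (hζ0 _) hε.le
  · -- smooth
    intro i
    rcases i with _ | i
    · exact hfun_contDiff (hφs _ _) hδ0 (hφ0 _ _) hN0cont hN0s' hν hs
    · exact hfun_contDiff (hφs _ _) (hδ _) (hφ0 _ _) (hNcont i) (hNs' i) hν hs
  · intro i
    rfl
  · intro i x
    rcases i with _ | i
    · exact (hfun_neg _ _ _ _ _ _ _ _ x).symm
    · exact (hfun_neg _ _ _ _ _ _ _ _ x).symm
  · intro i
    rfl
  · intro x hx
    exact (hL x hx).le
  · -- (U)
    intro x hx i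
    rw [hpx] at hx
    rcases i with _ | i
    · have h3 := hfun_upper (N := N0) (ν := ν)
        (Q := (0 : X →L[ℝ] X)) (R := P - PS.P ∅) (c := -κ)
        (hφb (κ / 8) hδ0) le_rfl hε.le x
      have h4 := (hN0 x).2
      have h5 : g (PS.P ∅ x) ≤ 1 - θ := (hgP ∅ x (empty_subset _)).trans hx
      have h6 : κ * g (PS.P ∅ x) ≤ κ := by
        calc κ * g (PS.P ∅ x) ≤ κ * 1 := by
              gcongr
              linarith
          _ = κ := mul_one κ
      have h7 : ν (P x - PS.P ∅ x) ≤ 2 * K₁ * g (P x) :=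
        hsub (range s) ∅ subset_rfl (empty_subset _) x
      have h8 : ε * ν (P x - PS.P ∅ x) ≤ θ / 4 := by
        calc ε * ν (P x - PS.P ∅ x) ≤ ε * (2 * K₁ * g (P x)) := by gcongr
          _ ≤ ε * (2 * K₁ * 1) := by
            gcongr
            linarith
          _ = 2 * (ε * K₁) := by ring
          _ ≤ θ / 4 := by linarith
      simp only [hH, hη]
      simp only [_root_.sub_apply, _root_.zero_apply, map_zero,
        mul_zero, add_zero] at h3
      linarith
    · obtain ⟨a, j, b⟩ := i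
      have h3 := hupp x (by linarith) a j b
      have h4 : cutv PS s ν ε x (cut a b) ≤ (1 - θ) + θ / 4 := by
        have h5 : g (PS.P (s '' cut a b) x) ≤ 1 - θ := (hgP _ x (hr _)).trans hx
        have h7 : ν (P x - PS.P (s '' cut a b) x) ≤ 2 * K₁ * g (P x) :=
          hsub (range s) _ subset_rfl (hr _) x
        have h8 : ε * ν (P x - PS.P (s '' cut a b) x) ≤ θ / 4 := by
          calc ε * ν (P x - PS.P (s '' cut a b) x) ≤ ε * (2 * K₁ * g (P x)) := by gcongr
            _ ≤ ε * (2 * K₁ * 1) := by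
              gcongr
              linarith
            _ = 2 * (ε * K₁) := by ring
            _ ≤ θ / 4 := by linarith
        simp only [cutv]
        linarith
      have h5 : ε * (1 + (1 / 2 : ℝ) ^ j) * blk PS s ν x a ≤ θ / 2 := by
        have h7 : blk PS s ν x a ≤ 2 * K₁ * g (P x) := hsub _ _ (hr _) (hr _) x
        have h8 : (1 + (1 / 2 : ℝ) ^ j) ≤ 2 := by
          have : (1 / 2 : ℝ) ^ j ≤ 1 := pow_le_one₀ (by norm_num) (by norm_num)
          linarith
        have h9 : 0 ≤ blk PS s ν x a := apply_nonneg ν _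
        calc ε * (1 + (1 / 2 : ℝ) ^ j) * blk PS s ν x a
            ≤ ε * 2 * (2 * K₁ * g (P x)) := by gcongr
          _ ≤ ε * 2 * (2 * K₁ * 1) := by
            gcongr
            linarith
          _ = 4 * (ε * K₁) := by ring
          _ ≤ θ / 2 := by linarith
      simp only [hη]
      linarith
  · -- locally finite
    intro x hx
    have hgx : g (P x) < 1 := hL x hx
    obtain ⟨F, γ, hγ, hF⟩ := cuts_finite PS s ν hν hg x ε (3 / 2 * κ) hε
      (fun i => H (some i) x) (fun j => c j / 4) (hlow x) (hupp x hgx.le)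
      (fun i => hx (some i)) hgx
    have hLip : ∀ (i : I × ℕ × Bool) (y : X),
        H (some i) y ≤ H (some i) x + (2 + 6 * K₁) * g (y - x) := by
      rintro ⟨a, j, b⟩ y
      have h3 := hfun_lip (N := N (a, j, b)) (ν := ν)
        (Q := PS.P (s '' Iic a) - PS.P (s '' Iio a)) (R := P - PS.P (s '' cut a b)) (c := c j)
        (hφl (c j / 16) (hδ j)) (hζ0 j) hε.le x y
      have hPg : g (P (y - x)) ≤ g (y - x) := PS.g_le _ _
      have h4 : N (a, j, b) (y - x) ≤ 2 * g (y - x) := by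
        have h5 : c j ≤ 1 := (hcκ j).trans (by rw [hκdef]; linarith)
        calc N (a, j, b) (y - x) ≤ (1 + c j / 4) * g (PS.P (s '' cut a b) (y - x)) :=
              (hN (a, j, b) (y - x)).2
          _ ≤ 2 * g (y - x) := by
            have := hc j
            gcongr
            · linarith
            · exact PS.g_le _ _
      have h5 : ζ j * ν ((PS.P (s '' Iic a) - PS.P (s '' Iio a)) (y - x))
          ≤ 4 * K₁ * g (y - x) := by
        have h6 : ν ((PS.P (s '' Iic a) - PS.P (s '' Iio a)) (y - x)) ≤ 2 * K₁ * g (y - x) :=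
          (hsub _ _ (hr _) (hr _) (y - x)).trans (by gcongr)
        calc ζ j * ν ((PS.P (s '' Iic a) - PS.P (s '' Iio a)) (y - x))
            ≤ 2 * (2 * K₁ * g (y - x)) := by
              gcongr
              linarith [hζ2 j]
          _ = 4 * K₁ * g (y - x) := by ring
      have h6 : ε * ν ((P - PS.P (s '' cut a b)) (y - x)) ≤ 2 * K₁ * g (y - x) := by
        have h7 : ν ((P - PS.P (s '' cut a b)) (y - x)) ≤ 2 * K₁ * g (y - x) :=
          (hsub _ _ subset_rfl (hr _) (y - x)).trans (by gcongr)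
        calc ε * ν ((P - PS.P (s '' cut a b)) (y - x)) ≤ 1 * (2 * K₁ * g (y - x)) := by
              gcongr
          _ = 2 * K₁ * g (y - x) := one_mul _
      simp only [hH]
      linarith
    refine ⟨{y | (2 + 6 * K₁) * g (y - x) < γ}, ?_, Finset.insertNone F, ?_⟩
    · have h3 : Continuous fun y => (2 + 6 * K₁) * g (y - x) :=
        continuous_const.mul (hg.continuous.comp (continuous_id.sub continuous_const))
      apply (isOpen_lt h3 continuous_const).mem_nhds
      simp [hγ]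
    · intro y hy i hi
      rcases i with _ | i
      · exact absurd (Finset.none_mem_insertNone) hi
      · have hi' : i ∉ F := fun h => hi (Finset.some_mem_insertNone.mpr h)
        have h3 := hF i hi'
        have h4 := hLip i y
        simp only [mem_setOf_eq] at hy
        simp only [hη]
        linarith

end Step

end Pool.Agent.SN
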